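import Pool.Agent.Lib.MP_6947cd_al.B.SpecS

/-!
Module ALG of Theorem S (problem MP_6947cd_al): the spectral facts.
-/

set_option autoImplicit false

open MeasureTheory ProbabilityTheory Set Matrix
open scoped ENNReal ComplexConjugate ComplexOrder

namespace CholB

namespace AlgM

/-! ### two tangent inequalities -/

/-- tangent of `sqrt (1 + 1/l)` at `x`, multiplied by `l` -/
theorem tangent_sqrt (x l : ℝ) (hx : 0 < x) (hl : 0 ≤ l) :
    l * (Real.sqrt ((x + 1) / x) - (1 / (2 * x ^ 2 * Real.sqrt ((x + 1) / x))) * (l - x))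
      ≤ Real.sqrt (l * (1 + l)) := by
  set h := Real.sqrt ((x + 1) / x) with hh
  have hpos : 0 < h := Real.sqrt_pos.2 (by positivity)
  have hsq : h ^ 2 = (x + 1) / x := Real.sq_sqrt (by positivity)
  have e : l * (h - (1 / (2 * x ^ 2 * h)) * (l - x))
      = l * (2 * x ^ 2 + 3 * x - l) / (2 * x ^ 2 * h) := by
    have h1 : 2 * x ^ 2 * h ^ 2 = 2 * x ^ 2 + 2 * x := by rw [hsq]; field_simp
    field_simp
    linear_combination l * h1
  rw [e]
  by_cases hc : 2 * x ^ 2 + 3 * x - l ≤ 0
  · refine le_trans ?_ (Real.sqrt_nonneg _)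
    apply div_nonpos_of_nonpos_of_nonneg
    · exact mul_nonpos_of_nonneg_of_nonpos hl hc
    · positivity
  · push Not at hc
    apply Real.le_sqrt_of_sq_le
    rw [div_pow, div_le_iff₀ (by positivity)]
    have h1 : (2 * x ^ 2 * h) ^ 2 = 4 * x ^ 3 * (x + 1) := by
      rw [mul_pow, hsq]; field_simp; ring
    rw [h1]
    have h2 : 0 ≤ (l - x) ^ 2 * (4 * x * (x + 1) - l) := by
      apply mul_nonneg (sq_nonneg _)
      nlinarith
    have h3 : 0 ≤ l * ((l - x) ^ 2 * (4 * x * (x + 1) - l)) := mul_nonneg hl h2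
    nlinarith

theorem log_eq_int (l : ℝ) (hl : 0 ≤ l) :
    ∫ u in (0 : ℝ)..1, l / (1 + u * l) = Real.log (1 + l) := by
  have h1 : ∀ u ∈ Set.uIcc (0 : ℝ) 1, HasDerivAt (fun u : ℝ => Real.log (1 + u * l))
      (l / (1 + u * l)) u := by
    intro u hu
    rw [Set.uIcc_of_le zero_le_one] at hu
    have h2 : 0 < 1 + u * l := by nlinarith [hu.1, mul_nonneg hu.1 hl]
    have h3 : HasDerivAt (fun u : ℝ => 1 + u * l) (1 * l) u :=
      ((hasDerivAt_id u).mul_const l).const_add 1
    simpa using h3.log h2.ne'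
  have h4 : ContinuousOn (fun u : ℝ => l / (1 + u * l)) (Set.uIcc (0 : ℝ) 1) := by
    rw [Set.uIcc_of_le zero_le_one]
    refine ContinuousOn.div (by fun_prop) (by fun_prop) fun u hu => ?_
    have h2 : 0 < 1 + u * l := by nlinarith [hu.1, mul_nonneg hu.1 hl]
    exact h2.ne'
  rw [intervalIntegral.integral_eq_sub_of_hasDerivAt h1 h4.intervalIntegrable]
  simp

/-- tangent of `log (1 + l) / l` at `x`, multiplied by `l` -/
theorem tangent_log (x : ℝ) (hx : 0 < x) : ∃ J : ℝ, ∀ l : ℝ, 0 ≤ l →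
    l * (Real.log (1 + x) / x - J * (l - x)) ≤ Real.log (1 + l) := by
  refine ⟨∫ u in (0 : ℝ)..1, u / (1 + u * x) ^ 2, fun l hl => ?_⟩
  have hpos : ∀ (y u : ℝ), 0 ≤ y → u ∈ Set.Icc (0 : ℝ) 1 → 0 < 1 + u * y := by
    intro y u hy hu
    nlinarith [hu.1, mul_nonneg hu.1 hy]
  have i1 : IntervalIntegrable (fun u : ℝ => x / (1 + u * x)) volume 0 1 := by
    apply ContinuousOn.intervalIntegrable
    rw [Set.uIcc_of_le zero_le_one]
    exact ContinuousOn.div (by fun_prop) (by fun_prop) fun u hu => (hpos x u hx.le hu).ne'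
  have i2 : IntervalIntegrable (fun u : ℝ => u / (1 + u * x) ^ 2) volume 0 1 := by
    apply ContinuousOn.intervalIntegrable
    rw [Set.uIcc_of_le zero_le_one]
    exact ContinuousOn.div (by fun_prop) (by fun_prop) fun u hu =>
      (pow_pos (hpos x u hx.le hu) 2).ne'
  have i3 : IntervalIntegrable (fun u : ℝ => l / (1 + u * l)) volume 0 1 := by
    apply ContinuousOn.intervalIntegrable
    rw [Set.uIcc_of_le zero_le_one]
    exact ContinuousOn.div (by fun_prop) (by fun_prop) fun u hu => (hpos l u hl hu).ne'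
  rw [← log_eq_int l hl, ← log_eq_int x hx.le]
  have e : l * ((∫ u in (0 : ℝ)..1, x / (1 + u * x)) / x
      - (∫ u in (0 : ℝ)..1, u / (1 + u * x) ^ 2) * (l - x))
      = ∫ u in (0 : ℝ)..1, ((l / x) * (x / (1 + u * x))
        - (l * (l - x)) * (u / (1 + u * x) ^ 2)) := by
    rw [intervalIntegral.integral_sub (i1.const_mul _) (i2.const_mul _),
      intervalIntegral.integral_const_mul, intervalIntegral.integral_const_mul]
    ring
  rw [e]
  refine intervalIntegral.integral_mono_on zero_le_one ((i1.const_mul _).sub (i2.const_mul _)) i3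
    fun u hu => ?_
  have hx' := hpos x u hx.le hu
  have hl' := hpos l u hl hu
  have hx'' := hx'.ne'
  have hl'' := hl'.ne'
  have e2 : l / (1 + u * l) - (l / x * (x / (1 + u * x)) - l * (l - x) * (u / (1 + u * x) ^ 2))
      = l * u ^ 2 * (l - x) ^ 2 / ((1 + u * l) * (1 + u * x) ^ 2) := by
    have h6 : l / x * (x / (1 + u * x)) = l / (1 + u * x) := by
      rw [div_mul_div_comm, mul_comm l x, mul_div_mul_left _ _ hx.ne']
    rw [h6]
    generalize hP : 1 + u * l = P at *
    generalize hQ : 1 + u * x = Q at *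
    field_simp
    rw [← hP, ← hQ]
    ring
  have h5 : 0 ≤ l * u ^ 2 * (l - x) ^ 2 / ((1 + u * l) * (1 + u * x) ^ 2) := by positivity
  linarith

theorem sum_tan {n : ℕ} (w lam : Fin n → ℝ) (a J y : ℝ) :
    ∑ k, w k * (lam k * (a - J * (lam k - y)))
      = (a + J * y) * (∑ k, w k * lam k) - J * ∑ k, w k * (lam k * lam k) := by
  rw [Finset.mul_sum, Finset.mul_sum, ← Finset.sum_sub_distrib]
  refine Finset.sum_congr rfl fun k _ => ?_
  ring

/-! ### functional calculus -/

section fcalc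

variable {n : ℕ} (U : Matrix (Fin n) (Fin n) ℂ) (lam : Fin n → ℝ)

theorem fc_apply (f : ℝ → ℝ) (i j : Fin n) :
    fc U lam f i j = ∑ k, U i k * (f (lam k) : ℂ) * star (U j k) := by
  unfold fc
  rw [Matrix.mul_apply]
  refine Finset.sum_congr rfl fun k _ => ?_
  rw [Matrix.mul_diagonal, Matrix.conjTranspose_apply]

theorem fc_self (f : ℝ → ℝ) (i : Fin n) :
    fc U lam f i i = ((∑ k, ‖U i k‖ ^ 2 * f (lam k) : ℝ) : ℂ) := by
  rw [fc_apply]
  push_cast
  refine Finset.sum_congr rfl fun k _ => ?_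
  rw [mul_right_comm, Complex.star_def, Complex.mul_conj']

theorem fc_star (f : ℝ → ℝ) : (fc U lam f)ᴴ = fc U lam f := by
  unfold fc
  rw [conjTranspose_mul, conjTranspose_mul, conjTranspose_conjTranspose, Matrix.mul_assoc]
  congr 2
  rw [diagonal_conjTranspose]
  congr 1
  funext k
  simp

theorem fc_mul (hU : Uᴴ * U = 1) (f g : ℝ → ℝ) :
    fc U lam f * fc U lam g = fc U lam (fun l => f l * g l) := by
  unfold fc
  calc _ = U * diagonal (fun k => ((f (lam k) : ℝ) : ℂ)) * (Uᴴ * U)
        * diagonal (fun k => ((g (lam k) : ℝ) : ℂ)) * Uᴴ := by simp only [Matrix.mul_assoc]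
    _ = _ := by
        rw [hU, Matrix.mul_one, Matrix.mul_assoc U, diagonal_mul_diagonal]
        simp

theorem fc_congr (f g : ℝ → ℝ) (h : ∀ k, f (lam k) = g (lam k)) : fc U lam f = fc U lam g := by
  unfold fc
  simp only [h]

end fcalc

end AlgM

/-- Module ALG -/
theorem specAlg : SpecAlg := by
  intro n A θ hA hd hθ
  set p : Fin n → ℝ := fun i => θ i / 2 with hp
  have hp0 : ∀ i, 0 < p i := fun i => by
    have := (hθ i).1
    simp only [hp]; positivity
  set s : Fin n → ℝ := fun i => Real.sqrt (p i) with hs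
  have hs0 : ∀ i, 0 < s i := fun i => Real.sqrt_pos.2 (hp0 i)
  have hss : ∀ i, s i * s i = p i := fun i => Real.mul_self_sqrt (hp0 i).le
  set x : Fin n → ℝ := fun i => ∑ j, ‖A i j‖ ^ 2 * p j with hx
  have hx0 : ∀ i, 0 < x i := by
    intro i
    have h1 : ‖A i i‖ ^ 2 * p i ≤ x i :=
      Finset.single_le_sum (f := fun j => ‖A i j‖ ^ 2 * p j)
        (fun j _ => mul_nonneg (by positivity) (hp0 j).le) (Finset.mem_univ i)
    rw [hd i] at h1
    simp only [norm_one, one_pow, one_mul] at h1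
    exact lt_of_lt_of_le (hp0 i) h1
  set Sd : Matrix (Fin n) (Fin n) ℂ := diagonal fun i => ((s i : ℝ) : ℂ) with hSd
  set Si : Matrix (Fin n) (Fin n) ℂ := diagonal fun i => (((s i)⁻¹ : ℝ) : ℂ) with hSi
  have hSdh : Sdᴴ = Sd := by
    rw [hSd, diagonal_conjTranspose]; congr 1; funext k; simp
  have hSih : Siᴴ = Si := by
    rw [hSi, diagonal_conjTranspose]; congr 1; funext k; simp
  have hSS : Si * Sd = 1 := by
    rw [hSi, hSd, diagonal_mul_diagonal, ← diagonal_one]
    congr 1
    funext k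
    have : ((s k : ℝ) : ℂ) ≠ 0 := by exact_mod_cast (hs0 k).ne'
    push_cast
    field_simp
  have hSS' : Sd * Si = 1 := by
    rw [hSi, hSd, diagonal_mul_diagonal, ← diagonal_one]
    congr 1
    funext k
    have : ((s k : ℝ) : ℂ) ≠ 0 := by exact_mod_cast (hs0 k).ne'
    push_cast
    field_simp
  set B : Matrix (Fin n) (Fin n) ℂ := Sd * A * Sd with hBdef
  have hB : B.PosSemidef := by
    have := hA.mul_mul_conjTranspose_same Sd
    rwa [hSdh] at this
  have hBij : ∀ i j, B i j = (s i : ℂ) * A i j * (s j : ℂ) := by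
    intro i j
    rw [hBdef, hSd, Matrix.mul_diagonal, Matrix.diagonal_mul]
  set lam : Fin n → ℝ := hB.1.eigenvalues with hlam
  set U : Matrix (Fin n) (Fin n) ℂ := (hB.1.eigenvectorUnitary : Matrix (Fin n) (Fin n) ℂ) with hU
  have hUU : Uᴴ * U = 1 := by
    have := (hB.1.eigenvectorUnitary).2
    rw [mem_unitaryGroup_iff'] at this
    exact this
  have hUU' : U * Uᴴ = 1 := by
    have := (hB.1.eigenvectorUnitary).2
    rw [mem_unitaryGroup_iff] at this
    exact this
  have hlam0 : ∀ k, 0 ≤ lam k := hB.eigenvalues_nonneg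
  have hspec : B = fc U lam (fun l => l) := by
    have h := hB.1.spectral_theorem
    rw [Unitary.conjStarAlgAut_apply] at h
    exact h
  have hw1 : ∀ i, ∑ k, ‖U i k‖ ^ 2 = 1 := by
    intro i
    have h := congrFun (congrFun hUU' i) i
    rw [Matrix.mul_apply, Matrix.one_apply_eq] at h
    have h2 : ∑ k, U i k * Uᴴ k i = ((∑ k, ‖U i k‖ ^ 2 : ℝ) : ℂ) := by
      push_cast
      refine Finset.sum_congr rfl fun k _ => ?_
      rw [Matrix.conjTranspose_apply, Complex.star_def, Complex.mul_conj']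
    rw [h2] at h
    exact_mod_cast h
  have hw1' : ∀ k, ∑ i, ‖U i k‖ ^ 2 = 1 := by
    intro k
    have h := congrFun (congrFun hUU k) k
    rw [Matrix.mul_apply, Matrix.one_apply_eq] at h
    have h2 : ∑ i, Uᴴ k i * U i k = ((∑ i, ‖U i k‖ ^ 2 : ℝ) : ℂ) := by
      push_cast
      refine Finset.sum_congr rfl fun i _ => ?_
      rw [Matrix.conjTranspose_apply, Complex.star_def, mul_comm, Complex.mul_conj']
    rw [h2] at h
    exact_mod_cast h
  have hw2 : ∀ i, ∑ k, ‖U i k‖ ^ 2 * lam k = p i := by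
    intro i
    have h := congrFun (congrFun hspec i) i
    rw [AlgM.fc_self, hBij, hd i] at h
    have h2 : ((s i : ℂ) * 1 * (s i : ℂ)) = ((p i : ℝ) : ℂ) := by
      rw [mul_one, ← Complex.ofReal_mul, hss]
    rw [h2] at h
    exact_mod_cast h.symm
  have hBB : ∀ i, (B * B) i i = ((p i * x i : ℝ) : ℂ) := by
    intro i
    rw [Matrix.mul_apply]
    simp only [hx]
    rw [Finset.mul_sum]
    push_cast
    refine Finset.sum_congr rfl fun j _ => ?_
    have hji : A j i = conj (A i j) := by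
      have := hA.1.apply j i
      rw [← this]; rfl
    rw [hBij, hBij, hji]
    calc (s i : ℂ) * A i j * (s j : ℂ) * ((s j : ℂ) * conj (A i j) * (s i : ℂ))
        = ((s i : ℂ) * s i) * ((s j : ℂ) * s j) * (A i j * conj (A i j)) := by ring
      _ = _ := by
          rw [← Complex.ofReal_mul, hss, ← Complex.ofReal_mul, hss, Complex.mul_conj']
          ring
  have hw3 : ∀ i, ∑ k, ‖U i k‖ ^ 2 * (lam k * lam k) = p i * x i := by
    intro i
    have h := hBB i
    rw [hspec, AlgM.fc_mul U lam hUU, AlgM.fc_self] at h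
    exact_mod_cast h
  set V : Matrix (Fin n) (Fin n) ℂ := Si * fc U lam Real.sqrt with hV
  have hSiB : Si * B * Si = A := by
    rw [hBdef]
    calc Si * (Sd * A * Sd) * Si = (Si * Sd) * A * (Sd * Si) := by simp only [Matrix.mul_assoc]
      _ = A := by rw [hSS, hSS', Matrix.one_mul, Matrix.mul_one]
  have hVV : V * Vᴴ = A := by
    rw [hV, conjTranspose_mul, AlgM.fc_star, hSih]
    calc Si * fc U lam Real.sqrt * (fc U lam Real.sqrt * Si)
        = Si * (fc U lam Real.sqrt * fc U lam Real.sqrt) * Si := by simp only [Matrix.mul_assoc]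
      _ = Si * B * Si := by
          rw [AlgM.fc_mul U lam hUU, hspec]
          congr 2
          exact AlgM.fc_congr U lam _ _ fun k => Real.mul_self_sqrt (hlam0 k)
      _ = A := hSiB
  set D : Matrix (Fin n) (Fin n) ℂ := V * fc U lam (fun l => Real.sqrt (1 + l)) with hD
  have hD1 : D = Si * fc U lam (fun l => Real.sqrt l * Real.sqrt (1 + l)) := by
    rw [hD, hV, Matrix.mul_assoc, AlgM.fc_mul U lam hUU]
  have hDii : ∀ i, D i i = (((s i)⁻¹ * ∑ k, ‖U i k‖ ^ 2 *
      (Real.sqrt (lam k) * Real.sqrt (1 + lam k)) : ℝ) : ℂ) := by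
    intro i
    rw [hD1, hSi, Matrix.diagonal_mul, AlgM.fc_self]
    push_cast
    rfl
  have hDD : D * Dᴴ = A + Si * (B * B) * Si := by
    rw [hD1, conjTranspose_mul, AlgM.fc_star, hSih]
    calc _ = Si * (fc U lam (fun l => Real.sqrt l * Real.sqrt (1 + l)) *
          fc U lam (fun l => Real.sqrt l * Real.sqrt (1 + l))) * Si := by
          simp only [Matrix.mul_assoc]
      _ = Si * (B + B * B) * Si := by
          rw [AlgM.fc_mul U lam hUU]
          congr 2
          have h1 : B * B = fc U lam (fun l => l * l) := by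
            rw [hspec, AlgM.fc_mul U lam hUU]
          rw [h1]
          conv_rhs => rw [hspec]
          unfold fc
          rw [← Matrix.add_mul, ← Matrix.mul_add, diagonal_add]
          congr 3
          funext k
          have h2 : Real.sqrt (lam k) * Real.sqrt (1 + lam k) *
              (Real.sqrt (lam k) * Real.sqrt (1 + lam k)) = lam k + lam k * lam k := by
            calc _ = (Real.sqrt (lam k) * Real.sqrt (lam k)) *
                  (Real.sqrt (1 + lam k) * Real.sqrt (1 + lam k)) := by ring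
              _ = _ := by
                rw [Real.mul_self_sqrt (hlam0 k),
                  Real.mul_self_sqrt (by linarith [hlam0 k])]
                ring
          simp only [h2]
          push_cast
          ring
      _ = _ := by rw [Matrix.mul_add, Matrix.add_mul, hSiB]
  refine ⟨U, V, lam, hUU', hlam0, hVV, ?_, ?_, ?_, ?_⟩
  · calc ∑ k, lam k = ∑ k, (∑ i, ‖U i k‖ ^ 2) * lam k := by
          refine Finset.sum_congr rfl fun k _ => ?_
          rw [hw1', one_mul]
      _ = ∑ k, ∑ i, ‖U i k‖ ^ 2 * lam k := by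
          refine Finset.sum_congr rfl fun k _ => ?_
          rw [Finset.sum_mul]
      _ = ∑ i, ∑ k, ‖U i k‖ ^ 2 * lam k := Finset.sum_comm
      _ = ∑ i, p i := Finset.sum_congr rfl fun i _ => hw2 i
  · intro i
    have h := congrFun (congrFun hDD i) i
    rw [Matrix.mul_apply, Matrix.add_apply, hd i] at h
    have h2 : ∑ u, D i u * Dᴴ u i = ((∑ u, ‖D i u‖ ^ 2 : ℝ) : ℂ) := by
      push_cast
      refine Finset.sum_congr rfl fun k _ => ?_
      rw [Matrix.conjTranspose_apply, Complex.star_def, Complex.mul_conj']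
    have h3 : (Si * (B * B) * Si) i i = ((x i : ℝ) : ℂ) := by
      rw [hSi, Matrix.mul_diagonal, Matrix.diagonal_mul, hBB i]
      rw [← Complex.ofReal_mul, ← Complex.ofReal_mul]
      congr 1
      have := (hs0 i).ne'
      rw [← hss i]
      field_simp
    rw [h2, h3] at h
    exact_mod_cast h
  · intro i
    show (1 + x i) * (p i / x i) ≤ ‖D i i‖ ^ 2
    rw [hDii i, Complex.norm_real, Real.norm_eq_abs, sq_abs]
    set T : ℝ := ∑ k, ‖U i k‖ ^ 2 * (Real.sqrt (lam k) * Real.sqrt (1 + lam k)) with hT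
    set h := Real.sqrt ((x i + 1) / x i) with hh
    have hhsq : h ^ 2 = (x i + 1) / x i := Real.sq_sqrt (by have := hx0 i; positivity)
    have h1 : p i * h ≤ T := by
      have h2 : ∀ k, ‖U i k‖ ^ 2 * (lam k * (h - (1 / (2 * x i ^ 2 * h)) * (lam k - x i)))
          ≤ ‖U i k‖ ^ 2 * (Real.sqrt (lam k) * Real.sqrt (1 + lam k)) := by
        intro k
        refine mul_le_mul_of_nonneg_left ?_ (by positivity)
        rw [← Real.sqrt_mul (hlam0 k)]
        exact AlgM.tangent_sqrt (x i) (lam k) (hx0 i) (hlam0 k)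
      have h3 := Finset.sum_le_sum fun k (_ : k ∈ Finset.univ) => h2 k
      rw [AlgM.sum_tan (fun k => ‖U i k‖ ^ 2), hw2, hw3] at h3
      refine le_trans (le_of_eq ?_) h3
      ring
    have h5 : (p i * h) ^ 2 ≤ T ^ 2 :=
      pow_le_pow_left₀ (mul_nonneg (hp0 i).le (Real.sqrt_nonneg _)) h1 2
    rw [mul_pow, inv_pow]
    have h6 : s i ^ 2 = p i := by rw [sq, hss]
    rw [h6]
    rw [mul_pow, hhsq] at h5
    have h7 := mul_le_mul_of_nonneg_left h5 (inv_nonneg.2 (hp0 i).le)
    refine le_trans (le_of_eq ?_) h7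
    have := (hp0 i).ne'
    have := (hx0 i).ne'
    field_simp
    ring
  · show ∑ i, p i / x i * Real.log (1 + x i) ≤ ∑ k, Real.log (1 + lam k)
    have h1 : ∀ i, p i / x i * Real.log (1 + x i) ≤ ∑ k, ‖U i k‖ ^ 2 * Real.log (1 + lam k) := by
      intro i
      obtain ⟨J, hJ⟩ := AlgM.tangent_log (x i) (hx0 i)
      have h3 := Finset.sum_le_sum fun k (_ : k ∈ Finset.univ) =>
        mul_le_mul_of_nonneg_left (hJ (lam k) (hlam0 k)) (sq_nonneg ‖U i k‖)
      rw [AlgM.sum_tan (fun k => ‖U i k‖ ^ 2), hw2, hw3] at h3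
      refine le_trans (le_of_eq ?_) h3
      ring
    calc ∑ i, p i / x i * Real.log (1 + x i)
        ≤ ∑ i, ∑ k, ‖U i k‖ ^ 2 * Real.log (1 + lam k) := Finset.sum_le_sum fun i _ => h1 i
      _ = ∑ k, (∑ i, ‖U i k‖ ^ 2) * Real.log (1 + lam k) := by
          rw [Finset.sum_comm]
          refine Finset.sum_congr rfl fun k _ => ?_
          rw [Finset.sum_mul]
      _ = ∑ k, Real.log (1 + lam k) := by
          refine Finset.sum_congr rfl fun k _ => ?_
          rw [hw1', one_mul]

end CholB
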