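import Pool.Agent.Lib.MP_6947cd_al.B.SpecS
import Pool.Agent.Lib.MP_f1e3b4_an.Inv

/-!
Module BM of Theorem S (problem MP_6947cd_al): the biased law.
-/

set_option autoImplicit false

open MeasureTheory ProbabilityTheory Set Matrix Filter Topology
open scoped ENNReal ComplexConjugate ComplexOrder

namespace CholB

open MPf1e3 (cg G GM nsq)

namespace BMM

/-- the density of the radial law -/
noncomputable def rd (t x : ℝ) : ℝ := x * Real.exp (-x) * (1 - t + t * x / 2)

theorem nsq_nonneg {n : ℕ} (y : Fin n → ℂ) : 0 ≤ nsq y :=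
  Finset.sum_nonneg fun _ _ => by positivity

theorem rd_nonneg {t x : ℝ} (h0 : 0 ≤ t) (h1 : t ≤ 1) (hx : 0 ≤ x) : 0 ≤ rd t x := by
  unfold rd
  have : 0 ≤ 1 - t := by linarith
  positivity

theorem meas_rd (t : ℝ) : Measurable (rd t) := by
  unfold rd
  fun_prop

theorem fb_nonneg {t : ℝ} (y : Fin 2 → ℂ) (h0 : 0 ≤ t) (h1 : t ≤ 1) : 0 ≤ fb t y := by
  unfold fb
  have : 0 ≤ 1 - t := by linarith
  have := nsq_nonneg y
  positivity

theorem fb_pos {t : ℝ} (y : Fin 2 → ℂ) (h0 : 0 ≤ t) (h1 : t < 1) : 0 < fb t y := by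
  unfold fb
  have : 0 < 1 - t := by linarith
  have := nsq_nonneg y
  positivity

theorem meas_nsq {n : ℕ} : Measurable (nsq : (Fin n → ℂ) → ℝ) := by
  unfold nsq
  fun_prop

theorem meas_fb (t : ℝ) : Measurable (fb t) := by
  unfold fb
  have := meas_nsq (n := 2)
  fun_prop

/-- scaling on the half line -/
theorem lint_scale (c : ℝ) (hc : 0 < c) (g : ℝ → ℝ≥0∞) :
    ∫⁻ s in Ioi (0 : ℝ), g s = ∫⁻ x in Ioi (0 : ℝ), ENNReal.ofReal c * g (c * x) := by
  have himg : (fun x : ℝ => c * x) '' Ioi (0 : ℝ) = Ioi 0 := by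
    ext y
    simp only [mem_image, mem_Ioi]
    constructor
    · rintro ⟨r, hr, rfl⟩
      positivity
    · intro hy
      exact ⟨y / c, by positivity, by field_simp⟩
  have h3 := lintegral_image_eq_lintegral_abs_deriv_mul (s := Ioi (0 : ℝ))
    (f := fun x : ℝ => c * x) (f' := fun _ => c) measurableSet_Ioi
    (fun x _ => by simpa using ((hasDerivAt_id x).const_mul c).hasDerivWithinAt)
    (by
      intro a _ b _ hab
      exact mul_left_cancel₀ hc.ne' hab) g
  rw [himg] at h3
  rw [h3]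
  simp only [abs_of_pos hc]

/-- the radial law of `bm t` -/
theorem lint (t : ℝ) (h0 : 0 ≤ t) (h1 : t ≤ 1) (F : ℝ → ℝ≥0∞) (hF : Measurable F) :
    ∫⁻ y, F ((1 + t / 2) * nsq y / 2) ∂(bm t)
      = ∫⁻ x in Ioi (0 : ℝ), F x * ENNReal.ofReal (rd t x) := by
  have mn := meas_nsq (n := 2)
  have mf := meas_fb t
  unfold bm
  rw [lintegral_withDensity_eq_lintegral_mul _ (by fun_prop) (by fun_prop)]
  have e1 : ∀ y : Fin 2 → ℂ, ((fun y : Fin 2 → ℂ => ENNReal.ofReal (fb t y)) *
      fun y : Fin 2 → ℂ => F ((1 + t / 2) * nsq y / 2)) y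
      = (fun s : ℝ => ENNReal.ofReal ((1 + t / 2) ^ 2 * Real.exp (-(t / 2) * s / 2) *
        ((1 - t) + t * (1 + t / 2) * s / 4)) * F ((1 + t / 2) * s / 2)) (nsq y) := by
    intro y
    rfl
  simp_rw [e1]
  refine (MPf1e3.specGam MPf1e3.specProb 1 (fun s : ℝ => ENNReal.ofReal ((1 + t / 2) ^ 2 *
    Real.exp (-(t / 2) * s / 2) * ((1 - t) + t * (1 + t / 2) * s / 4)) * F ((1 + t / 2) * s / 2))
    (by fun_prop)).trans ?_
  have hc : 0 < 2 / (1 + t / 2) := by positivity
  rw [lint_scale (2 / (1 + t / 2)) hc]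
  refine setLIntegral_congr_fun measurableSet_Ioi fun x hx => ?_
  simp only [mem_Ioi] at hx
  have hc1 : (1 + t / 2) ≠ 0 := by positivity
  have e2 : (1 + t / 2) * (2 / (1 + t / 2) * x) / 2 = x := by field_simp
  have h1t : 0 ≤ 1 - t := by linarith
  simp only [e2]
  rw [mul_comm (ENNReal.ofReal ((1 + t / 2) ^ 2 * _ * _)) (F x), mul_assoc,
    ← ENNReal.ofReal_mul (by positivity), mul_left_comm, ← ENNReal.ofReal_mul (by positivity)]
  congr 2
  unfold rd
  have e3 : Real.exp (-(t / 2) * (2 / (1 + t / 2) * x) / 2) *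
      Real.exp (-((2 / (1 + t / 2) * x) / 2)) = Real.exp (-x) := by
    rw [← Real.exp_add]
    congr 1
    field_simp
    ring
  rw [← e3]
  simp only [pow_one, Nat.factorial_one, Nat.cast_one]
  field_simp
  ring

/-- the law of `(1 + t/2) nsq y / 2` -/
theorem law (t : ℝ) (h0 : 0 ≤ t) (h1 : t ≤ 1) :
    (bm t).map (fun y => (1 + t / 2) * nsq y / 2)
      = (volume.restrict (Ioi (0 : ℝ))).withDensity (fun x => ENNReal.ofReal (rd t x)) := by
  have mn := meas_nsq (n := 2)
  refine Measure.ext_of_lintegral _ fun F hF => ?_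
  rw [lintegral_map hF (by fun_prop), lint t h0 h1 F hF,
    lintegral_withDensity_eq_lintegral_mul _ ((meas_rd t).ennreal_ofReal) hF]
  refine lintegral_congr fun x => ?_
  simp only [Pi.mul_apply]
  rw [mul_comm]

theorem integral_eq (t : ℝ) (h0 : 0 ≤ t) (h1 : t ≤ 1) (f : ℝ → ℝ) (hf : Measurable f) :
    ∫ y, f ((1 + t / 2) * nsq y / 2) ∂(bm t) = ∫ x in Ioi (0 : ℝ), rd t x * f x := by
  have mn := meas_nsq (n := 2)
  rw [← integral_map (φ := fun y => (1 + t / 2) * nsq y / 2) (by fun_prop)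
    hf.aestronglyMeasurable, law t h0 h1,
    integral_withDensity_eq_integral_toReal_smul ((meas_rd t).ennreal_ofReal)
      (Eventually.of_forall fun _ => ENNReal.ofReal_lt_top)]
  refine setIntegral_congr_fun measurableSet_Ioi fun x hx => ?_
  simp only [mem_Ioi] at hx
  simp only [smul_eq_mul]
  rw [ENNReal.toReal_ofReal (rd_nonneg h0 h1 hx.le)]

theorem integrable_iff (t : ℝ) (h0 : 0 ≤ t) (h1 : t ≤ 1) (f : ℝ → ℝ) (hf : Measurable f) :
    Integrable (fun y => f ((1 + t / 2) * nsq y / 2)) (bm t)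
      ↔ IntegrableOn (fun x => rd t x * f x) (Ioi (0 : ℝ)) := by
  have mn := meas_nsq (n := 2)
  have e : (fun y : Fin 2 → ℂ => f ((1 + t / 2) * nsq y / 2))
      = f ∘ (fun y : Fin 2 → ℂ => (1 + t / 2) * nsq y / 2) := rfl
  rw [e, ← integrable_map_measure hf.aestronglyMeasurable (by fun_prop), law t h0 h1,
    integrable_withDensity_iff_integrable_smul' ((meas_rd t).ennreal_ofReal)
      (Eventually.of_forall fun _ => ENNReal.ofReal_lt_top)]
  refine integrable_congr ?_
  refine (ae_restrict_iff' measurableSet_Ioi).2 (Eventually.of_forall fun x hx => ?_)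
  simp only [mem_Ioi] at hx
  simp only [smul_eq_mul]
  rw [ENNReal.toReal_ofReal (rd_nonneg h0 h1 hx.le)]

/-- moments -/
theorem pow_int (k : ℕ) : IntegrableOn (fun x : ℝ => x ^ k * Real.exp (-x)) (Ioi 0) := by
  have h := Real.GammaIntegral_convergent (s := (k : ℝ) + 1) (by positivity)
  refine h.congr_fun (fun x hx => ?_) measurableSet_Ioi
  simp only [add_sub_cancel_right, Real.rpow_natCast]
  ring

theorem pow_val (k : ℕ) : ∫ x in Ioi (0 : ℝ), x ^ k * Real.exp (-x) = k.factorial := by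
  rw [← Real.Gamma_nat_eq_factorial, Real.Gamma_eq_integral (by positivity)]
  refine setIntegral_congr_fun measurableSet_Ioi fun x _ => ?_
  simp only [add_sub_cancel_right, Real.rpow_natCast]
  ring

theorem rd_eq (t x : ℝ) : rd t x
    = (1 - t) * (x ^ 1 * Real.exp (-x)) + t / 2 * (x ^ 2 * Real.exp (-x)) := by
  unfold rd
  ring

theorem rdx_eq (t x : ℝ) : rd t x * x
    = (1 - t) * (x ^ 2 * Real.exp (-x)) + t / 2 * (x ^ 3 * Real.exp (-x)) := by
  unfold rd
  ring

theorem rd_int (t : ℝ) : IntegrableOn (fun x => rd t x) (Ioi (0 : ℝ)) := by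
  simp_rw [rd_eq]
  exact ((pow_int 1).const_mul _).add ((pow_int 2).const_mul _)

theorem rdx_int (t : ℝ) : IntegrableOn (fun x => rd t x * x) (Ioi (0 : ℝ)) := by
  simp_rw [rdx_eq]
  exact ((pow_int 2).const_mul _).add ((pow_int 3).const_mul _)

theorem rd_val (t : ℝ) : ∫ x in Ioi (0 : ℝ), rd t x = 1 := by
  simp_rw [rd_eq]
  rw [integral_add ((pow_int 1).const_mul _) ((pow_int 2).const_mul _), integral_const_mul,
    integral_const_mul, pow_val, pow_val]
  norm_num [Nat.factorial]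

theorem rdx_val (t : ℝ) : ∫ x in Ioi (0 : ℝ), rd t x * x = 2 + t := by
  simp_rw [rdx_eq]
  rw [integral_add ((pow_int 2).const_mul _) ((pow_int 3).const_mul _), integral_const_mul,
    integral_const_mul, pow_val, pow_val]
  norm_num [Nat.factorial]
  ring

theorem prob (t : ℝ) (h0 : 0 ≤ t) (h1 : t ≤ 1) : IsProbabilityMeasure (bm t) := by
  constructor
  have h := lint t h0 h1 (fun _ => 1) measurable_const
  simp only [lintegral_const, one_mul] at h
  rw [h, ← ofReal_integral_eq_lintegral_ofReal (rd_int t), rd_val, ENNReal.ofReal_one]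
  refine (ae_restrict_iff' measurableSet_Ioi).2 (Eventually.of_forall fun x hx => ?_)
  exact rd_nonneg h0 h1 (le_of_lt hx)

theorem nsq_eq (t : ℝ) (h0 : 0 ≤ t) (y : Fin 2 → ℂ) :
    nsq y = (fun x : ℝ => 2 / (1 + t / 2) * x) ((1 + t / 2) * nsq y / 2) := by
  have : (1 + t / 2) ≠ 0 := by positivity
  simp only
  field_simp

theorem int_nsq (t : ℝ) (h0 : 0 ≤ t) (h1 : t ≤ 1) :
    Integrable (fun y : Fin 2 → ℂ => nsq y) (bm t) := by
  have e0 : (fun y : Fin 2 → ℂ => nsq y) = fun y =>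
      (fun x : ℝ => 2 / (1 + t / 2) * x) ((1 + t / 2) * nsq y / 2) := funext (nsq_eq t h0)
  rw [e0, integrable_iff t h0 h1 (fun x : ℝ => 2 / (1 + t / 2) * x) (by fun_prop)]
  have h : IntegrableOn (fun x => 2 / (1 + t / 2) * (rd t x * x)) (Ioi (0 : ℝ)) :=
    (rdx_int t).const_mul _
  refine h.congr_fun (fun x _ => ?_) measurableSet_Ioi
  simp only
  ring

theorem val_nsq (t : ℝ) (h0 : 0 ≤ t) (h1 : t ≤ 1) : ∫ y, nsq y ∂(bm t) = 4 := by
  have e0 : (fun y : Fin 2 → ℂ => nsq y) = fun y =>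
      (fun x : ℝ => 2 / (1 + t / 2) * x) ((1 + t / 2) * nsq y / 2) := funext (nsq_eq t h0)
  rw [e0, integral_eq t h0 h1 (fun x : ℝ => 2 / (1 + t / 2) * x) (by fun_prop)]
  have e : ∀ x : ℝ, rd t x * (2 / (1 + t / 2) * x) = 2 / (1 + t / 2) * (rd t x * x) := by
    intro x; ring
  simp_rw [e]
  rw [integral_const_mul, rdx_val]
  have : (1 + t / 2) ≠ 0 := by positivity
  field_simp
  ring

/-- the logarithm of the density as a function of the radial variable -/
noncomputable def lf (t x : ℝ) : ℝ :=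
  2 * Real.log (1 + t / 2) + (-(t / 2 / (1 + t / 2) * x) + Real.log (1 - t + t * x / 2))

theorem meas_lf (t : ℝ) : Measurable (lf t) := by
  unfold lf
  fun_prop

theorem log_fb (t : ℝ) (h0 : 0 ≤ t) (h1 : t < 1) (y : Fin 2 → ℂ) :
    Real.log (fb t y) = lf t ((1 + t / 2) * nsq y / 2) := by
  have hn := nsq_nonneg y
  have h1t : 0 < 1 - t := by linarith
  have hc : 0 < 1 + t / 2 := by positivity
  unfold fb lf
  rw [Real.log_mul (by positivity) (by positivity), Real.log_mul (by positivity) (by positivity),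
    Real.log_pow, Real.log_exp, add_assoc]
  congr 2
  · field_simp
  · congr 1
    ring

theorem log_int (t : ℝ) (h0 : 0 ≤ t) (h1 : t < 1) :
    IntegrableOn (fun x => rd t x * Real.log (1 - t + t * x / 2)) (Ioi (0 : ℝ)) := by
  have h1t : 0 < 1 - t := by linarith
  have hb : IntegrableOn (fun x => |Real.log (1 - t)| * rd t x + rd t x * x) (Ioi (0 : ℝ)) :=
    ((rd_int t).const_mul _).add (rdx_int t)
  refine hb.mono' ?_ ?_
  · exact ((meas_rd t).mul (by fun_prop)).aestronglyMeasurable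
  · refine (ae_restrict_iff' measurableSet_Ioi).2 (Eventually.of_forall fun x hx => ?_)
    simp only [mem_Ioi] at hx
    have hr := rd_nonneg h0 h1.le hx.le
    rw [norm_mul, Real.norm_eq_abs, Real.norm_eq_abs, abs_of_nonneg hr]
    have h2 : |Real.log (1 - t + t * x / 2)| ≤ |Real.log (1 - t)| + x := by
      rw [abs_le]
      constructor
      · have h3 : Real.log (1 - t) ≤ Real.log (1 - t + t * x / 2) :=
          Real.log_le_log h1t (by nlinarith [mul_nonneg h0 hx.le])
        have h4 := neg_abs_le (Real.log (1 - t))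
        linarith
      · have h3 : Real.log (1 - t + t * x / 2) ≤ (1 - t + t * x / 2) - 1 :=
          Real.log_le_sub_one_of_pos (by positivity)
        have h4 := abs_nonneg (Real.log (1 - t))
        nlinarith
    calc rd t x * |Real.log (1 - t + t * x / 2)| ≤ rd t x * (|Real.log (1 - t)| + x) :=
          mul_le_mul_of_nonneg_left h2 hr
      _ = _ := by ring

theorem lf_int (t : ℝ) (h0 : 0 ≤ t) (h1 : t < 1) :
    IntegrableOn (fun x => rd t x * lf t x) (Ioi (0 : ℝ)) := by
  have e : (fun x => rd t x * lf t x) = fun x => 2 * Real.log (1 + t / 2) * rd t x +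
      (-(t / 2 / (1 + t / 2)) * (rd t x * x) + rd t x * Real.log (1 - t + t * x / 2)) := by
    funext x
    unfold lf
    ring
  rw [e]
  exact ((rd_int t).const_mul _).add (((rdx_int t).const_mul _).add (log_int t h0 h1))

theorem lf_val (t : ℝ) (h0 : 0 ≤ t) (h1 : t < 1) :
    ∫ x in Ioi (0 : ℝ), rd t x * lf t x = KL t := by
  have e : (fun x => rd t x * lf t x) = fun x => 2 * Real.log (1 + t / 2) * rd t x +
      (-(t / 2 / (1 + t / 2)) * (rd t x * x) + rd t x * Real.log (1 - t + t * x / 2)) := by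
    funext x
    unfold lf
    ring
  have hA : IntegrableOn (fun x => 2 * Real.log (1 + t / 2) * rd t x) (Ioi (0 : ℝ)) :=
    (rd_int t).const_mul _
  have hB : IntegrableOn (fun x => -(t / 2 / (1 + t / 2)) * (rd t x * x)) (Ioi (0 : ℝ)) :=
    (rdx_int t).const_mul _
  have hC := log_int t h0 h1
  have hBC : IntegrableOn (fun x => -(t / 2 / (1 + t / 2)) * (rd t x * x) +
      rd t x * Real.log (1 - t + t * x / 2)) (Ioi (0 : ℝ)) := hB.add hC
  rw [e, integral_add hA hBC, integral_add hB hC, integral_const_mul,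
    integral_const_mul, rd_val, rdx_val]
  unfold KL
  have hc : (1 + t / 2) ≠ 0 := by positivity
  have e2 : ∫ x in Ioi (0 : ℝ), rd t x * Real.log (1 - t + t * x / 2)
      = ∫ x in Ioi (0 : ℝ), x * Real.exp (-x) *
      ((1 - t + t * x / 2) * Real.log (1 - t + t * x / 2)) := by
    refine integral_congr_ae (Eventually.of_forall fun x => ?_)
    simp only [rd]
    ring
  rw [e2]
  have e3 : -(t / 2 / (1 + t / 2)) * (2 + t) = -t := by
    field_simp
  rw [e3]
  ring

theorem neg_mp : MeasurePreserving (fun y : Fin 2 → ℂ => -y) (G 2) (G 2) := by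
  have h := MPf1e3.specInv.col 2 (-1) (by
    rw [Matrix.mem_unitaryGroup_iff]
    simp)
  have e : (fun a : Fin 2 → ℂ => Matrix.mulVec (-1 : Matrix (Fin 2) (Fin 2) ℂ) a)
      = fun y : Fin 2 → ℂ => -y := by
    funext a
    rw [Matrix.neg_mulVec, Matrix.one_mulVec]
  rwa [e] at h

theorem nsq_neg {n : ℕ} (y : Fin n → ℂ) : nsq (-y) = nsq y := by
  unfold nsq
  simp

theorem fb_neg (t : ℝ) (y : Fin 2 → ℂ) : fb t (-y) = fb t y := by
  unfold fb
  rw [nsq_neg]

theorem bm_neg (t : ℝ) : MeasurePreserving (fun y : Fin 2 → ℂ => -y) (bm t) (bm t) := by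
  refine ⟨measurable_neg, ?_⟩
  have mf := meas_fb t
  refine Measure.ext_of_lintegral _ fun F hF => ?_
  rw [lintegral_map hF measurable_neg]
  unfold bm
  have hF2 : Measurable fun y : Fin 2 → ℂ => F (-y) := hF.comp measurable_neg
  rw [lintegral_withDensity_eq_lintegral_mul _ mf.ennreal_ofReal hF2,
    lintegral_withDensity_eq_lintegral_mul _ mf.ennreal_ofReal hF]
  rw [← neg_mp.lintegral_comp (f := (fun y => ENNReal.ofReal (fb t y)) * F)
    (mf.ennreal_ofReal.mul hF)]
  refine lintegral_congr fun y => ?_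
  simp only [Pi.mul_apply, fb_neg]

theorem mean (t : ℝ) (c : Fin 2) : ∫ y, y c ∂(bm t) = 0 := by
  have h := (bm_neg t).integral_comp (MeasurableEquiv.neg (Fin 2 → ℂ)).measurableEmbedding
    (fun y : Fin 2 → ℂ => y c)
  simp only [Pi.neg_apply] at h
  rw [integral_neg] at h
  have h2 : (2 : ℂ) * ∫ y, y c ∂(bm t) = 0 := by
    linear_combination (-1 : ℂ) * h
  simpa using h2

end BMM

open BMM in
theorem specBM : SpecBM where
  pos := fun t y h0 h1 => fb_pos y h0 h1
  nonneg := fun t y h0 h1 => fb_nonneg y h0 h1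
  prob := prob
  int_nsq := int_nsq
  val_nsq := val_nsq
  mean := fun t _ _ c => mean t c
  int_log := fun t h0 h1 => by
    simp_rw [log_fb t h0 h1]
    exact (integrable_iff t h0 h1.le (lf t) (meas_lf t)).2 (lf_int t h0 h1)
  val_log := fun t h0 h1 => by
    simp_rw [log_fb t h0 h1]
    rw [integral_eq t h0 h1.le (lf t) (meas_lf t), lf_val t h0 h1]

end CholB
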