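import Pool.Agent.Lib.MP_6947cd_al.B.SpecS
import Pool.Agent.Lib.MP_f1e3b4_an.G2

/-!
First facts on the biased law `bm t`: `bm t` is the law of `y / sqrt c` with `y` of density
`(1 - t) + t nsq y / 4` with respect to `G 2`.
-/

set_option autoImplicit false

open MeasureTheory ProbabilityTheory Set Matrix Filter Topology
open scoped ENNReal ComplexConjugate ComplexOrder

namespace CholB

open MPf1e3 (cg G GM nsq)
open MPf1e3.G1 MPf1e3.G2

namespace Bm0

lemma nsq2 (y : Fin 2 → ℂ) : nsq y = ‖y 0‖ ^ 2 + ‖y 1‖ ^ 2 := by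
  unfold MPf1e3.nsq
  rw [Fin.sum_univ_two]

lemma nsq_nonneg {n : ℕ} (y : Fin n → ℂ) : 0 ≤ nsq y := MPf1e3.G2.nsq_nonneg y

lemma meas_nsq {n : ℕ} : Measurable (nsq : (Fin n → ℂ) → ℝ) := by
  unfold MPf1e3.nsq
  fun_prop

/-- `G 2` as a product -/
lemma lint_G2 (F : (Fin 2 → ℂ) → ℝ≥0∞) (hF : Measurable F) :
    ∫⁻ y, F y ∂(G 2) = ∫⁻ z, ∫⁻ w, F ![z, w] ∂cg ∂cg := by
  rw [row_cons 1 F hF]
  refine lintegral_congr fun z => ?_
  rw [row_cons 0 (fun b => F (Fin.cons z b)) (hF.comp ((MPf1e3.G2.meas_cons 1).comp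
    (by fun_prop : Measurable fun b : Fin 1 → ℂ => (z, b))))]
  refine lintegral_congr fun w => ?_
  have : ∀ b : Fin 0 → ℂ, F (Fin.cons z (Fin.cons w b)) = F ![z, w] := by
    intro b
    congr 1
    funext i
    fin_cases i <;> rfl
  simp_rw [this]
  simp

lemma meas_pair : Measurable (fun p : ℂ × ℂ => (![p.1, p.2] : Fin 2 → ℂ)) := by
  refine measurable_pi_lambda _ fun i => ?_
  fin_cases i
  · exact measurable_fst
  · exact measurable_snd

lemma tilt2 (s lam : ℝ) (hs : 0 < s) (hl : s ^ 2 * (1 + lam) = 1)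
    (F : (Fin 2 → ℂ) → ℝ≥0∞) (hF : Measurable F) :
    ∫⁻ y, F y * ENNReal.ofReal (Real.exp (-(lam / 2) * nsq y)) ∂(G 2)
      = ENNReal.ofReal (s ^ 4) * ∫⁻ y, F (fun c => (s : ℂ) * y c) ∂(G 2) := by
  have m1 : Measurable fun y : Fin 2 → ℂ =>
      F y * ENNReal.ofReal (Real.exp (-(lam / 2) * nsq y)) := by
    have := meas_nsq (n := 2)
    fun_prop
  have m2 : Measurable fun y : Fin 2 → ℂ => F (fun c => (s : ℂ) * y c) := by
    refine hF.comp ?_
    fun_prop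
  rw [lint_G2 _ m1, lint_G2 _ m2]
  have hFp : Measurable fun p : ℂ × ℂ => F ![p.1, p.2] := hF.comp meas_pair
  have e1 : ∀ z w : ℂ, F ![z, w] * ENNReal.ofReal (Real.exp (-(lam / 2) * nsq ![z, w]))
      = (F ![z, w] * ENNReal.ofReal (Real.exp (-(lam / 2) * ‖w‖ ^ 2))) *
        ENNReal.ofReal (Real.exp (-(lam / 2) * ‖z‖ ^ 2)) := by
    intro z w
    rw [mul_assoc, ← ENNReal.ofReal_mul (Real.exp_nonneg _), ← Real.exp_add, nsq2]
    congr 3
    simp
    ring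
  have e2 : ∀ z : ℂ, ∫⁻ w, F ![z, w] * ENNReal.ofReal (Real.exp (-(lam / 2) * nsq ![z, w])) ∂cg
      = (ENNReal.ofReal (s ^ 2) * ∫⁻ w, F ![z, (s : ℂ) * w] ∂cg) *
        ENNReal.ofReal (Real.exp (-(lam / 2) * ‖z‖ ^ 2)) := by
    intro z
    simp_rw [e1]
    have mz : Measurable fun w : ℂ => F ![z, w] :=
      hFp.comp (by fun_prop : Measurable fun w : ℂ => (z, w))
    rw [lintegral_mul_const _ (by fun_prop)]
    congr 1
    exact cg_tilt s lam hs hl (fun w => F ![z, w]) mz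
  simp_rw [e2]
  have m3 : Measurable fun z : ℂ => ENNReal.ofReal (s ^ 2) * ∫⁻ w, F ![z, (s : ℂ) * w] ∂cg := by
    refine Measurable.const_mul ?_ _
    refine Measurable.lintegral_prod_right' (f := fun p : ℂ × ℂ => F ![p.1, (s : ℂ) * p.2]) ?_
    exact hFp.comp (by fun_prop : Measurable fun p : ℂ × ℂ => (p.1, (s : ℂ) * p.2))
  rw [cg_tilt s lam hs hl _ m3]
  rw [lintegral_const_mul _ (by
    refine Measurable.lintegral_prod_right' (f := fun p : ℂ × ℂ => F ![(s : ℂ) * p.1, (s : ℂ) * p.2]) ?_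
    exact hFp.comp (by fun_prop : Measurable fun p : ℂ × ℂ => ((s : ℂ) * p.1, (s : ℂ) * p.2)))]
  rw [← mul_assoc, ← ENNReal.ofReal_mul (by positivity)]
  congr 1
  · congr 1; ring
  · refine lintegral_congr fun z => lintegral_congr fun w => ?_
    congr 1
    funext c
    fin_cases c <;> rfl

lemma fb_nonneg (t : ℝ) (y : Fin 2 → ℂ) (h0 : 0 ≤ t) (h1 : t ≤ 1) : 0 ≤ fb t y := by
  unfold fb
  have := nsq_nonneg y
  have h2 : 0 ≤ 1 - t := by linarith
  have h3 : 0 ≤ 1 + t / 2 := by linarith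
  positivity

lemma fb_pos (t : ℝ) (y : Fin 2 → ℂ) (h0 : 0 ≤ t) (h1 : t < 1) : 0 < fb t y := by
  unfold fb
  have := nsq_nonneg y
  have h2 : 0 < 1 - t := by linarith
  have h3 : 0 < 1 + t / 2 := by linarith
  have h4 : 0 < (1 - t) + t * (1 + t / 2) * nsq y / 4 := by positivity
  positivity

lemma meas_fb (t : ℝ) : Measurable (fb t) := by
  unfold fb
  have := meas_nsq (n := 2)
  fun_prop

/-- the law of the biased variable -/
lemma lint_bm (t : ℝ) (h0 : 0 ≤ t) (h1 : t ≤ 1) (F : (Fin 2 → ℂ) → ℝ≥0∞) (hF : Measurable F) :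
    ∫⁻ y, F y ∂(bm t) = ∫⁻ y, F (fun c => ((Real.sqrt (1 + t / 2))⁻¹ : ℝ) * y c) *
      ENNReal.ofReal ((1 - t) + t * nsq y / 4) ∂(G 2) := by
  have hc : 0 < 1 + t / 2 := by linarith
  have hsq : 0 < Real.sqrt (1 + t / 2) := Real.sqrt_pos.2 hc
  have hm := meas_nsq (n := 2)
  unfold bm
  rw [lintegral_withDensity_eq_lintegral_mul _ (meas_fb t).ennreal_ofReal hF]
  have key := tilt2 (Real.sqrt (1 + t / 2))⁻¹ (t / 2) (by positivity)
    (by rw [inv_pow, Real.sq_sqrt hc.le]; field_simp)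
    (fun y => F y * ENNReal.ofReal ((1 + t / 2) ^ 2 * ((1 - t) + t * (1 + t / 2) * nsq y / 4)))
    (by fun_prop)
  have e1 : ∀ y : Fin 2 → ℂ, ((fun y => ENNReal.ofReal (fb t y)) * F) y
      = (F y * ENNReal.ofReal ((1 + t / 2) ^ 2 * ((1 - t) + t * (1 + t / 2) * nsq y / 4))) *
        ENNReal.ofReal (Real.exp (-(t / 2 / 2) * nsq y)) := by
    intro y
    have hn := nsq_nonneg y
    have h2 : 0 ≤ 1 - t := by linarith
    rw [mul_assoc, ← ENNReal.ofReal_mul (by positivity)]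
    simp only [Pi.mul_apply]
    rw [mul_comm]
    congr 2
    unfold fb
    have : -(t / 2) * nsq y / 2 = -(t / 2 / 2) * nsq y := by ring
    rw [this]
    ring
  simp_rw [e1]
  rw [key, ← lintegral_const_mul _ (by
    have : Measurable fun y : Fin 2 → ℂ => F (fun c => (((Real.sqrt (1 + t / 2))⁻¹ : ℝ) : ℂ) * y c) :=
      hF.comp (by fun_prop)
    have h3 : Measurable fun y : Fin 2 → ℂ =>
      nsq (fun c => (((Real.sqrt (1 + t / 2))⁻¹ : ℝ) : ℂ) * y c) := hm.comp (by fun_prop)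
    fun_prop)]
  refine lintegral_congr fun y => ?_
  have hn := nsq_nonneg y
  have h2 : 0 ≤ 1 - t := by linarith
  have hns : nsq (fun c => (((Real.sqrt (1 + t / 2))⁻¹ : ℝ) : ℂ) * y c) = nsq y / (1 + t / 2) := by
    rw [nsq2, nsq2]
    simp only [norm_mul, Complex.norm_real, mul_pow, Real.norm_eq_abs, sq_abs, inv_pow,
      Real.sq_sqrt hc.le]
    ring
  have h4 : (Real.sqrt (1 + t / 2))⁻¹ ^ 4 = ((1 + t / 2) ^ 2)⁻¹ := by
    rw [inv_pow]
    congr 1
    calc Real.sqrt (1 + t / 2) ^ 4 = (Real.sqrt (1 + t / 2) ^ 2) ^ 2 := by ring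
      _ = _ := by rw [Real.sq_sqrt hc.le]
  rw [hns, h4, mul_left_comm, ← ENNReal.ofReal_mul (by positivity)]
  congr 2
  field_simp

end Bm0

end CholB
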