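import Pool.Agent.Lib.MP_6947cd_al.B.SpecS
import Pool.Agent.Lib.MP_f1e3b4_an.G2

/-!
Problem MP_6947cd_al (Chollet), Theorem S, module CV: the change of variables `g = R h` in the
Gaussian integral over two-colour configurations.
-/

set_option autoImplicit false

open MeasureTheory ProbabilityTheory Set Matrix
open scoped ENNReal ComplexConjugate ComplexOrder

namespace CholB

open MPf1e3 (cg G GM nsq)

namespace CVM

open MPf1e3.G1 MPf1e3.G2

instance instGM (N n : ℕ) : IsProbabilityMeasure (GM N n) := by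
  unfold GM; infer_instance

/-- weighted changes of variables on a finite product -/
theorem tilt_pi {ι : Type*} [Fintype ι] {X : ι → Type*} [∀ i, MeasurableSpace (X i)]
    (μ : ∀ i, Measure (X i)) [∀ i, IsProbabilityMeasure (μ i)]
    (φ : ∀ i, X i → X i) (hφ : ∀ i, Measurable (φ i))
    (w : ∀ i, X i → ℝ≥0∞) (hw : ∀ i, Measurable (w i)) (c : ι → NNReal)
    (h : ∀ i, ∀ f : X i → ℝ≥0∞, Measurable f →
      ∫⁻ x, f (φ i x) * w i x ∂(μ i) = (c i : ℝ≥0∞) * ∫⁻ x, f x ∂(μ i))
    (F : (∀ i, X i) → ℝ≥0∞) (hF : Measurable F) :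
    ∫⁻ x, F (fun i => φ i (x i)) * ∏ i, w i (x i) ∂(Measure.pi μ)
      = (∏ i, (c i : ℝ≥0∞)) * ∫⁻ x, F x ∂(Measure.pi μ) := by
  classical
  have hφm : Measurable (fun x : (∀ i, X i) => fun i => φ i (x i)) := by
    refine measurable_pi_lambda _ fun i => ?_
    exact (hφ i).comp (measurable_pi_apply i)
  have hwm : Measurable (fun x : (∀ i, X i) => ∏ i, w i (x i)) := by
    refine Finset.measurable_fun_prod _ fun i _ => ?_
    exact (hw i).comp (measurable_pi_apply i)
  have hprod : ∀ g : ∀ i, X i → ℝ≥0∞, (∀ i, Measurable (g i)) →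
      ∫⁻ x, ∏ i, g i (x i) ∂(Measure.pi μ) = ∏ i, ∫⁻ x, g i x ∂(μ i) := by
    intro g hg
    have h1 := lintegral_prod_eq_prod_lintegral_of_indepFun Finset.univ
      (fun i (x : ∀ i, X i) => g i (x i))
      (iIndepFun_pi (X := g) (μ := μ) fun i => (hg i).aemeasurable)
      (fun i => (hg i).comp (measurable_pi_apply i))
    rw [h1]
    refine Finset.prod_congr rfl fun i _ => ?_
    exact (measurePreserving_eval μ i).lintegral_comp (hg i)
  have hν : (((Measure.pi μ).withDensity fun x => ∏ i, w i (x i)).map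
      (fun x : (∀ i, X i) => fun i => φ i (x i))) = Measure.pi fun i => (c i) • μ i := by
    symm
    refine Measure.pi_eq fun s hs => ?_
    rw [Measure.map_apply hφm (MeasurableSet.univ_pi hs),
      withDensity_apply _ (hφm (MeasurableSet.univ_pi hs)),
      ← lintegral_indicator (hφm (MeasurableSet.univ_pi hs))]
    have e1 : ∀ x : (∀ i, X i), ((fun x : (∀ i, X i) => fun i => φ i (x i)) ⁻¹' (univ.pi s)).indicator
        (fun x => ∏ i, w i (x i)) x = ∏ i, ((s i).indicator (fun _ => (1 : ℝ≥0∞)) (φ i (x i)) *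
          w i (x i)) := by
      intro x
      by_cases hx : ∀ i, φ i (x i) ∈ s i
      · rw [indicator_of_mem (by simpa [Set.mem_pi] using hx)]
        refine Finset.prod_congr rfl fun i _ => ?_
        rw [indicator_of_mem (hx i), one_mul]
      · rw [indicator_of_notMem (by simpa [Set.mem_pi] using hx)]
        push Not at hx
        obtain ⟨i, hi⟩ := hx
        symm
        refine Finset.prod_eq_zero (Finset.mem_univ i) ?_
        rw [indicator_of_notMem hi, zero_mul]
    rw [lintegral_congr e1]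
    have hm : ∀ i, Measurable fun y : X i => (s i).indicator (fun _ => (1 : ℝ≥0∞)) (φ i y) * w i y :=
      fun i => ((measurable_const.indicator (hs i)).comp (hφ i)).mul (hw i)
    rw [hprod (fun i y => (s i).indicator (fun _ => (1 : ℝ≥0∞)) (φ i y) * w i y) hm]
    refine Finset.prod_congr rfl fun i _ => ?_
    rw [h i _ (measurable_const.indicator (hs i)), lintegral_indicator (hs i), lintegral_const,
      one_mul, Measure.restrict_apply_univ, Measure.smul_apply, ENNReal.smul_def, smul_eq_mul]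
  have hν2 : (Measure.pi fun i => (c i) • μ i) = (∏ i, (c i)) • Measure.pi μ := by
    refine Measure.pi_eq fun s hs => ?_
    simp only [Measure.smul_apply, Measure.pi_pi, ENNReal.smul_def, smul_eq_mul, ENNReal.ofNNReal_finsetProd,
      Finset.prod_mul_distrib]
  have h1 : ∫⁻ x, F (fun i => φ i (x i)) * ∏ i, w i (x i) ∂(Measure.pi μ)
      = ∫⁻ x, F x ∂(((Measure.pi μ).withDensity fun x => ∏ i, w i (x i)).map
      (fun x : (∀ i, X i) => fun i => φ i (x i))) := by
    have hF2 : Measurable fun x : (∀ i, X i) => F (fun i => φ i (x i)) := hF.comp hφm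
    rw [lintegral_map hF hφm, lintegral_withDensity_eq_lintegral_mul _ hwm hF2]
    refine lintegral_congr fun x => ?_
    simp only [Pi.mul_apply]
    rw [mul_comm]
  rw [h1, hν, hν2, lintegral_smul_measure, ENNReal.smul_def, smul_eq_mul, ENNReal.ofNNReal_finsetProd]

/-- one coordinate -/
theorem tilt1 (lam : ℝ) (hl : 0 ≤ lam) (f : ℂ → ℝ≥0∞) (hf : Measurable f) :
    ∫⁻ z, f ((Real.sqrt (1 + lam) : ℂ) * z) * ENNReal.ofReal (Real.exp (-(lam / 2) * ‖z‖ ^ 2)) ∂cg
      = (Real.toNNReal (1 / (1 + lam)) : ℝ≥0∞) * ∫⁻ z, f z ∂cg := by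
  have h0 : (0:ℝ) < 1 + lam := by linarith
  have hs : 0 < Real.sqrt (1 + lam) := Real.sqrt_pos.mpr h0
  have h1 := cg_tilt (1 / Real.sqrt (1 + lam)) lam (by positivity)
    (by rw [div_pow, Real.sq_sqrt h0.le]; field_simp) (fun z => f ((Real.sqrt (1 + lam) : ℂ) * z))
    (by fun_prop)
  rw [h1]
  have e1 : (1 / Real.sqrt (1 + lam)) ^ 2 = 1 / (1 + lam) := by
    rw [div_pow, Real.sq_sqrt h0.le, one_pow]
  rw [e1]
  congr 1
  refine lintegral_congr fun z => ?_
  congr 1
  rw [← mul_assoc, ← Complex.ofReal_mul, mul_one_div, div_self hs.ne', Complex.ofReal_one, one_mul]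

/-- one row -/
theorem tilt2 (m : ℕ) (lam : ℝ) (hl : 0 ≤ lam) (f : (Fin m → ℂ) → ℝ≥0∞) (hf : Measurable f) :
    ∫⁻ y, f (fun c => (Real.sqrt (1 + lam) : ℂ) * y c) *
        ENNReal.ofReal (Real.exp (-(lam / 2) * nsq y)) ∂(G m)
      = (Real.toNNReal ((1 / (1 + lam)) ^ m) : ℝ≥0∞) * ∫⁻ y, f y ∂(G m) := by
  have h := tilt_pi (fun _ : Fin m => cg) (fun _ z => (Real.sqrt (1 + lam) : ℂ) * z)
    (fun _ => by fun_prop) (fun _ z => ENNReal.ofReal (Real.exp (-(lam / 2) * ‖z‖ ^ 2)))
    (fun _ => by fun_prop) (fun _ => Real.toNNReal (1 / (1 + lam)))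
    (fun _ g hg => tilt1 lam hl g hg) f hf
  have e1 : ∀ y : Fin m → ℂ, ENNReal.ofReal (Real.exp (-(lam / 2) * nsq y))
      = ∏ i, ENNReal.ofReal (Real.exp (-(lam / 2) * ‖y i‖ ^ 2)) := by
    intro y
    rw [← ENNReal.ofReal_prod_of_nonneg fun i _ => (Real.exp_pos _).le, ← Real.exp_sum]
    congr 2
    unfold nsq
    rw [Finset.mul_sum]
  simp_rw [e1]
  unfold G
  rw [h, Finset.prod_const, Finset.card_univ, Fintype.card_fin,
    Real.toNNReal_pow (by positivity)]
  push_cast
  rfl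

/-- all coordinates -/
theorem tiltM (n m : ℕ) (lam : Fin n → ℝ) (hl : ∀ k, 0 ≤ lam k)
    (F : (Fin n → Fin m → ℂ) → ℝ≥0∞) (hF : Measurable F) :
    ∫⁻ g, F (fun k c => (Real.sqrt (1 + lam k) : ℂ) * g k c) *
        ENNReal.ofReal (Real.exp (-(∑ k, lam k * nsq (g k)) / 2)) ∂(GM n m)
      = ENNReal.ofReal ((∏ k, (1 / (1 + lam k))) ^ m) * ∫⁻ g, F g ∂(GM n m) := by
  have hp : ∀ k, (0:ℝ) ≤ 1 / (1 + lam k) := fun k => by
    have := hl k
    positivity
  have h := tilt_pi (fun _ : Fin n => G m) (fun k y c => (Real.sqrt (1 + lam k) : ℂ) * y c)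
    (fun _ => by fun_prop) (fun k y => ENNReal.ofReal (Real.exp (-(lam k / 2) * nsq y)))
    (fun _ => by
      have := @MPf1e3.GamM.meas_nsq m
      fun_prop) (fun k => Real.toNNReal ((1 / (1 + lam k)) ^ m))
    (fun k g hg => tilt2 m (lam k) (hl k) g hg) F hF
  have e1 : ∀ g : Fin n → Fin m → ℂ, ENNReal.ofReal (Real.exp (-(∑ k, lam k * nsq (g k)) / 2))
      = ∏ k, ENNReal.ofReal (Real.exp (-(lam k / 2) * nsq (g k))) := by
    intro y
    rw [← ENNReal.ofReal_prod_of_nonneg fun i _ => (Real.exp_pos _).le, ← Real.exp_sum]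
    congr 2
    rw [neg_div, Finset.sum_div, ← Finset.sum_neg_distrib]
    refine Finset.sum_congr rfl fun k _ => ?_
    ring
  simp_rw [e1]
  unfold GM
  rw [h]
  congr 1
  rw [← Finset.prod_pow, ENNReal.ofReal_prod_of_nonneg fun i _ => pow_nonneg (hp i) m]
  rfl

/-- exchange of the two indices -/
theorem swap_map (n m : ℕ) : (GM n m).map (fun g c i => g i c) = GM m n := by
  classical
  have hm : Measurable (fun (g : Fin n → Fin m → ℂ) c i => g i c) := by fun_prop
  unfold GM G
  symm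
  refine Measure.pi_eq_generateFrom (C := fun _ => univ.pi '' univ.pi fun _ => {s | MeasurableSet s})
    (fun _ => ?_) (fun _ => isPiSystem_pi) (fun _ => ⟨fun _ => univ, fun _ => ?_, fun _ => ?_, ?_⟩) ?_
  · exact generateFrom_pi
  · exact ⟨fun _ => univ, fun i _ => (MeasurableSet.univ : MeasurableSet (univ : Set ℂ)),
      Set.pi_univ _⟩
  · exact measure_lt_top _ _
  · exact Set.iUnion_const _
  · intro s hs
    choose t ht using hs
    have hts : ∀ c, s c = univ.pi (t c) := fun c => (ht c).2.symm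
    have htm : ∀ c i, MeasurableSet (t c i) := fun c i => (ht c).1 i (mem_univ _)
    have hsm : MeasurableSet (univ.pi s) := MeasurableSet.univ_pi fun c => by
      rw [hts c]
      exact MeasurableSet.univ_pi (htm c)
    rw [Measure.map_apply hm hsm]
    have e1 : (fun (g : Fin n → Fin m → ℂ) c i => g i c) ⁻¹' (univ.pi s)
        = univ.pi fun i => univ.pi fun c => t c i := by
      ext g
      simp only [mem_preimage, Set.mem_pi, mem_univ, forall_true_left, hts]
      exact ⟨fun h i c => h c i, fun h c i => h i c⟩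
    rw [e1, Measure.pi_pi]
    simp_rw [hts, Measure.pi_pi]
    exact Finset.prod_comm

theorem meas_act {n : ℕ} (V : Matrix (Fin n) (Fin n) ℂ) : Measurable (act V) := by
  unfold act; fun_prop

theorem act_mul {n : ℕ} (A B : Matrix (Fin n) (Fin n) ℂ) (g : Fin n → Fin 2 → ℂ) :
    act A (act B g) = act (A * B) g := by
  funext i c
  unfold act
  simp only [Matrix.mul_apply, Finset.sum_mul, Finset.mul_sum]
  rw [Finset.sum_comm]
  refine Finset.sum_congr rfl fun k _ => Finset.sum_congr rfl fun j _ => ?_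
  ring

theorem act_diag {n : ℕ} (d : Fin n → ℂ) (g : Fin n → Fin 2 → ℂ) :
    act (Matrix.diagonal d) g = fun k c => d k * g k c := by
  funext i c
  unfold act
  rw [Finset.sum_eq_single i (fun j _ hj => by rw [Matrix.diagonal_apply_ne _ hj.symm, zero_mul])
    (fun h => absurd (Finset.mem_univ i) h), Matrix.diagonal_apply_eq]

/-- unitary invariance of the law of configurations -/
theorem act_unitary (n : ℕ) (U : Matrix (Fin n) (Fin n) ℂ) (hU : U * Uᴴ = 1) :
    (GM n 2).map (act U) = GM n 2 := by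
  have hT : Uᵀ * (Uᵀ)ᴴ = 1 := by
    have h1 : Uᴴ * U = 1 := mul_eq_one_comm.mp hU
    have h2 := congrArg Matrix.transpose h1
    rw [Matrix.transpose_mul, Matrix.transpose_one] at h2
    rw [← h2]
    rfl
  have hs1 : Measurable (fun (g : Fin n → Fin 2 → ℂ) c i => g i c) := by fun_prop
  have hs2 : Measurable (fun (g : Fin 2 → Fin n → ℂ) c i => g i c) := by fun_prop
  have hmid : Measurable (fun (g : Fin 2 → Fin n → ℂ) => fun c => (g c) ᵥ* Uᵀ) :=
    measurable_pi_lambda _ fun c => (meas_vecMul Uᵀ).comp (measurable_pi_apply c)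
  have e0 : act U = (fun (g : Fin 2 → Fin n → ℂ) c i => g i c) ∘
      (fun (g : Fin 2 → Fin n → ℂ) => fun c => (g c) ᵥ* Uᵀ) ∘
      (fun (g : Fin n → Fin 2 → ℂ) c i => g i c) := by
    funext g i c
    simp only [Function.comp, act, vecMul, dotProduct, Matrix.transpose_apply]
    exact Finset.sum_congr rfl fun u _ => mul_comm _ _
  rw [e0, ← Measure.map_map hs2 (hmid.comp hs1), ← Measure.map_map hmid hs1, swap_map]
  have e2 : (GM 2 n).map (fun (g : Fin 2 → Fin n → ℂ) => fun c => (g c) ᵥ* Uᵀ) = GM 2 n := by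
    unfold GM
    rw [Measure.pi_map_pi (μ := fun _ : Fin 2 => G n) (f := fun _ a => a ᵥ* Uᵀ)
      (fun _ => (meas_vecMul Uᵀ).aemeasurable)]
    simp_rw [G_unitary Uᵀ hT]
  rw [e2, swap_map]

theorem lint_unitary (n : ℕ) (U : Matrix (Fin n) (Fin n) ℂ) (hU : U * Uᴴ = 1)
    (F : (Fin n → Fin 2 → ℂ) → ℝ≥0∞) (hF : Measurable F) :
    ∫⁻ g, F (act U g) ∂(GM n 2) = ∫⁻ g, F g ∂(GM n 2) := by
  conv_rhs => rw [← act_unitary n U hU]
  rw [lintegral_map hF (meas_act U)]

theorem sum_nsq_act {n : ℕ} (U : Matrix (Fin n) (Fin n) ℂ) (hU : U * Uᴴ = 1)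
    (g : Fin n → Fin 2 → ℂ) : ∑ i, nsq (act U g i) = ∑ i, nsq (g i) := by
  have hT : Uᵀ * (Uᵀ)ᴴ = 1 := by
    have h1 : Uᴴ * U = 1 := mul_eq_one_comm.mp hU
    have h2 := congrArg Matrix.transpose h1
    rw [Matrix.transpose_mul, Matrix.transpose_one] at h2
    rw [← h2]
    rfl
  unfold nsq
  rw [Finset.sum_comm, Finset.sum_comm (f := fun i j => ‖g i j‖ ^ 2)]
  refine Finset.sum_congr rfl fun c _ => ?_
  have h1 := nsq_vecMul Uᵀ hT (fun i => g i c)
  unfold nsq at h1
  rw [← h1]
  refine Finset.sum_congr rfl fun i _ => ?_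
  simp only [act, vecMul, dotProduct, Matrix.transpose_apply]
  rw [Finset.sum_congr rfl fun u _ => mul_comm (U i u) (g u c)]

end CVM

open CVM in
theorem specCV : SpecCV := by
  intro n U lam hU hlam F hF
  have hU' : Uᴴ * U = 1 := mul_eq_one_comm.mp hU
  have hsum := @sum_nsq_act n
  obtain ⟨R, hR⟩ : ∃ R, R = fc U lam fun l => Real.sqrt (1 + l) := ⟨_, rfl⟩
  have hns : Measurable (fun h : Fin n → Fin 2 → ℂ => ∑ i, nsq (h i)) := by
    have := @MPf1e3.GamM.meas_nsq 2
    fun_prop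
  rw [← hR]
  have hmR := meas_act R
  have h1 := lint_unitary n U hU (fun h => F (act R h) * ENNReal.ofReal (Real.exp (-(∑ i, nsq (act R h i)
        - ∑ i, nsq (h i)) / 2))) (by
      have h2 : Measurable (fun h : Fin n → Fin 2 → ℂ => ∑ i, nsq (act R h i)) := hns.comp hmR
      have h3 : Measurable (fun h : Fin n → Fin 2 → ℂ => F (act R h)) := hF.comp hmR
      fun_prop)
  rw [← h1]
  have hRU : ∀ g : Fin n → Fin 2 → ℂ, act R (act U g)
      = act U (fun k c => (Real.sqrt (1 + lam k) : ℂ) * g k c) := by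
    intro g
    rw [act_mul, ← act_diag (fun k => (Real.sqrt (1 + lam k) : ℂ)), act_mul, hR]
    unfold fc
    rw [Matrix.mul_assoc, hU', Matrix.mul_one]
  have e2 : ∀ g : Fin n → Fin 2 → ℂ, F (act R (act U g)) *
      ENNReal.ofReal (Real.exp (-(∑ i, nsq (act R (act U g) i) - ∑ i, nsq (act U g i)) / 2))
      = F (act U (fun k c => (Real.sqrt (1 + lam k) : ℂ) * g k c)) *
        ENNReal.ofReal (Real.exp (-(∑ k, lam k * nsq (g k)) / 2)) := by
    intro g
    rw [hRU, hsum U hU, hsum U hU, ← Finset.sum_sub_distrib]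
    congr 5
    refine Finset.sum_congr rfl fun k _ => ?_
    unfold nsq
    rw [← Finset.sum_sub_distrib, Finset.mul_sum]
    refine Finset.sum_congr rfl fun c _ => ?_
    rw [norm_mul, mul_pow, Complex.norm_real, Real.norm_eq_abs, sq_abs, Real.sq_sqrt
      (by linarith [hlam k])]
    ring
  rw [lintegral_congr e2, tiltM n 2 lam hlam (fun g => F (act U g)) (hF.comp (meas_act U)),
    lint_unitary n U hU F hF, ← mul_assoc, ← ENNReal.ofReal_mul (by positivity)]
  have hp : (∏ k, (1 + lam k)) ^ 2 * (∏ k, (1 / (1 + lam k))) ^ 2 = 1 := by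
    rw [← mul_pow, ← Finset.prod_mul_distrib]
    rw [Finset.prod_congr rfl (g := fun _ => (1:ℝ)) fun k _ => by
      have := hlam k
      have h : (1:ℝ) + lam k ≠ 0 := by linarith
      field_simp]
    simp
  rw [hp, ENNReal.ofReal_one, one_mul]

end CholB
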