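import Pool.Agent.Lib.MP_6947cd_al.B.CV
import Pool.Agent.Lib.MP_f1e3b4_an.Prob

/-!
Module COL of Theorem S (problem MP_6947cd_al): the two-colour lower bound.
-/

set_option autoImplicit false

open MeasureTheory ProbabilityTheory Set Matrix
open scoped ENNReal ComplexConjugate ComplexOrder

namespace CholB

open MPf1e3 (cg G GM nsq)

namespace ColM

/-- the two colours are independent -/
theorem two_col (n : ℕ) (F0 F1 : (Fin n → ℂ) → ℝ≥0∞) (h0 : Measurable F0) (h1 : Measurable F1) :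
    ∫⁻ g, F0 (fun u => g u 0) * F1 (fun u => g u 1) ∂(GM n 2)
      = (∫⁻ a, F0 a ∂(G n)) * ∫⁻ a, F1 a ∂(G n) := by
  have hm : Measurable (fun (g : Fin n → Fin 2 → ℂ) c i => g i c) := by fun_prop
  have hF : Measurable fun h : Fin 2 → Fin n → ℂ => F0 (h 0) * F1 (h 1) :=
    (h0.comp (measurable_pi_apply 0)).mul (h1.comp (measurable_pi_apply 1))
  have e1 : ∫⁻ g, F0 (fun u => g u 0) * F1 (fun u => g u 1) ∂(GM n 2)
      = ∫⁻ h, F0 (h 0) * F1 (h 1) ∂(GM 2 n) := by
    rw [← CVM.swap_map n 2, lintegral_map hF hm]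
  rw [e1]
  have e2 : ∀ h : Fin 2 → Fin n → ℂ, F0 (h 0) * F1 (h 1) = ∏ c : Fin 2, (![F0, F1] c) (h c) := by
    intro h
    rw [Fin.prod_univ_two]
    rfl
  simp_rw [e2]
  unfold GM
  rw [MPf1e3.ProbM.lintegral_pi_prod 2 (fun _ => G n) (fun c => ![F0, F1] c) (by
    intro i
    fin_cases i
    · exact h0
    · exact h1), Fin.prod_univ_two]
  rfl

/-- weights -/
noncomputable def cw (t : ℝ) (k : Fin 3) : ℝ := if k = 0 then 1 - t else t / 2

theorem cw_nonneg (t : ℝ) (h0 : 0 ≤ t) (h1 : t ≤ 1) (k : Fin 3) : 0 ≤ cw t k := by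
  unfold cw
  split_ifs <;> linarith

theorem sum_cw (t : ℝ) : ∑ k, cw t k = 1 := by
  rw [Fin.sum_univ_three]
  unfold cw
  simp
  ring

end ColM

/-- Module COL -/
theorem specCol (hL : SpecLieb) (hW : SpecWick) : SpecCol := by
  classical
  intro n V θ hθ hd
  set A : Matrix (Fin n) (Fin n) ℂ := V * Vᴴ with hA
  have hpsd : A.PosSemidef := Matrix.posSemidef_self_mul_conjTranspose V
  set q : (Fin n → ℂ) → Fin n → ℝ := fun a i => ‖∑ u, V i u * a u‖ ^ 2 / 2 with hq
  have hq0 : ∀ a i, 0 ≤ q a i := fun a i => by simp only [hq]; positivity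
  have hqm : ∀ i, Measurable fun a => q a i := fun i => by
    simp only [hq]; fun_prop
  have h1 : ∀ g : Fin n → Fin 2 → ℂ, ∏ i, li (θ i) (act V g i)
      = ∑ κ : Fin n → Fin 3, (∏ i, ColM.cw (θ i) (κ i)) *
        ((∏ i ∈ Finset.univ.filter (fun i => κ i = 1), q (fun u => g u 0) i) *
          ∏ i ∈ Finset.univ.filter (fun i => κ i = 2), q (fun u => g u 1) i) := by
    intro g
    have h2 : ∀ i, li (θ i) (act V g i) = ∑ k : Fin 3, ColM.cw (θ i) k *
        ((if k = 1 then q (fun u => g u 0) i else 1) *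
          (if k = 2 then q (fun u => g u 1) i else 1)) := by
      intro i
      rw [Fin.sum_univ_three]
      unfold li nsq ColM.cw act
      rw [Fin.sum_univ_two]
      simp [hq]
      ring
    simp_rw [h2]
    rw [Finset.prod_univ_sum]
    simp only [Fintype.piFinset_univ]
    refine Finset.sum_congr rfl fun κ _ => ?_
    rw [Finset.prod_mul_distrib, Finset.prod_mul_distrib, Finset.prod_filter, Finset.prod_filter]
  have h3 : ∀ κ : Fin n → Fin 3, 0 ≤ ∏ i, ColM.cw (θ i) (κ i) := fun κ =>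
    Finset.prod_nonneg fun i _ => ColM.cw_nonneg _ (hθ i).1 (hθ i).2 _
  have h4 : ∑ κ : Fin n → Fin 3, ∏ i, ColM.cw (θ i) (κ i) = 1 := by
    have h5 : ∏ i, ∑ k : Fin 3, ColM.cw (θ i) k
        = ∑ κ : Fin n → Fin 3, ∏ i, ColM.cw (θ i) (κ i) := by
      rw [Finset.prod_univ_sum]
      simp
    rw [← h5]
    simp [ColM.sum_cw]
  have hm : ∀ (K : Finset (Fin n)), Measurable fun a : Fin n → ℂ =>
      ENNReal.ofReal (∏ i ∈ K, q a i) := fun K =>
    (Finset.measurable_fun_prod _ fun i _ => hqm i).ennreal_ofReal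
  have h6 : ∀ g : Fin n → Fin 2 → ℂ, ENNReal.ofReal (∏ i, li (θ i) (act V g i))
      = ∑ κ : Fin n → Fin 3, ENNReal.ofReal (∏ i, ColM.cw (θ i) (κ i)) *
        (ENNReal.ofReal (∏ i ∈ Finset.univ.filter (fun i => κ i = 1), q (fun u => g u 0) i) *
          ENNReal.ofReal (∏ i ∈ Finset.univ.filter (fun i => κ i = 2), q (fun u => g u 1) i)) := by
    intro g
    have hp : ∀ (K : Finset (Fin n)) (a : Fin n → ℂ), 0 ≤ ∏ i ∈ K, q a i := fun K a =>
      Finset.prod_nonneg fun i _ => hq0 a i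
    rw [h1, ENNReal.ofReal_sum_of_nonneg fun κ _ =>
      mul_nonneg (h3 κ) (mul_nonneg (hp _ _) (hp _ _))]
    refine Finset.sum_congr rfl fun κ _ => ?_
    rw [ENNReal.ofReal_mul (h3 κ), ENNReal.ofReal_mul (hp _ _)]
  simp_rw [h6]
  have hmg : ∀ (c : Fin 2), Measurable fun g : Fin n → Fin 2 → ℂ => fun u => g u c := fun c => by
    fun_prop
  have hmm : ∀ κ : Fin n → Fin 3, Measurable fun g : Fin n → Fin 2 → ℂ =>
      ENNReal.ofReal (∏ i ∈ Finset.univ.filter (fun i => κ i = 1), q (fun u => g u 0) i) *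
          ENNReal.ofReal (∏ i ∈ Finset.univ.filter (fun i => κ i = 2), q (fun u => g u 1) i) :=
    fun κ => ((hm _).comp (hmg 0)).mul ((hm _).comp (hmg 1))
  rw [lintegral_finsetSum _ fun κ _ => (hmm κ).const_mul _]
  have h7 : ∀ κ : Fin n → Fin 3, ∫⁻ g, ENNReal.ofReal (∏ i, ColM.cw (θ i) (κ i)) *
        (ENNReal.ofReal (∏ i ∈ Finset.univ.filter (fun i => κ i = 1), q (fun u => g u 0) i) *
          ENNReal.ofReal (∏ i ∈ Finset.univ.filter (fun i => κ i = 2), q (fun u => g u 1) i))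
        ∂(GM n 2) ≤ ENNReal.ofReal (∏ i, ColM.cw (θ i) (κ i)) * ENNReal.ofReal A.permanent.re := by
    intro κ
    rw [lintegral_const_mul _ (hmm κ)]
    refine mul_le_mul_right ?_ _
    have h8 := ColM.two_col n
      (fun a => ENNReal.ofReal (∏ i ∈ Finset.univ.filter (fun i => κ i = 1), q a i))
      (fun a => ENNReal.ofReal (∏ i ∈ Finset.univ.filter (fun i => κ i = 2), q a i)) (hm _) (hm _)
    rw [h8, hW n V, hW n V]
    have hdis : Disjoint (Finset.univ.filter (fun i => κ i = 1))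
        (Finset.univ.filter (fun i => κ i = 2)) := by
      rw [Finset.disjoint_filter]
      intro i _ h9 h10
      rw [h9] at h10
      exact absurd h10 (by decide)
    have h11 := (hL n A hpsd hd).2 _ _ hdis
    rcases le_or_gt 0 (A.submatrix (fun i : Finset.univ.filter (fun i => κ i = 1) => (i : Fin n))
      (fun i : Finset.univ.filter (fun i => κ i = 1) => (i : Fin n))).permanent.re with h12 | h12
    · rw [← ENNReal.ofReal_mul h12]
      exact ENNReal.ofReal_le_ofReal h11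
    · rw [ENNReal.ofReal_of_nonpos h12.le, zero_mul]
      exact zero_le
  refine le_trans (Finset.sum_le_sum fun κ _ => h7 κ) ?_
  rw [← Finset.sum_mul, ← ENNReal.ofReal_sum_of_nonneg fun κ _ => h3 κ, h4, ENNReal.ofReal_one,
    one_mul]

end CholB
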