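import Pool.Agent.Lib.MP_6947cd_al.B.Conc2

/-!
Module CONC of Theorem S (problem MP_6947cd_al).
-/

set_option autoImplicit false

open MeasureTheory ProbabilityTheory Set Matrix Filter Topology
open scoped ENNReal ComplexConjugate ComplexOrder

namespace CholB
namespace ConcM

open MPf1e3 (cg G GM nsq)
open Conc1

/-- `log ((a + y)/a)` as a Laplace integral -/
lemma log_rep (a y : ℝ) (ha : 0 < a) (hy : 0 ≤ y) :
    ENNReal.ofReal (Real.log ((a + y) / a))
      = ∫⁻ u in Ioi (0 : ℝ), ENNReal.ofReal (Real.exp (-a * u) * ((1 - Real.exp (-u * y)) / u)) := by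
  have h1 : ∀ u ∈ Ioi (0 : ℝ), ENNReal.ofReal (Real.exp (-a * u) * ((1 - Real.exp (-u * y)) / u))
      = ∫⁻ v in Ioc 0 y, ENNReal.ofReal (Real.exp (-(a + v) * u)) := by
    intro u hu
    have hu' : (0 : ℝ) < u := hu
    have hint : IntervalIntegrable (fun v : ℝ => Real.exp (-(a + v) * u)) volume 0 y :=
      (by fun_prop : Continuous fun v : ℝ => Real.exp (-(a + v) * u)).intervalIntegrable _ _
    have hval : ∫ v in (0 : ℝ)..y, Real.exp (-(a + v) * u)
        = Real.exp (-a * u) * ((1 - Real.exp (-u * y)) / u) := by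
      have hd : ∀ v ∈ uIcc 0 y, HasDerivAt (fun v : ℝ => -(Real.exp (-(a + v) * u) / u))
          (Real.exp (-(a + v) * u)) v := by
        intro v _
        have h2 : HasDerivAt (fun v : ℝ => -(a + v) * u) (-1 * u) v :=
          (((hasDerivAt_id v).const_add a).neg).mul_const u
        have h3 := (h2.exp.div_const u).neg
        refine h3.congr_deriv ?_
        field_simp
      rw [intervalIntegral.integral_eq_sub_of_hasDerivAt hd hint]
      have e1 : Real.exp (-(a + y) * u) = Real.exp (-a * u) * Real.exp (-u * y) := by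
        rw [← Real.exp_add]; congr 1; ring
      have e2 : Real.exp (-(a + 0) * u) = Real.exp (-a * u) := by congr 1; ring
      rw [e1, e2]
      field_simp
      ring
    rw [← hval, intervalIntegral.integral_of_le hy,
      ← ofReal_integral_eq_lintegral_ofReal ((intervalIntegrable_iff_integrableOn_Ioc_of_le hy).1 hint)
        (Eventually.of_forall fun v => (Real.exp_pos _).le)]
  rw [setLIntegral_congr_fun measurableSet_Ioi h1]
  rw [lintegral_lintegral_swap (by
    refine Measurable.aemeasurable ?_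
    show Measurable fun p : ℝ × ℝ => ENNReal.ofReal (Real.exp (-(a + p.2) * p.1))
    fun_prop)]
  have h2 : ∀ v ∈ Ioc 0 y, ∫⁻ u in Ioi (0 : ℝ), ENNReal.ofReal (Real.exp (-(a + v) * u))
      = ENNReal.ofReal (1 / (a + v)) := by
    intro v hv
    have hav : 0 < a + v := by linarith [hv.1]
    have hi : IntegrableOn (fun u : ℝ => Real.exp (-(a + v) * u)) (Ioi 0) :=
      int_exp hav
    rw [← ofReal_integral_eq_lintegral_ofReal hi (Eventually.of_forall fun v => (Real.exp_pos _).le)]
    congr 1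
    have := integral_exp_mul_Ioi (a := -(a + v)) (by linarith) 0
    rw [this, mul_zero, Real.exp_zero, neg_div_neg_eq]
  rw [setLIntegral_congr_fun measurableSet_Ioc h2]
  have hint2 : IntervalIntegrable (fun v : ℝ => 1 / (a + v)) volume 0 y := by
    refine ContinuousOn.intervalIntegrable ?_
    rw [uIcc_of_le hy]
    intro v hv
    have : a + v ≠ 0 := by linarith [hv.1]
    exact (ContinuousAt.div (by fun_prop) (by fun_prop) this).continuousWithinAt
  rw [← ofReal_integral_eq_lintegral_ofReal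
    ((intervalIntegrable_iff_integrableOn_Ioc_of_le hy).1 hint2)
    ((ae_restrict_iff' measurableSet_Ioc).2 (Eventually.of_forall fun v hv => by
      have : 0 < a + v := by linarith [hv.1]
      show 0 ≤ 1 / (a + v)
      positivity))]
  congr 1
  rw [← intervalIntegral.integral_of_le hy]
  have hd : ∀ v ∈ uIcc 0 y, HasDerivAt (fun v : ℝ => Real.log (a + v)) (1 / (a + v)) v := by
    intro v hv
    rw [uIcc_of_le hy] at hv
    have : a + v ≠ 0 := by linarith [hv.1]
    exact ((hasDerivAt_id v).const_add a).log this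
  rw [intervalIntegral.integral_eq_sub_of_hasDerivAt hd hint2, add_zero,
    Real.log_div (by positivity) ha.ne']

/-- expectation of `log ((a+Y)/a)` through the Laplace transform of `Y` -/
lemma log_lap {Ω : Type} [MeasurableSpace Ω] (μ : Measure Ω) [IsProbabilityMeasure μ]
    (Y : Ω → ℝ) (hY : Measurable Y) (h0 : ∀ ω, 0 ≤ Y ω) (a : ℝ) (ha : 0 < a)
    (L : ℝ → ℝ) (hL : ∀ u, 0 < u → ∫ ω, Real.exp (-u * Y ω) ∂μ = L u)
    (hi : Integrable (fun u => Real.exp (-a * u) * ((1 - L u) / u)) (volume.restrict (Ioi 0))) :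
    ∫ ω, Real.log ((a + Y ω) / a) ∂μ
      = ∫ u in Ioi (0 : ℝ), Real.exp (-a * u) * ((1 - L u) / u) := by
  have hn : ∀ ω, 0 ≤ Real.log ((a + Y ω) / a) := by
    intro ω
    apply Real.log_nonneg
    rw [le_div_iff₀ ha]
    linarith [h0 ω]
  rw [integral_eq_lintegral_of_nonneg_ae (Eventually.of_forall hn)
    (((hY.const_add a).div_const a).log).aestronglyMeasurable]
  simp_rw [fun ω => log_rep a (Y ω) ha (h0 ω)]
  rw [lintegral_lintegral_swap (by
    refine Measurable.aemeasurable ?_
    show Measurable fun p : Ω × ℝ => ENNReal.ofReal (Real.exp (-a * p.2) *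
      ((1 - Real.exp (-p.2 * Y p.1)) / p.2))
    fun_prop)]
  have h1 : ∀ u ∈ Ioi (0 : ℝ), ∫⁻ ω, ENNReal.ofReal (Real.exp (-a * u) *
      ((1 - Real.exp (-u * Y ω)) / u)) ∂μ = ENNReal.ofReal (Real.exp (-a * u) * ((1 - L u) / u)) := by
    intro u hu
    have hu' : (0 : ℝ) < u := hu
    have hb : ∀ ω, Real.exp (-u * Y ω) ≤ 1 := by
      intro ω
      apply Real.exp_le_one_iff.2
      have := mul_nonneg hu'.le (h0 ω)
      linarith
    have hint : Integrable (fun ω => Real.exp (-u * Y ω)) μ := by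
      refine Integrable.mono' (integrable_const (1 : ℝ)) (by fun_prop) ?_
      refine Eventually.of_forall fun ω => ?_
      rw [Real.norm_eq_abs, abs_of_pos (Real.exp_pos _)]
      exact hb ω
    have hint' : Integrable (fun ω => Real.exp (-a * u) * ((1 - Real.exp (-u * Y ω)) / u)) μ :=
      (((integrable_const (1 : ℝ)).sub hint).div_const u).const_mul _
    rw [← ofReal_integral_eq_lintegral_ofReal hint'
      (Eventually.of_forall fun ω => by
        have : 0 ≤ 1 - Real.exp (-u * Y ω) := by linarith [hb ω]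
        show 0 ≤ Real.exp (-a * u) * ((1 - Real.exp (-u * Y ω)) / u)
        positivity)]
    congr 1
    rw [integral_const_mul, integral_div, integral_sub (integrable_const _) hint, hL u hu']
    simp
  rw [setLIntegral_congr_fun measurableSet_Ioi h1]
  have hLb : ∀ u, 0 < u → L u ≤ 1 := by
    intro u hu
    rw [← hL u hu]
    have : ∫ ω, Real.exp (-u * Y ω) ∂μ ≤ ∫ _ω, (1 : ℝ) ∂μ := by
      refine integral_mono_of_nonneg (Eventually.of_forall fun _ => (Real.exp_pos _).le)
        (integrable_const _) (Eventually.of_forall fun ω => ?_)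
      apply Real.exp_le_one_iff.2
      have := mul_nonneg hu.le (h0 ω)
      linarith
    simpa using this
  have hn2 : 0 ≤ᵐ[volume.restrict (Ioi 0)] fun u => Real.exp (-a * u) * ((1 - L u) / u) := by
    refine (ae_restrict_iff' measurableSet_Ioi).2 (Eventually.of_forall fun u hu => ?_)
    have hu' : (0 : ℝ) < u := hu
    have : 0 ≤ 1 - L u := by linarith [hLb u hu']
    show 0 ≤ Real.exp (-a * u) * ((1 - L u) / u)
    positivity
  rw [← ofReal_integral_eq_lintegral_ofReal hi hn2, ENNReal.toReal_ofReal (integral_nonneg_of_ae hn2)]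

/-- integrability of the logarithm from the Laplace side -/
lemma log_lap_int {Ω : Type} [MeasurableSpace Ω] (μ : Measure Ω) [IsProbabilityMeasure μ]
    (Y : Ω → ℝ) (hY : Measurable Y) (h0 : ∀ ω, 0 ≤ Y ω) (hYi : Integrable Y μ) (a : ℝ)
    (ha : 0 < a) : Integrable (fun ω => Real.log ((a + Y ω) / a)) μ := by
  refine Integrable.mono' (hYi.div_const a)
    (((hY.const_add a).div_const a).log).aestronglyMeasurable (Eventually.of_forall fun ω => ?_)
  have h1 : 0 ≤ Y ω / a := div_nonneg (h0 ω) ha.le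
  have h2 : (a + Y ω) / a = 1 + Y ω / a := by field_simp
  rw [h2, Real.norm_eq_abs, abs_of_nonneg (Real.log_nonneg (by linarith))]
  have := Real.log_le_sub_one_of_pos (by linarith : 0 < 1 + Y ω / a)
  linarith

lemma conc_one (a t : ℝ) (x : Fin 2 → ℂ) (d : ℂ) (ha : 0 < a) (h0 : 0 ≤ t) (h1 : t ≤ 1) :
    ∫ y, Real.log ((a + nsq (fun c => x c + d * y c) / 2) / a) ∂(G 2)
      ≤ ∫ y, Real.log ((a + nsq (fun c => x c + d * y c) / 2) / a) ∂(bm t) := by
  have hpG : IsProbabilityMeasure (G 2) := SpeM.prob_G2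
  have hpB : IsProbabilityMeasure (bm t) := specBM.prob t h0 h1
  have mn := Bm0.meas_nsq (n := 2)
  have mn2 : Measurable fun y : Fin 2 → ℂ => nsq (fun c => x c + d * y c) := mn.comp (by fun_prop)
  have hX : 0 ≤ nsq x / 2 := by
    have := Bm0.nsq_nonneg x
    positivity
  have hc : 0 < 1 + t / 2 := by linarith
  rcases eq_or_ne d 0 with rfl | hd
  · simp
  have hs : 0 < ‖d‖ ^ 2 := by
    have := norm_pos_iff.2 hd
    positivity
  have hs' : 0 < ‖d‖ ^ 2 / (1 + t / 2) := by positivity
  have hss : ‖d‖ ^ 2 / (1 + t / 2) ≤ ‖d‖ ^ 2 := by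
    rw [div_le_iff₀ hc]
    nlinarith
  have hYn : ∀ y : Fin 2 → ℂ, 0 ≤ nsq (fun c => x c + d * y c) / 2 := fun y => by
    have := Bm0.nsq_nonneg (fun c => x c + d * y c)
    positivity
  have i1 := int_J ha hX hs.le
  have i2 := int_J ha hX hs'.le
  have i3 := int_J1 ha hX hs'.le
  have e1 : ∫ y, Real.log ((a + nsq (fun c => x c + d * y c) / 2) / a) ∂(G 2)
      = -Conc1.J a (nsq x / 2) (‖d‖ ^ 2) := by
    have hi : Integrable (fun u => Real.exp (-a * u) * ((1 - ph (nsq x / 2) (‖d‖ ^ 2) u) / u))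
        (volume.restrict (Ioi 0)) := by
      refine i1.neg.congr (Eventually.of_forall fun u => ?_)
      simp only [Pi.neg_apply]; ring
    rw [log_lap (G 2) (fun y => nsq (fun c => x c + d * y c) / 2) (by fun_prop) hYn a ha
      (fun u => ph (nsq x / 2) (‖d‖ ^ 2) u) (fun u hu => lapG u hu.le x d) hi]
    unfold Conc1.J
    rw [← integral_neg]
    refine integral_congr_ae (Eventually.of_forall fun u => ?_)
    simp only
    ring
  have e2 : ∫ y, Real.log ((a + nsq (fun c => x c + d * y c) / 2) / a) ∂(bm t)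
      = -(Conc1.J a (nsq x / 2) (‖d‖ ^ 2 / (1 + t / 2))
        + (‖d‖ ^ 2 - ‖d‖ ^ 2 / (1 + t / 2)) * J1 a (nsq x / 2) (‖d‖ ^ 2 / (1 + t / 2))) := by
    have hsum := (i2.add (i3.const_mul (‖d‖ ^ 2 - ‖d‖ ^ 2 / (1 + t / 2)))).neg
    have hi : Integrable (fun u => Real.exp (-a * u) * ((1 -
        (ph (nsq x / 2) (‖d‖ ^ 2 / (1 + t / 2)) u
        + (‖d‖ ^ 2 - ‖d‖ ^ 2 / (1 + t / 2)) * ph1 (nsq x / 2) (‖d‖ ^ 2 / (1 + t / 2)) u)) / u))
        (volume.restrict (Ioi 0)) := by
      refine hsum.congr (Eventually.of_forall fun u => ?_)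
      simp only [Pi.neg_apply, Pi.add_apply]; ring
    rw [log_lap (bm t) (fun y => nsq (fun c => x c + d * y c) / 2) (by fun_prop) hYn a ha
      (fun u => ph (nsq x / 2) (‖d‖ ^ 2 / (1 + t / 2)) u
        + (‖d‖ ^ 2 - ‖d‖ ^ 2 / (1 + t / 2)) * ph1 (nsq x / 2) (‖d‖ ^ 2 / (1 + t / 2)) u)
      (fun u hu => lapB t h0 h1 u hu.le x d) hi]
    unfold Conc1.J J1
    rw [← integral_const_mul, ← integral_add i2 (i3.const_mul _), ← integral_neg]
    refine integral_congr_ae (Eventually.of_forall fun u => ?_)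
    simp only
    ring
  rw [e1, e2]
  have := core ha hX hs' hss
  linarith

end ConcM

open ConcM in
theorem specConc : SpecConc := by
  intro a b t x d ha hb h0 h1
  have hpG : IsProbabilityMeasure (MPf1e3.G 2) := SpeM.prob_G2
  have hpB : IsProbabilityMeasure (bm t) := specBM.prob t h0 h1
  have mn := Bm0.meas_nsq (n := 2)
  have mn2 : Measurable fun y : Fin 2 → ℂ => MPf1e3.nsq (fun c => x c + d * y c) :=
    mn.comp (by fun_prop)
  rcases eq_or_lt_of_le hb with rfl | hb
  · simp
  have hab : 0 < a / b := by positivity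
  have key := conc_one (a / b) t x d hab h0 h1
  have e : ∀ y : Fin 2 → ℂ, Real.log (a + b * (MPf1e3.nsq (fun c => x c + d * y c) / 2))
      = Real.log a + Real.log ((a / b + MPf1e3.nsq (fun c => x c + d * y c) / 2) / (a / b)) := by
    intro y
    have hn := Bm0.nsq_nonneg (fun c => x c + d * y c)
    rw [← Real.log_mul ha.ne' (by positivity)]
    congr 1
    field_simp
  simp_rw [e]
  have hYn : ∀ y : Fin 2 → ℂ, 0 ≤ MPf1e3.nsq (fun c => x c + d * y c) / 2 := fun y => by
    have := Bm0.nsq_nonneg (fun c => x c + d * y c)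
    positivity
  have bound : ∀ y : Fin 2 → ℂ, MPf1e3.nsq (fun c => x c + d * y c) / 2
      ≤ MPf1e3.nsq x + ‖d‖ ^ 2 * MPf1e3.nsq y := by
    intro y
    unfold MPf1e3.nsq
    rw [Finset.mul_sum, ← Finset.sum_add_distrib, Finset.sum_div]
    refine Finset.sum_le_sum fun c _ => ?_
    have h1 := norm_add_le (x c) (d * y c)
    rw [norm_mul] at h1
    have h2 : ‖x c + d * y c‖ ^ 2 ≤ (‖x c‖ + ‖d‖ * ‖y c‖) ^ 2 :=
      pow_le_pow_left₀ (norm_nonneg _) h1 2
    nlinarith [sq_nonneg (‖x c‖ - ‖d‖ * ‖y c‖)]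
  have iG : Integrable (fun y : Fin 2 → ℂ => MPf1e3.nsq (fun c => x c + d * y c) / 2)
      (MPf1e3.G 2) := by
    refine Integrable.mono' ((integrable_const (MPf1e3.nsq x)).add
      (SpeM.nsq_intG.const_mul (‖d‖ ^ 2))) (mn2.div_const 2).aestronglyMeasurable
      (Eventually.of_forall fun y => ?_)
    rw [Real.norm_eq_abs, abs_of_nonneg (hYn y)]
    exact bound y
  have iB : Integrable (fun y : Fin 2 → ℂ => MPf1e3.nsq (fun c => x c + d * y c) / 2)
      (bm t) := by
    refine Integrable.mono' ((integrable_const (MPf1e3.nsq x)).add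
      ((specBM.int_nsq t h0 h1).const_mul (‖d‖ ^ 2))) (mn2.div_const 2).aestronglyMeasurable
      (Eventually.of_forall fun y => ?_)
    rw [Real.norm_eq_abs, abs_of_nonneg (hYn y)]
    exact bound y
  rw [integral_add (integrable_const _) (log_lap_int _ _ (by fun_prop) hYn iG _ hab),
    integral_add (integrable_const _) (log_lap_int _ _ (by fun_prop) hYn iB _ hab)]
  simp only [integral_const, probReal_univ, one_smul]
  linarith

end CholB
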