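import Mathlib

/-!
The core inequality behind the concavity statement CONC (problem MP_6947cd_al).
-/

set_option autoImplicit false

open MeasureTheory Set Filter Topology

namespace CholB
namespace Conc1

/-- `w = 1/(1 + s u)` -/
noncomputable def w (s u : ℝ) : ℝ := (1 + s * u)⁻¹
/-- the exponential factor `exp (- u w X)` -/
noncomputable def ex (X s u : ℝ) : ℝ := Real.exp (-(u * w s u * X))
/-- the Laplace transform -/
noncomputable def ph (X s u : ℝ) : ℝ := w s u ^ 2 * ex X s u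
/-- its `s`-derivative -/
noncomputable def ph1 (X s u : ℝ) : ℝ := u * (-2 * w s u ^ 3 + u * X * w s u ^ 4) * ex X s u
/-- its second `s`-derivative -/
noncomputable def ph2 (X s u : ℝ) : ℝ :=
  u ^ 2 * w s u ^ 4 * (6 - 6 * (u * w s u * X) + (u * w s u * X) ^ 2) * ex X s u

lemma hasDerivAt_w (s u : ℝ) (h : 1 + s * u ≠ 0) :
    HasDerivAt (fun s => w s u) (-u * w s u ^ 2) s := by
  unfold w
  have h1 : HasDerivAt (fun s : ℝ => 1 + s * u) u s := by
    simpa using ((hasDerivAt_id s).mul_const u).const_add 1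
  have h2 := h1.inv h
  refine h2.congr_deriv ?_
  field_simp

lemma hasDerivAt_wu (s u : ℝ) (h : 1 + s * u ≠ 0) :
    HasDerivAt (fun u => w s u) (-s * w s u ^ 2) u := by
  unfold w
  have h1 : HasDerivAt (fun u : ℝ => 1 + s * u) s u := by
    simpa using ((hasDerivAt_id u).const_mul s).const_add 1
  have h2 := h1.inv h
  refine h2.congr_deriv ?_
  field_simp

lemma hasDerivAt_ex (X s u : ℝ) (h : 1 + s * u ≠ 0) :
    HasDerivAt (fun s => ex X s u) (u ^ 2 * X * w s u ^ 2 * ex X s u) s := by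
  unfold ex
  have h1 := (((hasDerivAt_w s u h).const_mul u).mul_const X).neg
  have h2 := h1.exp
  refine h2.congr_deriv ?_
  show Real.exp (-(u * w s u * X)) * -(u * (-u * w s u ^ 2) * X) = _
  ring

lemma hasDerivAt_ph (X s u : ℝ) (h : 1 + s * u ≠ 0) :
    HasDerivAt (fun s => ph X s u) (ph1 X s u) s := by
  unfold ph ph1
  have h1 := ((hasDerivAt_w s u h).pow 2).mul (hasDerivAt_ex X s u h)
  refine h1.congr_deriv ?_
  show ((2 : ℕ) : ℝ) * w s u ^ (2 - 1) * (-u * w s u ^ 2) * ex X s u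
    + w s u ^ 2 * (u ^ 2 * X * w s u ^ 2 * ex X s u) = _
  push_cast
  ring

lemma hasDerivAt_ph1 (X s u : ℝ) (h : 1 + s * u ≠ 0) :
    HasDerivAt (fun s => ph1 X s u) (ph2 X s u) s := by
  unfold ph1 ph2
  have hw := hasDerivAt_w s u h
  have h3 := ((hw.pow 3).const_mul (-2)).add ((hw.pow 4).const_mul (u * X))
  have h1 := (h3.const_mul u).mul (hasDerivAt_ex X s u h)
  refine h1.congr_deriv ?_
  show u * (-2 * (((3 : ℕ) : ℝ) * w s u ^ (3 - 1) * (-u * w s u ^ 2))
      + u * X * (((4 : ℕ) : ℝ) * w s u ^ (4 - 1) * (-u * w s u ^ 2))) * ex X s u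
    + u * (-2 * w s u ^ 3 + u * X * w s u ^ 4) * (u ^ 2 * X * w s u ^ 2 * ex X s u) = _
  push_cast
  ring

section bounds
variable {X s u : ℝ}

lemma w_pos (hs : 0 ≤ s) (hu : 0 ≤ u) : 0 < w s u := by
  unfold w
  have := mul_nonneg hs hu
  positivity

lemma w_le (hs : 0 ≤ s) (hu : 0 ≤ u) : w s u ≤ 1 := by
  unfold w
  have := mul_nonneg hs hu
  exact inv_le_one_of_one_le₀ (by linarith)

lemma ex_pos : 0 < ex X s u := Real.exp_pos _

lemma mul_exp_neg_le (y : ℝ) : y * Real.exp (-y) ≤ 1 := by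
  rw [Real.exp_neg, ← div_eq_mul_inv, div_le_one (Real.exp_pos _)]
  have := Real.add_one_le_exp y
  linarith

lemma sq_mul_exp_neg_le (y : ℝ) (hy : 0 ≤ y) : y ^ 2 * Real.exp (-y) ≤ 2 := by
  rw [Real.exp_neg, ← div_eq_mul_inv, div_le_iff₀ (Real.exp_pos _)]
  have := Real.quadratic_le_exp_of_nonneg hy
  nlinarith

lemma ex_le (hX : 0 ≤ X) (hs : 0 ≤ s) (hu : 0 ≤ u) : ex X s u ≤ 1 := by
  unfold ex
  have h1 := w_pos hs hu
  apply Real.exp_le_one_iff.2
  have : 0 ≤ u * w s u * X := by positivity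
  linarith

lemma ph_nonneg (hs : 0 ≤ s) (hu : 0 ≤ u) : 0 ≤ ph X s u := by
  unfold ph
  have := w_pos hs hu
  have := ex_pos (X := X) (s := s) (u := u)
  positivity

lemma ph_le (hX : 0 ≤ X) (hs : 0 ≤ s) (hu : 0 ≤ u) : ph X s u ≤ 1 := by
  unfold ph
  have h1 := w_pos hs hu
  have h2 := w_le hs hu
  have h3 := ex_le hX hs hu
  have h4 : w s u ^ 2 ≤ 1 := pow_le_one₀ h1.le h2
  calc w s u ^ 2 * ex X s u ≤ 1 * 1 := by
        apply mul_le_mul h4 h3 ex_pos.le (by norm_num)
    _ = 1 := by norm_num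

lemma abs_ph1_div_le (hX : 0 ≤ X) (hs : 0 ≤ s) (hu : 0 < u) : |ph1 X s u / u| ≤ 3 := by
  have h1 := w_pos hs hu.le
  have h2 := w_le hs hu.le
  have h3 := ex_le hX hs hu.le
  have h4 := ex_pos (X := X) (s := s) (u := u)
  have e : ph1 X s u / u = -2 * w s u ^ 3 * ex X s u
      + w s u ^ 3 * ((u * w s u * X) * Real.exp (-(u * w s u * X))) := by
    unfold ph1 ex
    field_simp
  rw [e]
  have hy : 0 ≤ u * w s u * X := by positivity
  have h5 := mul_exp_neg_le (u * w s u * X)
  have h6 : 0 ≤ (u * w s u * X) * Real.exp (-(u * w s u * X)) := by positivity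
  have h7 : w s u ^ 3 ≤ 1 := pow_le_one₀ h1.le h2
  have h8 : 0 ≤ w s u ^ 3 := by positivity
  have h9 : w s u ^ 3 * ex X s u ≤ 1 := by
    have := mul_le_mul h7 h3 h4.le (by norm_num : (0:ℝ) ≤ 1)
    linarith
  have h10 : w s u ^ 3 * ((u * w s u * X) * Real.exp (-(u * w s u * X))) ≤ 1 := by
    have := mul_le_mul h7 h5 h6 (by norm_num : (0:ℝ) ≤ 1)
    linarith
  have h11 : 0 ≤ w s u ^ 3 * ex X s u := by positivity
  have h12 : 0 ≤ w s u ^ 3 * ((u * w s u * X) * Real.exp (-(u * w s u * X))) := by positivity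
  rw [abs_le]
  constructor <;> nlinarith

lemma abs_ph2_div_le (hX : 0 ≤ X) (hs : 0 ≤ s) (hu : 0 < u) : |ph2 X s u / u| ≤ 14 * u := by
  have h1 := w_pos hs hu.le
  have h2 := w_le hs hu.le
  have h3 := ex_le hX hs hu.le
  have h4 := ex_pos (X := X) (s := s) (u := u)
  have hy : 0 ≤ u * w s u * X := by positivity
  have h5 := mul_exp_neg_le (u * w s u * X)
  have h6 := sq_mul_exp_neg_le _ hy
  have h7 : 0 ≤ (u * w s u * X) * Real.exp (-(u * w s u * X)) := by positivity
  have h8 : 0 ≤ (u * w s u * X) ^ 2 * Real.exp (-(u * w s u * X)) := by positivity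
  have h9 : w s u ^ 4 ≤ 1 := pow_le_one₀ h1.le h2
  have e : ph2 X s u / u = u * w s u ^ 4 * (6 * ex X s u
      - 6 * ((u * w s u * X) * Real.exp (-(u * w s u * X)))
      + (u * w s u * X) ^ 2 * Real.exp (-(u * w s u * X))) := by
    unfold ph2 ex
    field_simp
  rw [e, abs_mul]
  have h10 : |u * w s u ^ 4| ≤ u := by
    rw [abs_of_nonneg (by positivity)]
    nlinarith
  have h11 : |6 * ex X s u - 6 * ((u * w s u * X) * Real.exp (-(u * w s u * X)))
      + (u * w s u * X) ^ 2 * Real.exp (-(u * w s u * X))| ≤ 14 := by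
    rw [abs_le]
    constructor <;> nlinarith
  calc |u * w s u ^ 4| * _ ≤ u * 14 := by
        apply mul_le_mul h10 h11 (abs_nonneg _) hu.le
    _ = 14 * u := by ring

end bounds

section meas
variable (X s : ℝ)

lemma meas_w : Measurable (w s) := by unfold w; fun_prop
lemma meas_ex : Measurable (ex X s) := by
  unfold ex
  have := meas_w s
  fun_prop
lemma meas_ph : Measurable (ph X s) := by
  unfold ph
  have := meas_w s
  have := meas_ex X s
  fun_prop
lemma meas_ph1 : Measurable (ph1 X s) := by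
  unfold ph1
  have := meas_w s
  have := meas_ex X s
  fun_prop
lemma meas_ph2 : Measurable (ph2 X s) := by
  unfold ph2
  have := meas_w s
  have := meas_ex X s
  fun_prop
end meas

variable {a X : ℝ}

lemma int_exp (ha : 0 < a) : IntegrableOn (fun u : ℝ => Real.exp (-a * u)) (Ioi 0) := by
  have h : -a < 0 := by linarith
  exact integrableOn_exp_mul_Ioi h 0

lemma int_mul_exp (ha : 0 < a) : IntegrableOn (fun u : ℝ => u * Real.exp (-a * u)) (Ioi 0) := by
  have := integrableOn_rpow_mul_exp_neg_mul_rpow (s := 1) (p := 1) (b := a) (by norm_num)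
    (by norm_num) ha
  refine this.congr_fun (fun u hu => ?_) measurableSet_Ioi
  simp

lemma int_sq_exp (ha : 0 < a) : IntegrableOn (fun u : ℝ => u ^ 2 * Real.exp (-a * u)) (Ioi 0) := by
  have := integrableOn_rpow_mul_exp_neg_mul_rpow (s := 2) (p := 1) (b := a) (by norm_num)
    (by norm_num) ha
  refine this.congr_fun (fun u hu => ?_) measurableSet_Ioi
  simp

/-- `J` -/
noncomputable def J (a X s : ℝ) : ℝ := ∫ u in Ioi (0 : ℝ), Real.exp (-a * u) * ((ph X s u - 1) / u)
noncomputable def J1 (a X s : ℝ) : ℝ := ∫ u in Ioi (0 : ℝ), Real.exp (-a * u) * (ph1 X s u / u)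
noncomputable def J2 (a X s : ℝ) : ℝ := ∫ u in Ioi (0 : ℝ), Real.exp (-a * u) * (ph2 X s u / u)

lemma hasDerivAt_J1 (ha : 0 < a) (hX : 0 ≤ X) {s : ℝ} (hs : 0 < s) :
    HasDerivAt (fun s => J1 a X s) (J2 a X s) s := by
  have hb : Integrable (fun u : ℝ => Real.exp (-a * u) * (14 * u)) (volume.restrict (Ioi 0)) := by
    refine ((int_mul_exp ha).const_mul 14).congr (Eventually.of_forall fun u => ?_)
    simp only; ring
  have key := hasDerivAt_integral_of_dominated_loc_of_deriv_le
    (μ := volume.restrict (Ioi (0 : ℝ)))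
    (F := fun s u => Real.exp (-a * u) * (ph1 X s u / u))
    (F' := fun s u => Real.exp (-a * u) * (ph2 X s u / u))
    (x₀ := s) (s := Ioi 0) (bound := fun u => Real.exp (-a * u) * (14 * u))
    (Ioi_mem_nhds hs)
    (Eventually.of_forall fun s => by
      have := meas_ph1 X s
      exact (by fun_prop : Measurable fun u : ℝ => Real.exp (-a * u) * (ph1 X s u / u)).aestronglyMeasurable)
    (by
      have hm := meas_ph1 X s
      refine Integrable.mono' (g := fun u => Real.exp (-a * u) * 3) ((int_exp ha).mul_const 3)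
        (by fun_prop) ?_
      refine (ae_restrict_iff' measurableSet_Ioi).2 (Eventually.of_forall fun u hu => ?_)
      rw [norm_mul, Real.norm_eq_abs, Real.norm_eq_abs, abs_of_pos (Real.exp_pos _)]
      exact mul_le_mul_of_nonneg_left (abs_ph1_div_le hX hs.le hu) (Real.exp_pos _).le)
    (by
      have := meas_ph2 X s
      exact (by fun_prop : Measurable fun u : ℝ => Real.exp (-a * u) * (ph2 X s u / u)).aestronglyMeasurable)
    (by
      refine (ae_restrict_iff' measurableSet_Ioi).2 (Eventually.of_forall fun u hu s hs => ?_)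
      rw [norm_mul, Real.norm_eq_abs, Real.norm_eq_abs, abs_of_pos (Real.exp_pos _)]
      exact mul_le_mul_of_nonneg_left (abs_ph2_div_le hX (le_of_lt hs) hu) (Real.exp_pos _).le)
    hb
    (by
      refine (ae_restrict_iff' measurableSet_Ioi).2 (Eventually.of_forall fun u hu s hs => ?_)
      have hu' : (0 : ℝ) < u := hu
      have hs' : (0 : ℝ) < s := hs
      have h1 : 1 + s * u ≠ 0 := by positivity
      exact ((hasDerivAt_ph1 X s u h1).div_const u).const_mul _)
  exact key.2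

lemma abs_ph_sub_one_div (hX : 0 ≤ X) {s u : ℝ} (hs : 0 ≤ s) (hu : 0 < u) :
    |(ph X s u - 1) / u| ≤ 2 * s + X := by
  have h1 := w_pos hs hu.le
  have h2 := w_le hs hu.le
  have h3 := ph_le hX hs hu.le
  rw [abs_div, abs_of_pos hu, div_le_iff₀ hu, abs_of_nonpos (by linarith)]
  -- 1 - ph ≤ (2 s + X) u
  have h4 : ex X s u ≥ 1 - u * w s u * X := by
    unfold ex
    have := Real.add_one_le_exp (-(u * w s u * X))
    linarith
  have h5 : w s u ≥ 1 - s * u := by
    unfold w
    have : (1 - s * u) * (1 + s * u) ≤ 1 := by nlinarith [sq_nonneg (s * u)]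
    rw [ge_iff_le, ← one_div, le_div_iff₀ (by positivity)]
    exact this
  have h6 : w s u ^ 2 ≥ 1 - 2 * (s * u) := by nlinarith [sq_nonneg (1 - w s u)]
  have h7 : u * w s u * X ≤ u * X := by
    have : u * w s u * X = (u * X) * w s u := by ring
    rw [this]
    exact mul_le_of_le_one_right (by positivity) h2
  have h8 : 0 ≤ w s u ^ 2 := by positivity
  have h9 : w s u ^ 2 ≤ 1 := pow_le_one₀ h1.le h2
  have h10 : ph X s u ≥ w s u ^ 2 * (1 - u * w s u * X) := by
    unfold ph
    exact mul_le_mul_of_nonneg_left h4 h8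
  have h11 : 0 ≤ u * w s u * X := by positivity
  nlinarith

lemma int_J (ha : 0 < a) (hX : 0 ≤ X) {s : ℝ} (hs : 0 ≤ s) :
    Integrable (fun u => Real.exp (-a * u) * ((ph X s u - 1) / u)) (volume.restrict (Ioi 0)) := by
  have hm := meas_ph X s
  refine Integrable.mono' (g := fun u => Real.exp (-a * u) * (2 * s + X))
    ((int_exp ha).mul_const _) (by fun_prop) ?_
  refine (ae_restrict_iff' measurableSet_Ioi).2 (Eventually.of_forall fun u hu => ?_)
  rw [norm_mul, Real.norm_eq_abs, Real.norm_eq_abs, abs_of_pos (Real.exp_pos _)]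
  exact mul_le_mul_of_nonneg_left (abs_ph_sub_one_div hX hs hu) (Real.exp_pos _).le

lemma int_J1 (ha : 0 < a) (hX : 0 ≤ X) {s : ℝ} (hs : 0 ≤ s) :
    Integrable (fun u => Real.exp (-a * u) * (ph1 X s u / u)) (volume.restrict (Ioi 0)) := by
  have hm := meas_ph1 X s
  refine Integrable.mono' (g := fun u => Real.exp (-a * u) * 3) ((int_exp ha).mul_const 3)
    (by fun_prop) ?_
  refine (ae_restrict_iff' measurableSet_Ioi).2 (Eventually.of_forall fun u hu => ?_)
  rw [norm_mul, Real.norm_eq_abs, Real.norm_eq_abs, abs_of_pos (Real.exp_pos _)]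
  exact mul_le_mul_of_nonneg_left (abs_ph1_div_le hX hs hu) (Real.exp_pos _).le

lemma hasDerivAt_J (ha : 0 < a) (hX : 0 ≤ X) {s : ℝ} (hs : 0 < s) :
    HasDerivAt (fun s => J a X s) (J1 a X s) s := by
  have key := hasDerivAt_integral_of_dominated_loc_of_deriv_le
    (μ := volume.restrict (Ioi (0 : ℝ)))
    (F := fun s u => Real.exp (-a * u) * ((ph X s u - 1) / u))
    (F' := fun s u => Real.exp (-a * u) * (ph1 X s u / u))
    (x₀ := s) (s := Ioi 0) (bound := fun u => Real.exp (-a * u) * 3)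
    (Ioi_mem_nhds hs)
    (Eventually.of_forall fun s => by
      have := meas_ph X s
      exact (by fun_prop : Measurable fun u : ℝ =>
        Real.exp (-a * u) * ((ph X s u - 1) / u)).aestronglyMeasurable)
    (int_J ha hX hs.le)
    (by
      have := meas_ph1 X s
      exact (by fun_prop : Measurable fun u : ℝ => Real.exp (-a * u) * (ph1 X s u / u)).aestronglyMeasurable)
    (by
      refine (ae_restrict_iff' measurableSet_Ioi).2 (Eventually.of_forall fun u hu s hs => ?_)
      rw [norm_mul, Real.norm_eq_abs, Real.norm_eq_abs, abs_of_pos (Real.exp_pos _)]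
      exact mul_le_mul_of_nonneg_left (abs_ph1_div_le hX (le_of_lt hs) hu) (Real.exp_pos _).le)
    ((int_exp ha).mul_const 3)
    (by
      refine (ae_restrict_iff' measurableSet_Ioi).2 (Eventually.of_forall fun u hu s hs => ?_)
      have hu' : (0 : ℝ) < u := hu
      have hs' : (0 : ℝ) < s := hs
      have h1 : 1 + s * u ≠ 0 := by positivity
      exact (((hasDerivAt_ph X s u h1).sub_const 1).div_const u).const_mul _)
  exact key.2

/-! ### positivity of `J2` -/

/-- the boundary function -/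
noncomputable def Bd (a X s u : ℝ) : ℝ :=
  Real.exp (-a * u) * w s u * ((3 * (u * w s u) ^ 2 - (u * w s u) ^ 3 * X) * ex X s u)
    + (a * (1 + s * u) + s) * Real.exp (-a * u) * ((u * w s u) ^ 3 * ex X s u)

/-- the positive remainder -/
noncomputable def Rm (a X s u : ℝ) : ℝ :=
  a ^ 2 * (1 + s * u) * Real.exp (-a * u) * ((u * w s u) ^ 3 * ex X s u)

lemma hasDerivAt_y (s u : ℝ) (h : 1 + s * u ≠ 0) :
    HasDerivAt (fun u => u * w s u) (w s u ^ 2) u := by
  have h1 := (hasDerivAt_id u).mul (hasDerivAt_wu s u h)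
  refine h1.congr_deriv ?_
  show 1 * w s u + u * (-s * w s u ^ 2) = _
  have : w s u * (1 + s * u) = 1 := by unfold w; exact inv_mul_cancel₀ h
  linear_combination (-w s u) * this

lemma hasDerivAt_exu (X s u : ℝ) (h : 1 + s * u ≠ 0) :
    HasDerivAt (fun u => ex X s u) (-(w s u ^ 2 * X) * ex X s u) u := by
  unfold ex
  have h1 := ((hasDerivAt_y s u h).mul_const X).neg
  have h2 := h1.exp
  refine h2.congr_deriv ?_
  show Real.exp (-(u * w s u * X)) * -(w s u ^ 2 * X) = _
  ring

lemma hasDerivAt_Bd (a X s u : ℝ) (h : 1 + s * u ≠ 0) (hu : u ≠ 0) :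
    HasDerivAt (fun u => Bd a X s u)
      (Real.exp (-a * u) * (ph2 X s u / u) - Rm a X s u) u := by
  unfold Bd
  have hw : w s u * (1 + s * u) = 1 := by unfold w; exact inv_mul_cancel₀ h
  have hE : HasDerivAt (fun u : ℝ => Real.exp (-a * u)) (-a * Real.exp (-a * u)) u := by
    have := ((hasDerivAt_id u).const_mul (-a)).exp
    refine this.congr_deriv ?_
    show Real.exp (-a * u) * (-a * 1) = _
    ring
  have hy := hasDerivAt_y s u h
  have hex := hasDerivAt_exu X s u h
  have hwu := hasDerivAt_wu s u h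
  have hA : HasDerivAt (fun u : ℝ => a * (1 + s * u) + s) (a * s) u := by
    have := ((((hasDerivAt_id u).const_mul s).const_add 1).const_mul a).add_const s
    simpa using this
  have h1 := (hE.mul hwu).mul ((((hy.pow 2).const_mul 3).sub ((hy.pow 3).mul_const X)).mul hex)
  have h2 := (hA.mul hE).mul ((hy.pow 3).mul hex)
  have h3 := h1.add h2
  refine h3.congr_deriv ?_
  show ((-a * Real.exp (-a * u)) * w s u + Real.exp (-a * u) * (-s * w s u ^ 2)) *
        ((3 * (u * w s u) ^ 2 - (u * w s u) ^ 3 * X) * ex X s u) +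
      Real.exp (-a * u) * w s u * ((3 * (((2 : ℕ) : ℝ) * (u * w s u) ^ (2 - 1) * w s u ^ 2)
        - ((3 : ℕ) : ℝ) * (u * w s u) ^ (3 - 1) * w s u ^ 2 * X) * ex X s u
        + (3 * (u * w s u) ^ 2 - (u * w s u) ^ 3 * X) * (-(w s u ^ 2 * X) * ex X s u)) +
      ((a * s * Real.exp (-a * u) + (a * (1 + s * u) + s) * (-a * Real.exp (-a * u))) *
          ((u * w s u) ^ 3 * ex X s u) +
        (a * (1 + s * u) + s) * Real.exp (-a * u) *
          (((3 : ℕ) : ℝ) * (u * w s u) ^ (3 - 1) * w s u ^ 2 * ex X s u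
            + (u * w s u) ^ 3 * (-(w s u ^ 2 * X) * ex X s u))) = _
  unfold ph2 Rm
  push_cast
  have e1 : u ^ 2 * w s u ^ 4 * (6 - 6 * (u * w s u * X) + (u * w s u * X) ^ 2) * ex X s u / u
      = u * w s u ^ 4 * (6 - 6 * (u * w s u * X) + (u * w s u * X) ^ 2) * ex X s u := by
    field_simp
  rw [e1]
  generalize ex X s u = E at *
  generalize Real.exp (-a * u) = T at *
  generalize w s u = W at *
  linear_combination (a * W * (3 * (u * W) ^ 2 - (u * W) ^ 3 * X) * T * E) * hw

lemma uw_le {s u : ℝ} (hs : 0 < s) (hu : 0 ≤ u) : u * w s u ≤ 1 / s := by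
  unfold w
  rw [← div_eq_mul_inv, div_le_div_iff₀ (by positivity) hs]
  nlinarith

lemma abs_Bd_le (ha : 0 < a) (hX : 0 ≤ X) {s u : ℝ} (hs : 0 < s) (hu : 0 ≤ u) :
    |Bd a X s u| ≤ Real.exp (-a * u) * (3 * (1 / s) ^ 2 + (1 / s) ^ 3 * X)
      + (a * (1 + s * u) + s) * Real.exp (-a * u) * (1 / s) ^ 3 := by
  have h1 := w_pos hs.le hu
  have h2 := w_le hs.le hu
  have h3 := ex_le hX hs.le hu
  have h4 := ex_pos (X := X) (s := s) (u := u)
  have h5 := uw_le hs hu
  have h0 : 0 ≤ u * w s u := by positivity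
  have hT := Real.exp_pos (-a * u)
  have hy2 : (u * w s u) ^ 2 ≤ (1 / s) ^ 2 := pow_le_pow_left₀ h0 h5 2
  have hy3 : (u * w s u) ^ 3 ≤ (1 / s) ^ 3 := pow_le_pow_left₀ h0 h5 3
  have hp2 : 0 ≤ (u * w s u) ^ 2 := by positivity
  have hp3 : 0 ≤ (u * w s u) ^ 3 := by positivity
  unfold Bd
  refine (abs_add_le _ _).trans (add_le_add ?_ ?_)
  · rw [mul_assoc, abs_mul, abs_of_pos hT]
    refine mul_le_mul_of_nonneg_left ?_ hT.le
    rw [abs_mul, abs_of_pos h1]
    have h6 : |(3 * (u * w s u) ^ 2 - (u * w s u) ^ 3 * X) * ex X s u|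
        ≤ 3 * (1 / s) ^ 2 + (1 / s) ^ 3 * X := by
      rw [abs_mul, abs_of_pos h4]
      have h7 : |3 * (u * w s u) ^ 2 - (u * w s u) ^ 3 * X|
          ≤ 3 * (1 / s) ^ 2 + (1 / s) ^ 3 * X := by
        have h8 : (u * w s u) ^ 3 * X ≤ (1 / s) ^ 3 * X := mul_le_mul_of_nonneg_right hy3 hX
        have h9 : 0 ≤ (u * w s u) ^ 3 * X := by positivity
        rw [abs_le]
        constructor <;> nlinarith
      calc _ ≤ (3 * (1 / s) ^ 2 + (1 / s) ^ 3 * X) * 1 :=
            mul_le_mul h7 h3 h4.le (by positivity)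
        _ = _ := mul_one _
    calc w s u * _ ≤ 1 * (3 * (1 / s) ^ 2 + (1 / s) ^ 3 * X) :=
          mul_le_mul h2 h6 (abs_nonneg _) (by norm_num)
      _ = _ := one_mul _
  · rw [abs_mul, abs_of_nonneg (by positivity : 0 ≤ (a * (1 + s * u) + s) * Real.exp (-a * u))]
    refine mul_le_mul_of_nonneg_left ?_ (by positivity)
    rw [abs_of_nonneg (by positivity)]
    calc _ ≤ (1 / s) ^ 3 * 1 := mul_le_mul hy3 h3 h4.le (by positivity)
      _ = _ := mul_one _

lemma tendsto_exp (ha : 0 < a) : Tendsto (fun u : ℝ => Real.exp (-a * u)) atTop (𝓝 0) := by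
  have h : Tendsto (fun u : ℝ => a * u) atTop atTop := tendsto_id.const_mul_atTop ha
  refine (Real.tendsto_exp_neg_atTop_nhds_zero.comp h).congr fun u => ?_
  simp [Function.comp]

lemma tendsto_mul_exp (ha : 0 < a) :
    Tendsto (fun u : ℝ => u * Real.exp (-a * u)) atTop (𝓝 0) := by
  have h : Tendsto (fun u : ℝ => a * u) atTop atTop := tendsto_id.const_mul_atTop ha
  have h1 := ((Real.tendsto_pow_mul_exp_neg_atTop_nhds_zero 1).comp h).const_mul (1 / a)
  rw [mul_zero] at h1
  refine h1.congr fun u => ?_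
  simp only [Function.comp, pow_one]
  rw [neg_mul]
  field_simp

lemma tendsto_Bd (ha : 0 < a) (hX : 0 ≤ X) {s : ℝ} (hs : 0 < s) :
    Tendsto (fun u => Bd a X s u) atTop (𝓝 0) := by
  have h1 : Tendsto (fun u : ℝ => Real.exp (-a * u) * (3 * (1 / s) ^ 2 + (1 / s) ^ 3 * X)
      + (a * (1 + s * u) + s) * Real.exp (-a * u) * (1 / s) ^ 3) atTop (𝓝 0) := by
    have h2 := ((tendsto_exp ha).mul_const (3 * (1 / s) ^ 2 + (1 / s) ^ 3 * X)).add
      ((((tendsto_exp ha).const_mul (a + s)).add ((tendsto_mul_exp ha).const_mul (a * s))).mul_const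
        ((1 / s) ^ 3))
    simp only [zero_mul, mul_zero, add_zero] at h2
    refine h2.congr fun u => ?_
    ring
  refine squeeze_zero_norm' ?_ h1
  filter_upwards [eventually_ge_atTop 0] with u hu
  exact abs_Bd_le ha hX hs hu

lemma int_J2 (ha : 0 < a) (hX : 0 ≤ X) {s : ℝ} (hs : 0 ≤ s) :
    Integrable (fun u => Real.exp (-a * u) * (ph2 X s u / u)) (volume.restrict (Ioi 0)) := by
  have hm := meas_ph2 X s
  have hb : Integrable (fun u : ℝ => Real.exp (-a * u) * (14 * u)) (volume.restrict (Ioi 0)) := by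
    refine ((int_mul_exp ha).const_mul 14).congr (Eventually.of_forall fun u => ?_)
    simp only; ring
  refine Integrable.mono' hb (by fun_prop) ?_
  refine (ae_restrict_iff' measurableSet_Ioi).2 (Eventually.of_forall fun u hu => ?_)
  rw [norm_mul, Real.norm_eq_abs, Real.norm_eq_abs, abs_of_pos (Real.exp_pos _)]
  exact mul_le_mul_of_nonneg_left (abs_ph2_div_le hX hs hu) (Real.exp_pos _).le

lemma int_Rm (ha : 0 < a) (hX : 0 ≤ X) {s : ℝ} (hs : 0 < s) :
    Integrable (fun u => Rm a X s u) (volume.restrict (Ioi 0)) := by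
  have hb : Integrable (fun u : ℝ => a ^ 2 * (1 / s) ^ 3 * Real.exp (-a * u)
      + a ^ 2 * s * (1 / s) ^ 3 * (u * Real.exp (-a * u))) (volume.restrict (Ioi 0)) :=
    ((int_exp ha).const_mul _).add ((int_mul_exp ha).const_mul _)
  have hw := meas_w s
  have hex := meas_ex X s
  refine Integrable.mono' hb (by unfold Rm; fun_prop) ?_
  refine (ae_restrict_iff' measurableSet_Ioi).2 (Eventually.of_forall fun u hu => ?_)
  have hu' : 0 ≤ u := le_of_lt hu
  have h1 := w_pos hs.le hu'
  have h3 := ex_le hX hs.le hu'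
  have h4 := ex_pos (X := X) (s := s) (u := u)
  have h5 := uw_le hs hu'
  have h0 : 0 ≤ u * w s u := by positivity
  have hy3 : (u * w s u) ^ 3 ≤ (1 / s) ^ 3 := pow_le_pow_left₀ h0 h5 3
  unfold Rm
  rw [Real.norm_eq_abs, abs_of_nonneg (by positivity)]
  calc a ^ 2 * (1 + s * u) * Real.exp (-a * u) * ((u * w s u) ^ 3 * ex X s u)
      ≤ a ^ 2 * (1 + s * u) * Real.exp (-a * u) * ((1 / s) ^ 3 * 1) := by
        refine mul_le_mul_of_nonneg_left (mul_le_mul hy3 h3 h4.le (by positivity)) (by positivity)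
    _ = _ := by ring

lemma Bd_zero (a X s : ℝ) : Bd a X s 0 = 0 := by unfold Bd; simp

lemma J2_nonneg (ha : 0 < a) (hX : 0 ≤ X) {s : ℝ} (hs : 0 < s) : 0 ≤ J2 a X s := by
  have hB : Integrable (fun u => Real.exp (-a * u) * (ph2 X s u / u) - Rm a X s u)
      (volume.restrict (Ioi 0)) := (int_J2 ha hX hs.le).sub (int_Rm ha hX hs)
  have hcont : ContinuousWithinAt (fun u => Bd a X s u) (Ici 0) 0 := by
    have hw : ContinuousAt (fun u => w s u) 0 := by
      unfold w
      refine ContinuousAt.inv₀ (by fun_prop) (by simp)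
    have hex : ContinuousAt (fun u => ex X s u) 0 := by
      unfold ex
      fun_prop
    have : ContinuousAt (fun u => Bd a X s u) 0 := by
      unfold Bd
      fun_prop
    exact this.continuousWithinAt
  have h1 := integral_Ioi_of_hasDerivAt_of_tendsto hcont
    (fun u hu => by
      have hu' : (0 : ℝ) < u := hu
      exact hasDerivAt_Bd a X s u (by positivity) hu'.ne') hB (tendsto_Bd ha hX hs)
  rw [Bd_zero, sub_zero] at h1
  rw [integral_sub (int_J2 ha hX hs.le) (int_Rm ha hX hs)] at h1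
  have h2 : 0 ≤ ∫ u in Ioi (0 : ℝ), Rm a X s u := by
    refine setIntegral_nonneg measurableSet_Ioi fun u hu => ?_
    have hu' : 0 ≤ u := le_of_lt hu
    have h1 := w_pos hs.le hu'
    have h4 := ex_pos (X := X) (s := s) (u := u)
    unfold Rm
    positivity
  unfold J2
  linarith

/-- the tangent line inequality -/
theorem core (ha : 0 < a) (hX : 0 ≤ X) {s s' : ℝ} (hs' : 0 < s') (hss : s' ≤ s) :
    J a X s' + (s - s') * J1 a X s' ≤ J a X s := by
  rcases eq_or_lt_of_le hss with rfl | hlt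
  · simp
  have hmono : ∀ c, s' < c → J1 a X s' ≤ J1 a X c := by
    intro c hc
    obtain ⟨ξ, hξ, h⟩ := exists_hasDerivAt_eq_slope (fun s => J1 a X s) (fun s => J2 a X s) hc
      (fun x hx => (hasDerivAt_J1 ha hX (hs'.trans_le hx.1)).continuousAt.continuousWithinAt)
      (fun x hx => hasDerivAt_J1 ha hX (hs'.trans hx.1))
    have h2 := J2_nonneg ha hX (hs'.trans hξ.1)
    rw [h, div_nonneg_iff] at h2
    rcases h2 with h2 | h2
    · linarith [h2.1]
    · linarith [h2.2]
  obtain ⟨ξ, hξ, h⟩ := exists_hasDerivAt_eq_slope (fun s => J a X s) (fun s => J1 a X s) hlt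
    (fun x hx => (hasDerivAt_J ha hX (hs'.trans_le hx.1)).continuousAt.continuousWithinAt)
    (fun x hx => hasDerivAt_J ha hX (hs'.trans hx.1))
  have h3 := hmono ξ hξ.1
  have h4 : J1 a X ξ * (s - s') = J a X s - J a X s' := by
    rw [h]
    field_simp [sub_ne_zero.2 hlt.ne']
  nlinarith

end Conc1
end CholB
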