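import Pool.Agent.Lib.MP_6947cd_al.B.SpecS

/-!
Problem MP_6947cd_al, module VONE of Theorem S: properties of the row function `V1`.
-/

set_option autoImplicit false

open MeasureTheory Set Filter Topology

namespace CholB
namespace VOneM

theorem int_pow (k : ℕ) : IntegrableOn (fun x : ℝ => x ^ k * Real.exp (-x)) (Ioi 0) := by
  have h := Real.GammaIntegral_convergent (s := (k : ℝ) + 1) (by positivity)
  refine h.congr_fun (fun x hx => ?_) measurableSet_Ioi
  have : x ^ ((k : ℝ) + 1 - 1) = x ^ k := by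
    rw [add_sub_cancel_right, Real.rpow_natCast]
  simp only [this]
  ring

theorem val_pow (k : ℕ) : ∫ x in Ioi (0 : ℝ), x ^ k * Real.exp (-x) = (k.factorial : ℝ) := by
  rw [← Real.Gamma_nat_eq_factorial, Real.Gamma_eq_integral (by positivity)]
  refine setIntegral_congr_fun measurableSet_Ioi (fun x hx => ?_)
  have : x ^ ((k : ℝ) + 1 - 1) = x ^ k := by
    rw [add_sub_cancel_right, Real.rpow_natCast]
  simp only [this]
  ring

theorem lin_pos {a c x : ℝ} (ha : 0 ≤ a) (hc : 0 ≤ c) (hac : 0 < a + c) (hx : 0 < x) :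
    0 < a + c * x := by
  rcases lt_or_eq_of_le ha with h | h
  · have := mul_nonneg hc hx.le
    linarith
  · rw [← h] at hac ⊢
    have hc' : 0 < c := by linarith
    have := mul_pos hc' hx
    linarith

theorem abs_log_le {y : ℝ} (hy : 0 < y) : |Real.log y| ≤ y + 1 / y := by
  have h1 := Real.log_le_sub_one_of_pos hy
  have h2 := Real.log_le_sub_one_of_pos (x := y⁻¹) (by positivity)
  rw [Real.log_inv] at h2
  have h3 : 0 < y⁻¹ := by positivity
  rw [one_div, abs_le]
  constructor <;> linarith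

theorem inv_lin {a c x : ℝ} (ha : 0 ≤ a) (hc : 0 ≤ c) (hac : 0 < a + c) (hx : 0 < x) :
    1 / (a + c * x) ≤ (1 + 1 / x) / (a + c) := by
  have h := lin_pos ha hc hac hx
  rw [div_le_div_iff₀ h hac]
  have e : (1 + 1 / x) * (a + c * x) = a + c * x + a / x + c := by
    field_simp
    ring
  rw [e]
  have h1 : 0 ≤ a / x := by positivity
  have h2 : 0 ≤ c * x := by positivity
  linarith

theorem abs_log_lin {a c x : ℝ} (ha : 0 ≤ a) (hc : 0 ≤ c) (hac : 0 < a + c) (hx : 0 < x) :
    |Real.log (a + c * x)| ≤ a + c * x + (1 + 1 / x) / (a + c) := by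
  have h := abs_log_le (lin_pos ha hc hac hx)
  have h2 := inv_lin ha hc hac hx
  linarith

/-- polynomial times exponential bound of `x^(k+1) e^{-x} |log (a + c x)|` -/
theorem bound_log {a c x : ℝ} (k : ℕ) (ha : 0 ≤ a) (hc : 0 ≤ c) (hac : 0 < a + c) (hx : 0 < x) :
    |x ^ (k + 1) * Real.exp (-x) * Real.log (a + c * x)| ≤
      a * (x ^ (k + 1) * Real.exp (-x)) + c * (x ^ (k + 2) * Real.exp (-x)) +
      (1 / (a + c)) * (x ^ (k + 1) * Real.exp (-x)) + (1 / (a + c)) * (x ^ k * Real.exp (-x)) := by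
  have h := abs_log_lin ha hc hac hx
  have hp : 0 < x ^ (k + 1) * Real.exp (-x) := by positivity
  rw [abs_mul, abs_of_pos hp]
  refine (mul_le_mul_of_nonneg_left h hp.le).trans (le_of_eq ?_)
  field_simp
  ring

theorem int_log (k : ℕ) {a c : ℝ} (ha : 0 ≤ a) (hc : 0 ≤ c) (hac : 0 < a + c) :
    IntegrableOn (fun x : ℝ => x ^ (k + 1) * Real.exp (-x) * Real.log (a + c * x)) (Ioi 0) := by
  have h1 : IntegrableOn (fun x : ℝ => a * (x ^ (k + 1) * Real.exp (-x)) +
      c * (x ^ (k + 2) * Real.exp (-x)) +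
      (1 / (a + c)) * (x ^ (k + 1) * Real.exp (-x)) +
      (1 / (a + c)) * (x ^ k * Real.exp (-x))) (Ioi 0) :=
    ((((int_pow (k + 1)).const_mul a).add ((int_pow (k + 2)).const_mul c)).add
      ((int_pow (k + 1)).const_mul _)).add ((int_pow k).const_mul _)
  refine Integrable.mono' h1 ?_ ?_
  · exact (by fun_prop : Measurable fun x : ℝ =>
      x ^ (k + 1) * Real.exp (-x) * Real.log (a + c * x)).aestronglyMeasurable
  · refine (ae_restrict_iff' measurableSet_Ioi).2 (Eventually.of_forall fun x hx => ?_)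
    rw [Real.norm_eq_abs]
    exact bound_log k ha hc hac hx

theorem frac_bd {a c x : ℝ} (ha : 0 ≤ a) (hc : 0 ≤ c) (hac : 0 < a + c) (hx : 0 < x) :
    0 ≤ c * x / (a + c * x) ∧ c * x / (a + c * x) ≤ 1 := by
  have h := lin_pos ha hc hac hx
  have h2 : 0 ≤ c * x := by positivity
  constructor
  · positivity
  · rw [div_le_one h]; linarith

theorem int_frac {a c : ℝ} (ha : 0 ≤ a) (hc : 0 ≤ c) (hac : 0 < a + c) :
    IntegrableOn (fun x : ℝ => x * Real.exp (-x) * (c * x / (a + c * x))) (Ioi 0) := by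
  refine Integrable.mono' (int_pow 1) ?_ ?_
  · exact (by fun_prop : Measurable fun x : ℝ =>
      x * Real.exp (-x) * (c * x / (a + c * x))).aestronglyMeasurable
  · refine (ae_restrict_iff' measurableSet_Ioi).2 (Eventually.of_forall fun x hx => ?_)
    have hx' : (0 : ℝ) < x := hx
    obtain ⟨h1, h2⟩ := frac_bd ha hc hac hx'
    rw [Real.norm_eq_abs, abs_mul, abs_of_nonneg h1, abs_of_pos (by positivity), pow_one]
    have : 0 < x * Real.exp (-x) := by positivity
    nlinarith

/-- `b x/(a + b v x)` through the normalised fraction -/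
theorem frac_eq {a b v x : ℝ} (hv : 0 < v) :
    b * x / (a + b * v * x) = (1 / v) * ((b * v) * x / (a + (b * v) * x)) := by
  have : b * v * x / (a + b * v * x) = v * (b * x / (a + b * v * x)) := by ring
  rw [this]
  field_simp

theorem int_frac' {a b v : ℝ} (ha : 0 ≤ a) (hb : 0 ≤ b) (hab : 0 < a + b) (hv : 0 < v) :
    IntegrableOn (fun x : ℝ => x * Real.exp (-x) * (b * x / (a + b * v * x))) (Ioi 0) := by
  have hac : 0 < a + b * v := by
    rcases lt_or_eq_of_le ha with h | h
    · have := mul_nonneg hb hv.le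
      linarith
    · rw [← h] at hab ⊢
      have := mul_pos (show 0 < b by linarith) hv
      linarith
  have h : IntegrableOn (fun x : ℝ => (1 / v) *
      (x * Real.exp (-x) * ((b * v) * x / (a + (b * v) * x)))) (Ioi 0) :=
    (int_frac ha (mul_nonneg hb hv.le) hac).const_mul (1 / v)
  refine h.congr_fun (fun x hx => ?_) measurableSet_Ioi
  beta_reduce
  rw [frac_eq hv]
  ring

theorem hac_of {a b v : ℝ} (ha : 0 ≤ a) (hb : 0 ≤ b) (hab : 0 < a + b) (hv : 0 < v) :
    0 < a + b * v := by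
  rcases lt_or_eq_of_le ha with h | h
  · have := mul_nonneg hb hv.le
    linarith
  · rw [← h] at hab ⊢
    have := mul_pos (show 0 < b by linarith) hv
    linarith

theorem int_V1 {a b K v : ℝ} (ha : 0 ≤ a) (hb : 0 ≤ b) (hab : 0 < a + b) (hv : 0 < v) :
    IntegrableOn (fun x : ℝ => x * Real.exp (-x) *
      (Real.log (a + b * v * x) + (K - v) * (b * x / (a + b * v * x)))) (Ioi 0) := by
  have h1 := int_log 0 ha (mul_nonneg hb hv.le) (hac_of ha hb hab hv)
  have h2 := (int_frac' ha hb hab hv).const_mul (K - v)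
  refine (h1.add h2).congr_fun (fun x hx => ?_) measurableSet_Ioi
  simp only [Pi.add_apply, zero_add, pow_one]
  ring

theorem V1_split {a b K v : ℝ} (ha : 0 ≤ a) (hb : 0 ≤ b) (hab : 0 < a + b) (hv : 0 < v) :
    V1 a b K v = L0 a (b * v) +
      (K - v) * ∫ x in Ioi (0 : ℝ), x * Real.exp (-x) * (b * x / (a + b * v * x)) := by
  have h1 := int_log 0 ha (mul_nonneg hb hv.le) (hac_of ha hb hab hv)
  have h2 := (int_frac' ha hb hab hv).const_mul (K - v)
  unfold V1 L0
  rw [← integral_const_mul]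
  have h1' : IntegrableOn (fun x : ℝ => x * Real.exp (-x) * Real.log (a + b * v * x)) (Ioi 0) := by
    refine h1.congr_fun (fun x hx => ?_) measurableSet_Ioi
    simp
  rw [← integral_add h1' h2]
  refine setIntegral_congr_fun measurableSet_Ioi (fun x hx => ?_)
  ring

theorem anti {a b K v v' : ℝ} (ha : 0 ≤ a) (hb : 0 ≤ b) (hab : 0 < a + b) (hv : 0 < v)
    (hvv : v ≤ v') (hK : v' ≤ K) : V1 a b K v' ≤ V1 a b K v := by
  unfold V1
  refine setIntegral_mono_on (int_V1 ha hb hab (hv.trans_le hvv)) (int_V1 ha hb hab hv)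
    measurableSet_Ioi (fun x hx => ?_)
  have hx' : (0 : ℝ) < x := hx
  refine mul_le_mul_of_nonneg_left ?_ (by positivity)
  have hv' : 0 < v' := hv.trans_le hvv
  have hp : 0 < a + b * v * x := lin_pos ha (mul_nonneg hb hv.le) (hac_of ha hb hab hv) hx'
  have hq : 0 < a + b * v' * x := lin_pos ha (mul_nonneg hb hv'.le) (hac_of ha hb hab hv') hx'
  have hbx : 0 ≤ b * x := mul_nonneg hb hx'.le
  have hpq : a + b * v * x ≤ a + b * v' * x := by nlinarith
  have hlog : Real.log (a + b * v' * x) - Real.log (a + b * v * x) ≤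
      (v' - v) * (b * x / (a + b * v * x)) := by
    rw [← Real.log_div hq.ne' hp.ne']
    have h := Real.log_le_sub_one_of_pos (div_pos hq hp)
    refine h.trans (le_of_eq ?_)
    rw [div_sub_one hp.ne', ← mul_div_assoc]
    congr 1
    ring
  have hfr : b * x / (a + b * v' * x) ≤ b * x / (a + b * v * x) :=
    div_le_div_of_nonneg_left hbx hp hpq
  have h3 : (K - v') * (b * x / (a + b * v' * x)) ≤ (K - v') * (b * x / (a + b * v * x)) :=
    mul_le_mul_of_nonneg_left hfr (by linarith)
  nlinarith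

theorem tendsto_pow_exp (k : ℕ) :
    Tendsto (fun x : ℝ => x ^ k * Real.exp (-x)) atTop (𝓝 0) :=
  Real.tendsto_pow_mul_exp_neg_atTop_nhds_zero k

/-- integration by parts -/
theorem parts {a c : ℝ} (ha : 0 ≤ a) (hc : 0 ≤ c) (hac : 0 < a + c) :
    2 * (L1 a c - L0 a c) = ∫ x in Ioi (0 : ℝ), x * Real.exp (-x) * (c * x / (a + c * x)) := by
  set f : ℝ → ℝ := fun x => x ^ 2 * Real.exp (-x) * Real.log (a + c * x) with hf
  set f' : ℝ → ℝ := fun x => (2 * x - x ^ 2) * Real.exp (-x) * Real.log (a + c * x)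
    + x * Real.exp (-x) * (c * x / (a + c * x)) with hf'
  have hi0 := int_log 0 ha hc hac
  have hi1 := int_log 1 ha hc hac
  have hi2 := int_frac ha hc hac
  have hsum : IntegrableOn (fun x : ℝ => 2 * (x ^ (0 + 1) * Real.exp (-x) * Real.log (a + c * x))
      - (x ^ (1 + 1) * Real.exp (-x) * Real.log (a + c * x))) (Ioi 0) :=
    (hi0.const_mul 2).sub hi1
  have hint : IntegrableOn f' (Ioi 0) := by
    refine (hsum.add hi2).congr_fun (fun x hx => ?_) measurableSet_Ioi
    simp only [hf', Pi.add_apply]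
    ring
  have hderiv : ∀ x ∈ Ioi (0 : ℝ), HasDerivAt f (f' x) x := by
    intro x hx
    have hx' : (0 : ℝ) < x := hx
    have hp := lin_pos ha hc hac hx'
    have h1 : HasDerivAt (fun x : ℝ => x ^ 2) (2 * x) x := by
      simpa using hasDerivAt_pow 2 x
    have h2 : HasDerivAt (fun x : ℝ => Real.exp (-x)) (-Real.exp (-x)) x := by
      simpa using (hasDerivAt_neg x).exp
    have h3 : HasDerivAt (fun x : ℝ => a + c * x) c x := by
      simpa using ((hasDerivAt_id x).const_mul c).const_add a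
    have h4 := h3.log hp.ne'
    have h5 := (h1.mul h2).mul h4
    refine h5.congr_deriv ?_
    simp only [hf', Pi.mul_apply]
    field_simp
    ring
  have hbd : ∀ x : ℝ, 0 < x → |f x| ≤
      a * (x ^ (1 + 1) * Real.exp (-x)) + c * (x ^ (1 + 2) * Real.exp (-x)) +
      (1 / (a + c)) * (x ^ (1 + 1) * Real.exp (-x)) + (1 / (a + c)) * (x ^ 1 * Real.exp (-x)) :=
    fun x hx => bound_log 1 ha hc hac hx
  have hf0 : f 0 = 0 := by simp [hf]
  have hcont : ContinuousWithinAt f (Ici 0) 0 := by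
    rw [ContinuousWithinAt, hf0]
    have hb : Tendsto (fun x : ℝ => a * (x ^ (1 + 1) * Real.exp (-x)) +
      c * (x ^ (1 + 2) * Real.exp (-x)) +
      (1 / (a + c)) * (x ^ (1 + 1) * Real.exp (-x)) + (1 / (a + c)) * (x ^ 1 * Real.exp (-x)))
      (𝓝[Ici 0] 0) (𝓝 0) := by
      have : Continuous (fun x : ℝ => a * (x ^ (1 + 1) * Real.exp (-x)) +
        c * (x ^ (1 + 2) * Real.exp (-x)) +
        (1 / (a + c)) * (x ^ (1 + 1) * Real.exp (-x)) +
        (1 / (a + c)) * (x ^ 1 * Real.exp (-x))) := by fun_prop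
      have h := (this.tendsto 0).mono_left (nhdsWithin_le_nhds (s := Ici (0 : ℝ)))
      simpa using h
    refine squeeze_zero_norm' ?_ hb
    refine eventually_nhdsWithin_of_forall (fun x hx => ?_)
    rcases eq_or_lt_of_le (show (0 : ℝ) ≤ x from hx) with h | h
    · rw [← h, hf0]; simp
    · rw [Real.norm_eq_abs]; exact hbd x h
  have htop : Tendsto f atTop (𝓝 0) := by
    have hb : Tendsto (fun x : ℝ => a * (x ^ (1 + 1) * Real.exp (-x)) +
      c * (x ^ (1 + 2) * Real.exp (-x)) +
      (1 / (a + c)) * (x ^ (1 + 1) * Real.exp (-x)) + (1 / (a + c)) * (x ^ 1 * Real.exp (-x)))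
      atTop (𝓝 0) := by
      have h := ((((tendsto_pow_exp (1 + 1)).const_mul a).add
        ((tendsto_pow_exp (1 + 2)).const_mul c)).add
        ((tendsto_pow_exp (1 + 1)).const_mul (1 / (a + c)))).add
        ((tendsto_pow_exp 1).const_mul (1 / (a + c)))
      simpa using h
    refine squeeze_zero_norm' ?_ hb
    filter_upwards [eventually_gt_atTop 0] with x hx
    rw [Real.norm_eq_abs]; exact hbd x hx
  have hmain := integral_Ioi_of_hasDerivAt_of_tendsto hcont hderiv hint htop
  rw [hf0, sub_zero] at hmain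
  have hsplit : ∫ x in Ioi (0 : ℝ), f' x =
      (∫ x in Ioi (0 : ℝ), (2 * (x ^ (0 + 1) * Real.exp (-x) * Real.log (a + c * x))
      - (x ^ (1 + 1) * Real.exp (-x) * Real.log (a + c * x)))) +
      ∫ x in Ioi (0 : ℝ), x * Real.exp (-x) * (c * x / (a + c * x)) := by
    rw [← integral_add hsum hi2]
    refine setIntegral_congr_fun measurableSet_Ioi (fun x hx => ?_)
    simp only [hf']
    ring
  rw [integral_sub (hi0.const_mul 2) hi1, integral_const_mul] at hsplit
  have eL0 : L0 a c = ∫ x in Ioi (0 : ℝ), x ^ (0 + 1) * Real.exp (-x) * Real.log (a + c * x) := by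
    unfold L0
    refine setIntegral_congr_fun measurableSet_Ioi (fun x hx => ?_)
    simp
  have eL1 : L1 a c =
      (1 / 2) * ∫ x in Ioi (0 : ℝ), x ^ (1 + 1) * Real.exp (-x) * Real.log (a + c * x) := by
    unfold L1
    rw [← integral_const_mul]
    refine setIntegral_congr_fun measurableSet_Ioi (fun x hx => ?_)
    ring
  rw [eL0, eL1]
  linarith

theorem formula {a b K v : ℝ} (ha : 0 ≤ a) (hb : 0 ≤ b) (hab : 0 < a + b) (hv : 0 < v) :
    V1 a b K v = (1 - 2 * (K - v) / v) * L0 a (b * v) + 2 * (K - v) / v * L1 a (b * v) := by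
  rw [V1_split ha hb hab hv]
  have hp := parts ha (mul_nonneg hb hv.le) (hac_of ha hb hab hv)
  have e : ∫ x in Ioi (0 : ℝ), x * Real.exp (-x) * (b * x / (a + b * v * x)) =
      (1 / v) * ∫ x in Ioi (0 : ℝ), x * Real.exp (-x) * ((b * v) * x / (a + (b * v) * x)) := by
    rw [← integral_const_mul]
    refine setIntegral_congr_fun measurableSet_Ioi (fun x hx => ?_)
    rw [frac_eq hv]
    ring
  rw [e, ← hp]
  field_simp
  ring

/-- `∫ x e^{-x} log x = 1 - gamma` -/
theorem val_log : ∫ x in Ioi (0 : ℝ), x * Real.exp (-x) * Real.log x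
    = 1 - Real.eulerMascheroniConstant := by
  have h1 := Complex.hasDerivAt_GammaIntegral (s := 2) (by norm_num)
  have h2 : HasDerivAt Complex.Gamma
      (((Nat.factorial 1 : ℕ) : ℂ) * (-(Real.eulerMascheroniConstant : ℂ) + ((harmonic 1 : ℚ) : ℂ)))
      ((1 : ℕ) + 1 : ℂ) := by
    simpa using Complex.hasDerivAt_Gamma_nat 1
  have e2 : ((1 : ℕ) + 1 : ℂ) = 2 := by norm_num
  rw [e2] at h2
  have h3 : HasDerivAt Complex.GammaIntegral
      (((Nat.factorial 1 : ℕ) : ℂ) * (-(Real.eulerMascheroniConstant : ℂ) + ((harmonic 1 : ℚ) : ℂ)))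
      2 := by
    refine h2.congr_of_eventuallyEq ?_
    have : {s : ℂ | 0 < s.re} ∈ 𝓝 (2 : ℂ) :=
      (isOpen_lt continuous_const Complex.continuous_re).mem_nhds (by simp)
    filter_upwards [this] with s hs
    exact (Complex.Gamma_eq_integral hs).symm
  have h4 := h1.unique h3
  have h5 : (∫ t in Ioi (0 : ℝ), (t : ℂ) ^ ((2 : ℂ) - 1) * (Real.log t * Real.exp (-t)))
      = ((∫ x in Ioi (0 : ℝ), x * Real.exp (-x) * Real.log x : ℝ) : ℂ) := by
    rw [← integral_complex_ofReal]
    refine setIntegral_congr_fun measurableSet_Ioi (fun x hx => ?_)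
    have : ((2 : ℂ) - 1) = 1 := by norm_num
    simp only [this, Complex.cpow_one]
    push_cast
    ring
  rw [h5] at h4
  have h6 : harmonic 1 = 1 := by simp [harmonic]
  rw [h6] at h4
  have h7 : ((∫ x in Ioi (0 : ℝ), x * Real.exp (-x) * Real.log x : ℝ) : ℂ)
      = ((1 - Real.eulerMascheroniConstant : ℝ) : ℂ) := by
    rw [h4]
    simp
    ring
  exact_mod_cast h7

theorem zero {b K v : ℝ} (hb : 0 < b) (hv : 0 < v) :
    V1 0 b K v = Real.log (b * v) + (1 - Real.eulerMascheroniConstant) + (K - v) / v := by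
  unfold V1
  have hbv : 0 < b * v := mul_pos hb hv
  have hl : IntegrableOn (fun x : ℝ => x * Real.exp (-x) * Real.log x) (Ioi 0) := by
    refine (int_log 0 (a := 0) (c := 1) le_rfl zero_le_one (by norm_num)).congr_fun
      (fun x hx => ?_) measurableSet_Ioi
    simp
  have h1 : IntegrableOn (fun x : ℝ => (Real.log (b * v) + (K - v) / v) *
      (x ^ 1 * Real.exp (-x))) (Ioi 0) := (int_pow 1).const_mul _
  have e : ∫ x in Ioi (0 : ℝ), x * Real.exp (-x) *
      (Real.log (0 + b * v * x) + (K - v) * (b * x / (0 + b * v * x))) =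
      ∫ x in Ioi (0 : ℝ), ((Real.log (b * v) + (K - v) / v) * (x ^ 1 * Real.exp (-x)) +
        x * Real.exp (-x) * Real.log x) := by
    refine setIntegral_congr_fun measurableSet_Ioi (fun x hx => ?_)
    have hx' : (0 : ℝ) < x := hx
    simp only [zero_add]
    rw [Real.log_mul hbv.ne' hx'.ne']
    field_simp
    ring
  rw [e, integral_add h1 hl, integral_const_mul, val_pow, val_log]
  simp
  ring

end VOneM

theorem specVOne : SpecVOne where
  anti := fun _ _ _ _ _ ha hb hab hv hvv hK => VOneM.anti ha hb hab hv hvv hK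
  formula := fun _ _ _ _ ha hb hab hv _ => VOneM.formula ha hb hab hv
  zero := fun _ _ _ hb hv _ => VOneM.zero hb hv

end CholB
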