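import Pool.Agent.Lib.MP_6947cd_al.B.BM
import Pool.Agent.Lib.MP_6947cd_al.B.CV
import Pool.Agent.Lib.MP_6947cd_al.B.VOne

/-!
Module SPE of Theorem S (problem MP_6947cd_al): one special coordinate.
-/

set_option autoImplicit false

open MeasureTheory ProbabilityTheory Set Matrix Filter Topology
open scoped ENNReal ComplexConjugate ComplexOrder

namespace CholB

open MPf1e3 (cg G GM nsq)

namespace SpeM

open BMM

instance prob_G2 : IsProbabilityMeasure (G 2) := MPf1e3.specProb.G 2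

/-- the weight of the biased law -/
noncomputable def w (t : ℝ) (h : Fin 2 → ℂ) : ℝ := 1 - t + t * nsq h / 4

theorem meas_w (t : ℝ) : Measurable (w t) := by
  unfold w
  have := meas_nsq (n := 2)
  fun_prop

theorem w_nonneg {t : ℝ} (h0 : 0 ≤ t) (h1 : t ≤ 1) (h : Fin 2 → ℂ) : 0 ≤ w t h := by
  unfold w
  have := nsq_nonneg h
  have : 0 ≤ 1 - t := by linarith
  positivity

theorem nsq_smul (r : ℂ) (y : Fin 2 → ℂ) : nsq (fun c => r * y c) = ‖r‖ ^ 2 * nsq y := by
  unfold nsq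
  rw [Finset.mul_sum]
  refine Finset.sum_congr rfl fun c _ => ?_
  rw [norm_mul, mul_pow]

/-- the biased law is the image of a weighted Gaussian law -/
theorem bm_map (t : ℝ) (h0 : 0 ≤ t) (h1 : t ≤ 1) :
    bm t = ((G 2).withDensity fun h => ENNReal.ofReal (w t h)).map
      (fun h : Fin 2 → ℂ => fun c => ((Real.sqrt (1 + t / 2) : ℂ))⁻¹ * h c) := by
  have mw := meas_w t
  have mn := meas_nsq (n := 2)
  have hc : 0 < 1 + t / 2 := by positivity
  have hs : 0 < Real.sqrt (1 + t / 2) := Real.sqrt_pos.2 hc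
  have hsc : (Real.sqrt (1 + t / 2) : ℂ) ≠ 0 := by exact_mod_cast hs.ne'
  refine Measure.ext_of_lintegral _ fun F hF => ?_
  rw [lintegral_map hF (by fun_prop)]
  have mFc : Measurable fun h : Fin 2 → ℂ => F fun c => ((Real.sqrt (1 + t / 2) : ℂ))⁻¹ * h c :=
    hF.comp (by fun_prop)
  rw [lintegral_withDensity_eq_lintegral_mul _ mw.ennreal_ofReal mFc]
  unfold bm
  rw [lintegral_withDensity_eq_lintegral_mul _ (meas_fb t).ennreal_ofReal hF]
  have ht := CVM.tilt2 2 (t / 2) (by positivity)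
    (fun h => ENNReal.ofReal (w t h) * F fun c => ((Real.sqrt (1 + t / 2) : ℂ))⁻¹ * h c)
    (by fun_prop)
  have e1 : ∀ y : Fin 2 → ℂ, ((fun y => ENNReal.ofReal (fb t y)) * F) y
      = ENNReal.ofReal ((1 + t / 2) ^ 2) *
        (ENNReal.ofReal (w t fun c => (Real.sqrt (1 + t / 2) : ℂ) * y c) *
          (F fun c => ((Real.sqrt (1 + t / 2) : ℂ))⁻¹ * ((Real.sqrt (1 + t / 2) : ℂ) * y c)) *
          ENNReal.ofReal (Real.exp (-(t / 2 / 2) * nsq y))) := by
    intro y
    have e2 : (fun c => ((Real.sqrt (1 + t / 2) : ℂ))⁻¹ * ((Real.sqrt (1 + t / 2) : ℂ) * y c))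
        = y := by
      funext c
      rw [← mul_assoc, inv_mul_cancel₀ hsc, one_mul]
    rw [e2]
    simp only [Pi.mul_apply]
    have hw : 0 ≤ w t fun c => (Real.sqrt (1 + t / 2) : ℂ) * y c := w_nonneg h0 h1 _
    rw [mul_comm (ENNReal.ofReal (w t _)) (F y), mul_assoc (F y), ← ENNReal.ofReal_mul hw,
      mul_left_comm, ← ENNReal.ofReal_mul (by positivity), mul_comm]
    congr 2
    unfold fb w
    rw [nsq_smul, Complex.norm_real, Real.norm_eq_abs, sq_abs, Real.sq_sqrt hc.le]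
    have e3 : -(t / 2) * nsq y / 2 = -(t / 2 / 2) * nsq y := by ring
    rw [e3]
    ring
  simp_rw [e1]
  rw [lintegral_const_mul _ (by fun_prop), ht, ← mul_assoc]
  have e4 : ENNReal.ofReal ((1 + t / 2) ^ 2) *
      ((Real.toNNReal ((1 / (1 + t / 2)) ^ 2) : NNReal) : ℝ≥0∞) = 1 := by
    have e5 : ((Real.toNNReal ((1 / (1 + t / 2)) ^ 2) : NNReal) : ℝ≥0∞)
      = ENNReal.ofReal ((1 / (1 + t / 2)) ^ 2) := rfl
    rw [e5, ← ENNReal.ofReal_mul (by positivity), ← ENNReal.ofReal_one]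
    congr 1
    field_simp
  rw [e4, one_mul]
  rfl

theorem bm_zero : bm 0 = G 2 := by
  unfold bm
  have : (fun y => ENNReal.ofReal (fb 0 y)) = fun _ => (1 : ℝ≥0∞) := by
    funext y
    unfold fb
    simp
  rw [this]
  exact withDensity_one

theorem nsq_intG : Integrable (fun y : Fin 2 → ℂ => nsq y) (G 2) := by
  have := int_nsq 0 le_rfl zero_le_one
  rwa [bm_zero] at this

theorem nsq_valG : ∫ y : Fin 2 → ℂ, nsq y ∂(G 2) = 4 := by
  have := val_nsq 0 le_rfl zero_le_one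
  rwa [bm_zero] at this

theorem nsq2_intG : Integrable (fun y : Fin 2 → ℂ => nsq y ^ 2) (G 2) := by
  have h := (integrable_iff 0 le_rfl zero_le_one (fun x : ℝ => 4 * x ^ 2) (by fun_prop)).2 (by
    have h3 : IntegrableOn (fun x : ℝ => 4 * (x ^ 3 * Real.exp (-x))) (Ioi 0) :=
      (pow_int 3).const_mul 4
    refine h3.congr_fun (fun x _ => ?_) measurableSet_Ioi
    unfold rd
    simp only
    ring)
  rw [bm_zero] at h
  refine h.congr (Eventually.of_forall fun y => ?_)
  simp only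
  ring

theorem meanG (c : Fin 2) : ∫ y : Fin 2 → ℂ, y c ∂(G 2) = 0 := by
  have := mean 0 c
  rwa [bm_zero] at this

theorem coord_intG (c : Fin 2) : Integrable (fun y : Fin 2 → ℂ => y c) (G 2) := by
  refine ((integrable_const (1 : ℝ)).add nsq_intG).mono' ?_ ?_
  · exact (measurable_pi_apply c).aestronglyMeasurable
  · refine Eventually.of_forall fun y => ?_
    have h1 : ‖y c‖ ^ 2 ≤ nsq y := by
      unfold nsq
      exact Finset.single_le_sum (f := fun j => ‖y j‖ ^ 2) (fun _ _ => by positivity)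
        (Finset.mem_univ c)
    simp only [Pi.add_apply]
    nlinarith [sq_nonneg (‖y c‖ - 1)]

theorem nsq_expand (u : Fin 2 → ℂ) (r : ℂ) (h : Fin 2 → ℂ) :
    nsq (fun c => u c + r * h c) = nsq u + ‖r‖ ^ 2 * nsq h
      + 2 * (∑ c, conj (u c) * r * h c).re := by
  unfold nsq
  rw [Finset.mul_sum, Complex.re_sum, Finset.mul_sum, ← Finset.sum_add_distrib,
    ← Finset.sum_add_distrib]
  refine Finset.sum_congr rfl fun c _ => ?_
  have e : ‖u c + r * h c‖ ^ 2 = ‖u c‖ ^ 2 + ‖r * h c‖ ^ 2 + 2 * (conj (u c) * (r * h c)).re := by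
    rw [← Complex.normSq_eq_norm_sq, ← Complex.normSq_eq_norm_sq, ← Complex.normSq_eq_norm_sq,
      Complex.normSq_add]
    congr 2
    rw [← Complex.conj_re]
    congr 1
    rw [map_mul, Complex.conj_conj]
  rw [e, norm_mul, mul_pow, mul_assoc (conj (u c))]

theorem nsq_shift_int (u : Fin 2 → ℂ) (r : ℂ) :
    Integrable (fun h : Fin 2 → ℂ => nsq (fun c => u c + r * h c)) (G 2) := by
  simp_rw [nsq_expand]
  have h1 : Integrable (fun h : Fin 2 → ℂ => ∑ c, conj (u c) * r * h c) (G 2) :=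
    integrable_finsetSum _ fun c _ => (coord_intG c).const_mul _
  exact ((integrable_const _).add (nsq_intG.const_mul _)).add (h1.re.const_mul 2)

theorem nsq_shift_val (u : Fin 2 → ℂ) (r : ℂ) :
    ∫ h : Fin 2 → ℂ, nsq (fun c => u c + r * h c) ∂(G 2) = nsq u + 4 * ‖r‖ ^ 2 := by
  simp_rw [nsq_expand]
  have h1 : Integrable (fun h : Fin 2 → ℂ => ∑ c, conj (u c) * r * h c) (G 2) :=
    integrable_finsetSum _ fun c _ => (coord_intG c).const_mul _
  have h2 : Integrable (fun h : Fin 2 → ℂ => (∑ c, conj (u c) * r * h c).re) (G 2) := h1.re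
  have h3 : Integrable (fun h : Fin 2 → ℂ => nsq u + ‖r‖ ^ 2 * nsq h) (G 2) :=
    (integrable_const _).add (nsq_intG.const_mul _)
  have h4 : ∫ h : Fin 2 → ℂ, (∑ c, conj (u c) * r * h c).re ∂(G 2) = 0 := by
    have h5 : ∫ h : Fin 2 → ℂ, (∑ c, conj (u c) * r * h c) ∂(G 2) = 0 := by
      rw [integral_finsetSum _ fun c _ => (coord_intG c).const_mul _]
      refine Finset.sum_eq_zero fun c _ => ?_
      rw [integral_const_mul, meanG, mul_zero]
    have h6 := integral_re (𝕜 := ℂ) h1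
    simp only [RCLike.re_to_complex] at h6
    rw [h6, h5, Complex.zero_re]
  rw [integral_add h3 (h2.const_mul 2), integral_add (integrable_const _) (nsq_intG.const_mul _),
    integral_const_mul, integral_const_mul, h4, nsq_valG]
  simp
  ring

/-- rotations of pairs -/
theorem mp_rot (α β : ℂ) (h : α * conj α + β * conj β = 1) :
    MeasurePreserving (fun z : (Fin 2 → ℂ) × (Fin 2 → ℂ) =>
      ((fun c => α * z.1 c + β * z.2 c, fun c => -conj β * z.1 c + conj α * z.2 c) :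
        (Fin 2 → ℂ) × (Fin 2 → ℂ))) ((G 2).prod (G 2)) ((G 2).prod (G 2)) := by
  have h1 : MeasurePreserving (MeasurableEquiv.piFinTwo fun _ => (Fin 2 → ℂ)) (GM 2 2)
      ((G 2).prod (G 2)) := measurePreserving_piFinTwo fun _ => G 2
  have h2 := h1.symm
  have hU : (!![α, β; -conj β, conj α] : Matrix (Fin 2) (Fin 2) ℂ) *
      (!![α, β; -conj β, conj α] : Matrix (Fin 2) (Fin 2) ℂ)ᴴ = 1 := by
    ext i j
    rw [Matrix.mul_apply, Fin.sum_univ_two]
    simp only [Matrix.conjTranspose_apply]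
    fin_cases i <;> fin_cases j <;> simp
    · exact h
    · ring
    · ring
    · linear_combination h
  have h3 : MeasurePreserving (act (!![α, β; -conj β, conj α] : Matrix (Fin 2) (Fin 2) ℂ))
      (GM 2 2) (GM 2 2) := ⟨CVM.meas_act _, CVM.act_unitary 2 _ hU⟩
  have h4 := (h1.comp h3).comp h2
  have e : (fun z : (Fin 2 → ℂ) × (Fin 2 → ℂ) =>
      ((fun c => α * z.1 c + β * z.2 c, fun c => -conj β * z.1 c + conj α * z.2 c) :
        (Fin 2 → ℂ) × (Fin 2 → ℂ))) =
      ((⇑(MeasurableEquiv.piFinTwo fun _ => Fin 2 → ℂ) ∘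
        act !![α, β; -(starRingEnd ℂ) β, (starRingEnd ℂ) α]) ∘
      ⇑(MeasurableEquiv.piFinTwo fun _ => Fin 2 → ℂ).symm) := by
    funext z
    refine Prod.ext ?_ ?_
    · funext c
      simp [act, Fin.sum_univ_two]
    · funext c
      simp [act, Fin.sum_univ_two]
  rw [e]
  exact h4

/-- the test function -/
noncomputable def f (a b : ℝ) (z : Fin 2 → ℂ) : ℝ := Real.log (a + b * (nsq z / 2))

theorem meas_f (a b : ℝ) : Measurable (f a b) := by
  unfold f
  have := meas_nsq (n := 2)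
  fun_prop

theorem f_bound {a b : ℝ} (ha : 0 < a) (hb : 0 ≤ b) (z : Fin 2 → ℂ) :
    |f a b z| ≤ |Real.log a| + b / a * nsq z := by
  have hn := nsq_nonneg z
  have h1 : Real.log a ≤ f a b z := by
    unfold f
    exact Real.log_le_log ha (by nlinarith [mul_nonneg hb hn])
  have h2 : f a b z ≤ Real.log a + b / a * nsq z := by
    unfold f
    have e : a + b * (nsq z / 2) = a * (1 + b / a * nsq z / 2) := by
      field_simp
    have hp : 0 < 1 + b / a * nsq z / 2 := by positivity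
    rw [e, Real.log_mul ha.ne' hp.ne']
    have h3 := Real.log_le_sub_one_of_pos hp
    have h4 : 0 ≤ b / a * nsq z := by positivity
    linarith
  have h3 := neg_abs_le (Real.log a)
  have h4 := le_abs_self (Real.log a)
  have h5 : 0 ≤ b / a * nsq z := by positivity
  rw [abs_le]
  constructor <;> linarith

/-- functions of quadratic growth in the squared norms are integrable -/
theorem prod_int (Φ : (Fin 2 → ℂ) × (Fin 2 → ℂ) → ℝ) (hm : Measurable Φ) (K : ℝ)
    (hK : ∀ z, |Φ z| ≤ K * (1 + nsq z.1 ^ 2 + nsq z.2 ^ 2)) :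
    Integrable Φ ((G 2).prod (G 2)) := by
  have h1 : Integrable (fun z : (Fin 2 → ℂ) × (Fin 2 → ℂ) => nsq z.1 ^ 2) ((G 2).prod (G 2)) :=
    nsq2_intG.comp_fst (G 2)
  have h2 : Integrable (fun z : (Fin 2 → ℂ) × (Fin 2 → ℂ) => nsq z.2 ^ 2) ((G 2).prod (G 2)) :=
    nsq2_intG.comp_snd (G 2)
  have h3 : Integrable (fun z : (Fin 2 → ℂ) × (Fin 2 → ℂ) =>
      K * (1 + nsq z.1 ^ 2 + nsq z.2 ^ 2)) ((G 2).prod (G 2)) :=
    (((integrable_const _).add h1).add h2).const_mul K
  exact h3.mono' hm.aestronglyMeasurable (Eventually.of_forall hK)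

/-- the rotated integral -/
theorem rot_eval (a b s t : ℝ) (d' : ℂ) (ha : 0 < a) (hb : 0 ≤ b) (hs : 0 ≤ s)
    (hv : 0 < s + ‖d'‖ ^ 2) (h0 : 0 ≤ t) (h1 : t ≤ 1) :
    ∫ h, (∫ y, w t h * f a b (fun c => (Real.sqrt s : ℂ) * y c + d' * h c) ∂(G 2)) ∂(G 2)
      = ∫ y, f a b (fun c => (Real.sqrt (s + ‖d'‖ ^ 2) : ℂ) * y c) *
        (1 - t + t * s / (s + ‖d'‖ ^ 2) + t * ‖d'‖ ^ 2 / (s + ‖d'‖ ^ 2) * (nsq y / 4)) ∂(G 2) := by
  set v := s + ‖d'‖ ^ 2 with hvdef
  have hsv : 0 < Real.sqrt v := Real.sqrt_pos.2 hv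
  have mn := meas_nsq (n := 2)
  have mw := meas_w t
  have mf := meas_f a b
  have hsvC : (Real.sqrt v : ℂ) ≠ 0 := by exact_mod_cast hsv.ne'
  have hvv : (Real.sqrt v : ℂ) * (Real.sqrt v : ℂ) = (v : ℂ) := by
    rw [← Complex.ofReal_mul, Real.mul_self_sqrt hv.le]
  have hss : (Real.sqrt s : ℂ) * (Real.sqrt s : ℂ) = (s : ℂ) := by
    rw [← Complex.ofReal_mul, Real.mul_self_sqrt hs]
  have hvC : (v : ℂ) = s + d' * conj d' := by
    rw [hvdef, Complex.mul_conj']
    push_cast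
    rfl
  let Φ : (Fin 2 → ℂ) × (Fin 2 → ℂ) → ℝ := fun z =>
    w t z.2 * f a b (fun c => (Real.sqrt s : ℂ) * z.1 c + d' * z.2 c)
  have mΦ : Measurable Φ := by
    have m1 : Measurable fun z : (Fin 2 → ℂ) × (Fin 2 → ℂ) =>
        (fun c => (Real.sqrt s : ℂ) * z.1 c + d' * z.2 c : Fin 2 → ℂ) := by fun_prop
    exact (mw.comp measurable_snd).mul (mf.comp m1)
  have iΦ : Integrable Φ ((G 2).prod (G 2)) := by
    refine prod_int Φ mΦ ((|Real.log a| + b / a * (2 * s + 2 * ‖d'‖ ^ 2 + 1)) * 6) ?_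
    rintro ⟨y, h⟩
    have hy := nsq_nonneg y
    have hh := nsq_nonneg h
    have hb1 := f_bound ha hb (fun c => (Real.sqrt s : ℂ) * y c + d' * h c)
    have hb2 : nsq (fun c => (Real.sqrt s : ℂ) * y c + d' * h c)
        ≤ 2 * s * nsq y + 2 * ‖d'‖ ^ 2 * nsq h := by
      unfold nsq
      rw [Finset.mul_sum, Finset.mul_sum, ← Finset.sum_add_distrib]
      refine Finset.sum_le_sum fun c _ => ?_
      have hn := norm_add_le ((Real.sqrt s : ℂ) * y c) (d' * h c)
      rw [norm_mul, norm_mul, Complex.norm_real, Real.norm_eq_abs,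
        abs_of_nonneg (Real.sqrt_nonneg s)] at hn
      have hq : Real.sqrt s ^ 2 = s := Real.sq_sqrt hs
      have hp := norm_nonneg ((Real.sqrt s : ℂ) * y c + d' * h c)
      have hn2 := pow_le_pow_left₀ hp hn 2
      nlinarith [sq_nonneg (Real.sqrt s * ‖y c‖ - ‖d'‖ * ‖h c‖)]
    have hw0 := w_nonneg h0 h1 h
    have hw1 : w t h ≤ 1 + nsq h := by
      unfold w
      nlinarith
    show |w t h * f a b (fun c => (Real.sqrt s : ℂ) * y c + d' * h c)| ≤ _
    rw [abs_mul, abs_of_nonneg hw0]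
    have hba : 0 ≤ b / a := by positivity
    have hla := abs_nonneg (Real.log a)
    have hd := sq_nonneg ‖d'‖
    have hC : 0 ≤ 2 * s + 2 * ‖d'‖ ^ 2 + 1 := by positivity
    have hb3 : |f a b (fun c => (Real.sqrt s : ℂ) * y c + d' * h c)|
        ≤ (|Real.log a| + b / a * (2 * s + 2 * ‖d'‖ ^ 2 + 1)) * (1 + nsq y + nsq h) := by
      have e1 : b / a * nsq (fun c => (Real.sqrt s : ℂ) * y c + d' * h c)
          ≤ b / a * ((2 * s + 2 * ‖d'‖ ^ 2 + 1) * (1 + nsq y + nsq h)) := by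
        refine mul_le_mul_of_nonneg_left (hb2.trans ?_) hba
        nlinarith [mul_nonneg hs hh, mul_nonneg hd hy, mul_nonneg hs hy, mul_nonneg hd hh]
      nlinarith [mul_nonneg hla (add_nonneg hy hh)]
    have hM : 0 ≤ |Real.log a| + b / a * (2 * s + 2 * ‖d'‖ ^ 2 + 1) := by positivity
    calc w t h * |f a b (fun c => (Real.sqrt s : ℂ) * y c + d' * h c)|
        ≤ (1 + nsq h) * ((|Real.log a| + b / a * (2 * s + 2 * ‖d'‖ ^ 2 + 1)) *
          (1 + nsq y + nsq h)) := by
          refine mul_le_mul hw1 hb3 (abs_nonneg _) (by positivity)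
      _ = (|Real.log a| + b / a * (2 * s + 2 * ‖d'‖ ^ 2 + 1)) *
          ((1 + nsq h) * (1 + nsq y + nsq h)) := by ring
      _ ≤ (|Real.log a| + b / a * (2 * s + 2 * ‖d'‖ ^ 2 + 1)) *
          (6 * (1 + nsq y ^ 2 + nsq h ^ 2)) := by
          refine mul_le_mul_of_nonneg_left ?_ hM
          nlinarith [sq_nonneg (nsq h - 1), sq_nonneg (nsq y - 1), sq_nonneg (nsq h - nsq y)]
      _ = _ := by ring
  -- the rotation
  let α : ℂ := (Real.sqrt s : ℂ) / (Real.sqrt v : ℂ)
  let β : ℂ := -d' / (Real.sqrt v : ℂ)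
  have hαc : conj α = α := by
    simp only [α, map_div₀, Complex.conj_ofReal]
  have hβc : conj β = -conj d' / (Real.sqrt v : ℂ) := by
    simp only [β, map_div₀, map_neg, Complex.conj_ofReal]
  have hab : α * conj α + β * conj β = 1 := by
    rw [hαc, hβc]
    simp only [α, β]
    rw [div_mul_div_comm, div_mul_div_comm, hvv, hss, neg_mul_neg, ← add_div, ← hvC]
    exact div_self (by exact_mod_cast hv.ne')
  have mp := mp_rot α β hab
  have e1 : ∫ h, (∫ y, w t h * f a b (fun c => (Real.sqrt s : ℂ) * y c + d' * h c) ∂(G 2)) ∂(G 2)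
      = ∫ z, Φ z ∂((G 2).prod (G 2)) := (integral_prod_symm Φ iΦ).symm
  have e2 : ∫ z, Φ z ∂((G 2).prod (G 2)) = ∫ z : (Fin 2 → ℂ) × (Fin 2 → ℂ),
      Φ (fun c => α * z.1 c + β * z.2 c, fun c => -conj β * z.1 c + conj α * z.2 c)
        ∂((G 2).prod (G 2)) := by
    conv_lhs => rw [← mp.map_eq]
    rw [integral_map mp.measurable.aemeasurable mΦ.aestronglyMeasurable]
  have iΦ2 : Integrable (fun z : (Fin 2 → ℂ) × (Fin 2 → ℂ) =>
      Φ (fun c => α * z.1 c + β * z.2 c, fun c => -conj β * z.1 c + conj α * z.2 c))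
        ((G 2).prod (G 2)) := mp.integrable_comp_of_integrable iΦ
  have e3 : ∀ z : (Fin 2 → ℂ) × (Fin 2 → ℂ),
      Φ (fun c => α * z.1 c + β * z.2 c, fun c => -conj β * z.1 c + conj α * z.2 c)
      = f a b (fun c => (Real.sqrt v : ℂ) * z.1 c) *
        w t (fun c => (-conj β * z.1 c) + conj α * z.2 c) := by
    intro z
    simp only [Φ]
    rw [mul_comm]
    congr 2
    funext c
    have k1 : (Real.sqrt s : ℂ) * α + d' * (-conj β) = (Real.sqrt v : ℂ) := by
      rw [hβc]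
      simp only [α]
      field_simp
      rw [← pow_two] at hss
      rw [hss, sq, hvv, hvC]
    have k2 : (Real.sqrt s : ℂ) * β + d' * conj α = 0 := by
      rw [hαc]
      simp only [α, β]
      ring
    linear_combination z.1 c * k1 + z.2 c * k2
  rw [e1, e2, integral_prod _ iΦ2]
  refine integral_congr_ae (Eventually.of_forall fun y => ?_)
  have e5 : ∀ h : Fin 2 → ℂ,
      Φ (fun c => α * y c + β * h c, fun c => -conj β * y c + conj α * h c)
      = f a b (fun c => (Real.sqrt v : ℂ) * y c) *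
        w t (fun c => (-conj β * y c) + conj α * h c) := fun h => e3 (y, h)
  show ∫ h, Φ (fun c => α * y c + β * h c, fun c => -conj β * y c + conj α * h c) ∂(G 2) = _
  simp_rw [e5]
  rw [integral_const_mul]
  congr 1
  unfold w
  have e4 : ∀ h : Fin 2 → ℂ, 1 - t + t * nsq (fun c => (-conj β * y c) + conj α * h c) / 4
      = (1 - t) + t / 4 * nsq (fun c => (-conj β * y c) + conj α * h c) := fun h => by ring
  simp_rw [e4]
  rw [integral_add (integrable_const _) ((nsq_shift_int _ _).const_mul _), integral_const_mul,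
    nsq_shift_val, nsq_smul]
  have nα : ‖conj α‖ ^ 2 = s / v := by
    rw [RCLike.norm_conj]
    simp only [α]
    rw [norm_div, Complex.norm_real, Complex.norm_real, Real.norm_eq_abs, Real.norm_eq_abs,
      div_pow, sq_abs, sq_abs, Real.sq_sqrt hs, Real.sq_sqrt hv.le]
  have nβ : ‖-conj β‖ ^ 2 = ‖d'‖ ^ 2 / v := by
    rw [norm_neg, RCLike.norm_conj]
    simp only [β]
    rw [norm_div, norm_neg, Complex.norm_real, Real.norm_eq_abs,
      div_pow, sq_abs, Real.sq_sqrt hv.le]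
  rw [nα, nβ]
  simp
  ring

theorem emb (r : ℂ) (hr : r ≠ 0) :
    MeasurableEmbedding fun h : Fin 2 → ℂ => fun c => r * h c :=
  (Homeomorph.smulOfNeZero (α := Fin 2 → ℂ) r hr).measurableEmbedding

theorem first (a b s t : ℝ) (d : ℂ) (h0 : 0 ≤ t) (h1 : t ≤ 1) :
    ∫ h, (∫ y, Real.log (a + b * (nsq (fun c => (Real.sqrt s : ℂ) * y c + d * h c) / 2)) ∂(G 2))
      ∂(bm t) = ∫ h, (∫ y, w t h * f a b (fun c => (Real.sqrt s : ℂ) * y c +
        (d * ((Real.sqrt (1 + t / 2) : ℂ))⁻¹) * h c) ∂(G 2)) ∂(G 2) := by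
  have hc : 0 < 1 + t / 2 := by positivity
  have hs : 0 < Real.sqrt (1 + t / 2) := Real.sqrt_pos.2 hc
  have hsc : ((Real.sqrt (1 + t / 2) : ℂ))⁻¹ ≠ 0 := inv_ne_zero (by exact_mod_cast hs.ne')
  rw [bm_map t h0 h1, (emb _ hsc).integral_map,
    integral_withDensity_eq_integral_toReal_smul ((meas_w t).ennreal_ofReal)
      (Eventually.of_forall fun _ => ENNReal.ofReal_lt_top)]
  refine integral_congr_ae (Eventually.of_forall fun h => ?_)
  simp only [smul_eq_mul]
  rw [ENNReal.toReal_ofReal (w_nonneg h0 h1 h), ← integral_const_mul]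
  refine integral_congr_ae (Eventually.of_forall fun y => ?_)
  simp only [f, mul_assoc]

theorem radial (a b A B v : ℝ) (ha : 0 < a) (hb : 0 ≤ b) (hv : 0 < v) :
    ∫ y, f a b (fun c => (Real.sqrt v : ℂ) * y c) * (A + B * (nsq y / 4)) ∂(G 2)
      = A * L0 a (b * v) + B * L1 a (b * v) := by
  have h := integral_eq 0 le_rfl zero_le_one
    (fun x : ℝ => Real.log (a + b * v * x) * (A + B * (x / 2))) (by fun_prop)
  rw [bm_zero] at h
  have e1 : ∀ y : Fin 2 → ℂ, f a b (fun c => (Real.sqrt v : ℂ) * y c) * (A + B * (nsq y / 4))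
      = (fun x : ℝ => Real.log (a + b * v * x) * (A + B * (x / 2))) ((1 + 0 / 2) * nsq y / 2) := by
    intro y
    unfold f
    rw [nsq_smul, Complex.norm_real, Real.norm_eq_abs, sq_abs, Real.sq_sqrt hv.le]
    simp only
    congr 2
    · ring
    · ring
  simp_rw [e1]
  rw [h]
  have hbv : 0 ≤ b * v := mul_nonneg hb hv.le
  have hac : 0 < a + b * v := by linarith
  have i0 := VOneM.int_log 0 ha.le hbv hac
  have i1 := VOneM.int_log 1 ha.le hbv hac
  have e2 : ∀ x : ℝ, rd 0 x * (Real.log (a + b * v * x) * (A + B * (x / 2)))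
      = A * (x ^ (0 + 1) * Real.exp (-x) * Real.log (a + b * v * x)) +
        B / 2 * (x ^ (1 + 1) * Real.exp (-x) * Real.log (a + b * v * x)) := by
    intro x
    unfold rd
    ring
  simp_rw [e2]
  rw [integral_add (i0.const_mul A) (i1.const_mul (B / 2)), integral_const_mul,
    integral_const_mul]
  congr 1
  · congr 1
    unfold L0
    refine integral_congr_ae (Eventually.of_forall fun x => ?_)
    simp only
    ring
  · unfold L1
    rw [← integral_const_mul, ← integral_const_mul]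
    refine integral_congr_ae (Eventually.of_forall fun x => ?_)
    simp only
    ring

end SpeM

open SpeM in
theorem specSpe : SpecSpe := by
  intro a b s t d ha hb hs hv h0 h1
  have hc : 0 < 1 + t / 2 := by positivity
  have hsq : 0 < Real.sqrt (1 + t / 2) := Real.sqrt_pos.2 hc
  have hd' : ‖d * ((Real.sqrt (1 + t / 2) : ℂ))⁻¹‖ ^ 2 = ‖d‖ ^ 2 / (1 + t / 2) := by
    rw [norm_mul, norm_inv, Complex.norm_real, Real.norm_eq_abs, mul_pow, inv_pow, sq_abs,
      Real.sq_sqrt hc.le]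
    exact (div_eq_mul_inv _ _).symm
  have hdn : 0 ≤ ‖d‖ ^ 2 := by positivity
  have hv' : 0 < s + ‖d‖ ^ 2 / (1 + t / 2) := by
    rcases lt_or_eq_of_le hs with h | h
    · positivity
    · rw [← h] at hv ⊢
      have : 0 < ‖d‖ ^ 2 := by linarith
      positivity
  have hvK : s + ‖d‖ ^ 2 / (1 + t / 2) ≤ s + ‖d‖ ^ 2 := by
    have : ‖d‖ ^ 2 / (1 + t / 2) ≤ ‖d‖ ^ 2 := div_le_self hdn (by linarith)
    linarith
  rw [first a b s t d h0 h1, rot_eval a b s t _ ha hb hs (by rw [hd']; exact hv') h0 h1, hd',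
    specVOne.formula a b _ _ ha.le hb (by linarith) hv' hvK]
  set v := s + ‖d‖ ^ 2 / (1 + t / 2) with hvdef
  rw [radial a b _ _ v ha hb hv']
  have e1 : s + ‖d‖ ^ 2 - v = t / 2 * (‖d‖ ^ 2 / (1 + t / 2)) := by
    rw [hvdef]
    field_simp
    ring
  have e2 : s / v = 1 - ‖d‖ ^ 2 / (1 + t / 2) / v := by
    rw [eq_sub_iff_add_eq, ← add_div, ← hvdef, div_self hv'.ne']
  rw [e1]
  have e3 : 1 - t + t * s / v = 1 - 2 * (t / 2 * (‖d‖ ^ 2 / (1 + t / 2))) / v := by
    rw [mul_div_assoc, e2]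
    ring
  rw [e3]
  ring

end CholB
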