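import Pool.Agent.Lib.MP_6947cd_al.B.Bm0
import Pool.Agent.Lib.MP_6947cd_al.B.Conc1
import Pool.Agent.Lib.MP_6947cd_al.B.Spe

/-!
Laplace transforms of the Gaussian and of the biased law (module CONC).
-/

set_option autoImplicit false

open MeasureTheory ProbabilityTheory Set Matrix Filter Topology
open scoped ENNReal ComplexConjugate ComplexOrder

namespace CholB
namespace ConcM

open MPf1e3 (cg G GM nsq)
open MPf1e3.G1 MPf1e3.G2 Bm0 Conc1

lemma norm_sub_sq (z w : ℂ) : ‖z - w‖ ^ 2 = ‖z‖ ^ 2 - 2 * (conj w * z).re + ‖w‖ ^ 2 := by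
  rw [← Complex.normSq_eq_norm_sq, ← Complex.normSq_eq_norm_sq, ← Complex.normSq_eq_norm_sq,
    Complex.normSq_apply, Complex.normSq_apply, Complex.normSq_apply]
  simp
  ring

lemma cg_shift (w : ℂ) (F : ℂ → ℝ≥0∞) (hF : Measurable F) :
    ∫⁻ z, F z * ENNReal.ofReal (Real.exp ((conj w * z).re)) ∂cg
      = ENNReal.ofReal (Real.exp (‖w‖ ^ 2 / 2)) * ∫⁻ z, F (z + w) ∂cg := by
  rw [cg_density _ (by fun_prop), cg_density _ (by fun_prop)]
  rw [← lintegral_add_right_eq_self (fun z : ℂ => F z * ENNReal.ofReal (Real.exp ((conj w * z).re)) *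
      ENNReal.ofReal ((2 * Real.pi)⁻¹ * Real.exp (-(1 / 2) * ‖z‖ ^ 2))) w]
  rw [← lintegral_const_mul _ (by fun_prop)]
  refine lintegral_congr fun z => ?_
  rw [mul_assoc, mul_left_comm (ENNReal.ofReal (Real.exp (‖w‖ ^ 2 / 2)))]
  congr 1
  rw [← ENNReal.ofReal_mul (Real.exp_nonneg _), ← ENNReal.ofReal_mul (Real.exp_nonneg _)]
  congr 1
  have h1 := norm_sub_sq (z + w) w
  rw [add_sub_cancel_right] at h1
  rw [mul_left_comm, mul_left_comm (Real.exp (‖w‖ ^ 2 / 2)), ← Real.exp_add, ← Real.exp_add]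
  congr 2
  rw [h1]
  ring

lemma shift2 (w : Fin 2 → ℂ) (F : (Fin 2 → ℂ) → ℝ≥0∞) (hF : Measurable F) :
    ∫⁻ y, F y * ENNReal.ofReal (Real.exp ((∑ c, conj (w c) * y c).re)) ∂(G 2)
      = ENNReal.ofReal (Real.exp (nsq w / 2)) * ∫⁻ y, F (fun c => y c + w c) ∂(G 2) := by
  have hFp : Measurable fun p : ℂ × ℂ => F ![p.1, p.2] := hF.comp meas_pair
  have mFw : Measurable fun y : Fin 2 → ℂ => F (fun c => y c + w c) := hF.comp (by fun_prop)
  rw [lint_G2 _ (by fun_prop), lint_G2 _ mFw]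
  have e1 : ∀ z : ℂ, ∫⁻ v, F ![z, v] *
      ENNReal.ofReal (Real.exp ((∑ c, conj (w c) * (![z, v] : Fin 2 → ℂ) c).re)) ∂cg
      = (ENNReal.ofReal (Real.exp (‖w 1‖ ^ 2 / 2)) * ∫⁻ v, F ![z, v + w 1] ∂cg) *
        ENNReal.ofReal (Real.exp ((conj (w 0) * z).re)) := by
    intro z
    have mz : Measurable fun v : ℂ => F ![z, v] :=
      hFp.comp (by fun_prop : Measurable fun v : ℂ => (z, v))
    rw [← cg_shift (w 1) (fun v => F ![z, v]) mz, ← lintegral_mul_const _ (by fun_prop)]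
    refine lintegral_congr fun v => ?_
    rw [mul_assoc, ← ENNReal.ofReal_mul (Real.exp_nonneg _), ← Real.exp_add, Fin.sum_univ_two]
    congr 3
    simp
    ring
  simp_rw [e1]
  have m3 : Measurable fun z : ℂ => ENNReal.ofReal (Real.exp (‖w 1‖ ^ 2 / 2)) *
      ∫⁻ v, F ![z, v + w 1] ∂cg := by
    refine Measurable.const_mul ?_ _
    refine Measurable.lintegral_prod_right' (f := fun p : ℂ × ℂ => F ![p.1, p.2 + w 1]) ?_
    exact hFp.comp (by fun_prop : Measurable fun p : ℂ × ℂ => (p.1, p.2 + w 1))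
  rw [cg_shift (w 0) _ m3, lintegral_const_mul _ (by
    refine Measurable.lintegral_prod_right' (f := fun p : ℂ × ℂ => F ![p.1 + w 0, p.2 + w 1]) ?_
    exact hFp.comp (by fun_prop : Measurable fun p : ℂ × ℂ => (p.1 + w 0, p.2 + w 1))),
    ← mul_assoc, ← ENNReal.ofReal_mul (Real.exp_nonneg _), ← Real.exp_add, nsq2]
  congr 2
  · congr 1; ring
  · funext z
    refine lintegral_congr fun v => ?_
    congr 1
    funext c
    fin_cases c <;> rfl

/-- the general tilted integral -/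
lemma gen (u : ℝ) (hu : 0 ≤ u) (x : Fin 2 → ℂ) (d : ℂ) (F : (Fin 2 → ℂ) → ℝ≥0∞)
    (hF : Measurable F) :
    ∫⁻ y, F y * ENNReal.ofReal (Real.exp (-u * (nsq (fun c => x c + d * y c) / 2))) ∂(G 2)
      = ENNReal.ofReal (ph (nsq x / 2) (‖d‖ ^ 2) u) *
        ∫⁻ y, F (fun c => ((Real.sqrt (Conc1.w (‖d‖ ^ 2) u) : ℝ) : ℂ) *
          (y c + -((u * Real.sqrt (Conc1.w (‖d‖ ^ 2) u) : ℝ) : ℂ) * conj d * x c)) ∂(G 2) := by
  set s := ‖d‖ ^ 2 with hs
  have hs0 : 0 ≤ s := by positivity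
  set W := Conc1.w s u with hW
  have hWpos : 0 < W := w_pos hs0 hu
  set σ := Real.sqrt W with hσ
  have hσpos : 0 < σ := Real.sqrt_pos.2 hWpos
  have hσ2 : σ ^ 2 = W := Real.sq_sqrt hWpos.le
  have hW1 : W * (1 + s * u) = 1 := by
    rw [hW]; unfold Conc1.w
    exact inv_mul_cancel₀ (by positivity)
  have mn := Bm0.meas_nsq (n := 2)
  have e1 : ∀ y : Fin 2 → ℂ, F y * ENNReal.ofReal (Real.exp (-u * (nsq (fun c => x c + d * y c) / 2)))
      = (ENNReal.ofReal (Real.exp (-u * (nsq x / 2))) * (F y *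
        ENNReal.ofReal (Real.exp ((∑ c, -(u : ℂ) * d * conj (x c) * y c).re)))) *
        ENNReal.ofReal (Real.exp (-(u * s / 2) * nsq y)) := by
    intro y
    rw [SpeM.nsq_expand, mul_left_comm, mul_assoc, ← ENNReal.ofReal_mul (Real.exp_nonneg _),
      ← ENNReal.ofReal_mul (by positivity), ← Real.exp_add, ← Real.exp_add]
    congr 3
    have : (∑ c, -(u : ℂ) * d * conj (x c) * y c) = -(u : ℂ) * ∑ c, conj (x c) * d * y c := by
      rw [Finset.mul_sum]
      refine Finset.sum_congr rfl fun c _ => ?_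
      ring
    rw [this]
    have h2 : (-(u : ℂ) * ∑ c, conj (x c) * d * y c).re = -u * (∑ c, conj (x c) * d * y c).re := by
      rw [← Complex.ofReal_neg, Complex.re_ofReal_mul]
    rw [h2]
    ring
  simp_rw [e1]
  have mexp : Measurable fun y : Fin 2 → ℂ => ENNReal.ofReal
      (Real.exp ((∑ c, -(u : ℂ) * d * conj (x c) * y c).re)) := by fun_prop
  rw [tilt2 σ (u * s) hσpos (by rw [hσ2]; linarith) _ (by fun_prop)]
  have e2 : ∀ y : Fin 2 → ℂ, ENNReal.ofReal
      (Real.exp ((∑ c, -(u : ℂ) * d * conj (x c) * ((σ : ℂ) * y c)).re))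
      = ENNReal.ofReal (Real.exp ((∑ c, conj (-((u * σ : ℝ) : ℂ) * conj d * x c) * y c).re)) := by
    intro y
    congr 4
    funext c
    simp only [map_mul, map_neg, Complex.conj_ofReal, Complex.conj_conj]
    push_cast
    ring
  simp_rw [e2]
  have mFσ : Measurable fun y : Fin 2 → ℂ => F (fun c => (σ : ℂ) * y c) := hF.comp (by fun_prop)
  rw [lintegral_const_mul _ (by fun_prop)]
  rw [shift2 (fun c => -((u * σ : ℝ) : ℂ) * conj d * x c) _ mFσ]
  rw [← mul_assoc, ← mul_assoc, ← ENNReal.ofReal_mul (by positivity),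
    ← ENNReal.ofReal_mul (by positivity)]
  congr 2
  have hn : nsq (fun c => -((u * σ : ℝ) : ℂ) * conj d * x c) = u ^ 2 * W * s * nsq x := by
    rw [SpeM.nsq_smul (-((u * σ : ℝ) : ℂ) * conj d) x, norm_mul, norm_neg, Complex.norm_real,
      Complex.norm_conj, mul_pow, Real.norm_eq_abs, sq_abs, mul_pow, hσ2, ← hs]
  rw [hn, mul_assoc, ← Real.exp_add]
  unfold ph ex
  rw [← hW]
  congr 1
  · rw [← hσ2]; ring
  · congr 1
    have : W * s * u = 1 - W := by linarith
    have h3 : u ^ 2 * W * s = u * (1 - W) := by rw [← this]; ring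
    rw [h3]
    ring

lemma exp_le_one' (u : ℝ) (hu : 0 ≤ u) (z : Fin 2 → ℂ) : Real.exp (-u * (nsq z / 2)) ≤ 1 := by
  apply Real.exp_le_one_iff.2
  have := Bm0.nsq_nonneg z
  have : 0 ≤ u * (nsq z / 2) := by positivity
  linarith

lemma meas_expf (u : ℝ) (x : Fin 2 → ℂ) (d : ℂ) : Measurable fun y : Fin 2 → ℂ =>
    Real.exp (-u * (nsq (fun c => x c + d * y c) / 2)) := by
  have mn := Bm0.meas_nsq (n := 2)
  have mn2 : Measurable fun y : Fin 2 → ℂ => nsq (fun c => x c + d * y c) := mn.comp (by fun_prop)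
  fun_prop

/-- Laplace transform of the Gaussian law -/
lemma lapG (u : ℝ) (hu : 0 ≤ u) (x : Fin 2 → ℂ) (d : ℂ) :
    ∫ y, Real.exp (-u * (nsq (fun c => x c + d * y c) / 2)) ∂(G 2)
      = ph (nsq x / 2) (‖d‖ ^ 2) u := by
  rw [integral_eq_lintegral_of_nonneg_ae (Eventually.of_forall fun _ => (Real.exp_pos _).le)
    (meas_expf u x d).aestronglyMeasurable]
  have h := gen u hu x d (fun _ => 1) measurable_const
  simp only [one_mul] at h
  rw [h]
  have : IsProbabilityMeasure (G 2) := SpeM.prob_G2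
  simp only [lintegral_const, measure_univ, mul_one]
  exact ENNReal.toReal_ofReal (ph_nonneg (by positivity) hu)

lemma nsq_scaled (σ : ℝ) (y x : Fin 2 → ℂ) (e : ℂ) :
    nsq (fun c => (σ : ℂ) * (y c + e * x c)) = σ ^ 2 * nsq (fun c => e * x c + 1 * y c) := by
  rw [SpeM.nsq_smul (σ : ℂ) (fun c => y c + e * x c), Complex.norm_real, Real.norm_eq_abs, sq_abs]
  congr 2
  funext c
  ring

/-- weighted Laplace transform of the Gaussian law -/
lemma lapW (u : ℝ) (hu : 0 ≤ u) (x : Fin 2 → ℂ) (d : ℂ) :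
    ∫ y, nsq y * Real.exp (-u * (nsq (fun c => x c + d * y c) / 2)) ∂(G 2)
      = ph (nsq x / 2) (‖d‖ ^ 2) u * (4 * Conc1.w (‖d‖ ^ 2) u
        + 2 * u ^ 2 * Conc1.w (‖d‖ ^ 2) u ^ 2 * ‖d‖ ^ 2 * (nsq x / 2)) := by
  have mn := Bm0.meas_nsq (n := 2)
  have mn2 : Measurable fun y : Fin 2 → ℂ => nsq (fun c => x c + d * y c) := mn.comp (by fun_prop)
  have hs0 : 0 ≤ ‖d‖ ^ 2 := by positivity
  have hWpos : 0 < Conc1.w (‖d‖ ^ 2) u := w_pos hs0 hu
  set W := Conc1.w (‖d‖ ^ 2) u with hW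
  have hσ2 : Real.sqrt W ^ 2 = W := Real.sq_sqrt hWpos.le
  rw [integral_eq_lintegral_of_nonneg_ae (Eventually.of_forall fun y =>
    mul_nonneg (Bm0.nsq_nonneg y) (Real.exp_pos _).le)
    (mn.mul (meas_expf u x d)).aestronglyMeasurable]
  have h := gen u hu x d (fun y => ENNReal.ofReal (nsq y)) (by fun_prop)
  have e1 : ∀ y : Fin 2 → ℂ, ENNReal.ofReal (nsq y *
      Real.exp (-u * (nsq (fun c => x c + d * y c) / 2))) = ENNReal.ofReal (nsq y) *
      ENNReal.ofReal (Real.exp (-u * (nsq (fun c => x c + d * y c) / 2))) := fun y =>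
    ENNReal.ofReal_mul (Bm0.nsq_nonneg y)
  simp_rw [e1]
  rw [h, ← hW]
  set e : ℂ := -((u * Real.sqrt W : ℝ) : ℂ) * conj d with he
  have hint : Integrable (fun y : Fin 2 → ℂ =>
      nsq (fun c => ((Real.sqrt W : ℝ) : ℂ) * (y c + e * x c))) (G 2) := by
    simp_rw [nsq_scaled]
    exact (SpeM.nsq_shift_int (fun c => e * x c) 1).const_mul _
  rw [← ofReal_integral_eq_lintegral_ofReal hint (Eventually.of_forall fun y => Bm0.nsq_nonneg _)]
  have hval : ∫ y : Fin 2 → ℂ, nsq (fun c => ((Real.sqrt W : ℝ) : ℂ) * (y c + e * x c)) ∂(G 2)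
      = W * (u ^ 2 * W * ‖d‖ ^ 2 * nsq x + 4) := by
    simp_rw [nsq_scaled]
    rw [integral_const_mul, SpeM.nsq_shift_val, hσ2, SpeM.nsq_smul e x]
    rw [he, norm_mul, norm_neg, Complex.norm_real, Complex.norm_conj, mul_pow, Real.norm_eq_abs,
      sq_abs, mul_pow, hσ2]
    simp
  rw [hval, ← ENNReal.ofReal_mul (ph_nonneg hs0 hu), ENNReal.toReal_ofReal]
  · ring
  · have := ph_nonneg (X := nsq x / 2) hs0 hu
    have := Bm0.nsq_nonneg x
    positivity

/-- Laplace transform of the biased law -/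
lemma lapB (t : ℝ) (h0 : 0 ≤ t) (h1 : t ≤ 1) (u : ℝ) (hu : 0 ≤ u) (x : Fin 2 → ℂ) (d : ℂ) :
    ∫ y, Real.exp (-u * (nsq (fun c => x c + d * y c) / 2)) ∂(bm t)
      = ph (nsq x / 2) (‖d‖ ^ 2 / (1 + t / 2)) u
        + (‖d‖ ^ 2 - ‖d‖ ^ 2 / (1 + t / 2)) * ph1 (nsq x / 2) (‖d‖ ^ 2 / (1 + t / 2)) u := by
  have mn := Bm0.meas_nsq (n := 2)
  have hc : 0 < 1 + t / 2 := by linarith
  set d' : ℂ := d * ((Real.sqrt (1 + t / 2) : ℂ))⁻¹ with hd'
  have hd2 : ‖d'‖ ^ 2 = ‖d‖ ^ 2 / (1 + t / 2) := by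
    rw [hd', norm_mul, norm_inv, Complex.norm_real, mul_pow, inv_pow, Real.norm_eq_abs, sq_abs,
      Real.sq_sqrt hc.le]
    rfl
  have mn2 : Measurable fun y : Fin 2 → ℂ => nsq (fun c => x c + d' * y c) := mn.comp (by fun_prop)
  have mn3 : Measurable fun y : Fin 2 → ℂ => nsq (fun c => x c + d * y c) := mn.comp (by fun_prop)
  have mscale : Measurable fun (h : Fin 2 → ℂ) (c : Fin 2) =>
      ((Real.sqrt (1 + t / 2) : ℂ))⁻¹ * h c := by fun_prop
  rw [SpeM.bm_map t h0 h1, integral_map mscale.aemeasurable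
    (meas_expf u x d).aestronglyMeasurable]
  have mw := SpeM.meas_w t
  rw [integral_withDensity_eq_integral_toReal_smul mw.ennreal_ofReal
    (Eventually.of_forall fun _ => ENNReal.ofReal_lt_top)]
  have e1 : ∀ y : Fin 2 → ℂ, (ENNReal.ofReal (SpeM.w t y)).toReal •
      Real.exp (-u * (nsq (fun c => x c + d * (((Real.sqrt (1 + t / 2) : ℂ))⁻¹ * y c)) / 2))
      = (1 - t) * Real.exp (-u * (nsq (fun c => x c + d' * y c) / 2))
        + t / 4 * (nsq y * Real.exp (-u * (nsq (fun c => x c + d' * y c) / 2))) := by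
    intro y
    rw [ENNReal.toReal_ofReal (SpeM.w_nonneg h0 h1 y), smul_eq_mul]
    have : (fun c => x c + d * (((Real.sqrt (1 + t / 2) : ℂ))⁻¹ * y c))
        = fun c => x c + d' * y c := by
      funext c; rw [hd']; ring
    rw [this]
    unfold SpeM.w
    ring
  simp_rw [e1]
  have i1 : Integrable (fun y : Fin 2 → ℂ =>
      Real.exp (-u * (nsq (fun c => x c + d' * y c) / 2))) (G 2) := by
    refine Integrable.mono' (integrable_const (1 : ℝ)) (meas_expf u x d').aestronglyMeasurable ?_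
    refine Eventually.of_forall fun y => ?_
    rw [Real.norm_eq_abs, abs_of_pos (Real.exp_pos _)]
    exact exp_le_one' u hu _
  have i2 : Integrable (fun y : Fin 2 → ℂ =>
      nsq y * Real.exp (-u * (nsq (fun c => x c + d' * y c) / 2))) (G 2) := by
    refine Integrable.mono' SpeM.nsq_intG (mn.mul (meas_expf u x d')).aestronglyMeasurable ?_
    refine Eventually.of_forall fun y => ?_
    rw [norm_mul, Real.norm_eq_abs, Real.norm_eq_abs, abs_of_pos (Real.exp_pos _),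
      abs_of_nonneg (Bm0.nsq_nonneg y)]
    exact mul_le_of_le_one_right (Bm0.nsq_nonneg y) (exp_le_one' u hu _)
  rw [integral_add (i1.const_mul _) (i2.const_mul _), integral_const_mul, integral_const_mul,
    lapG u hu x d', lapW u hu x d', hd2]
  set s' := ‖d‖ ^ 2 / (1 + t / 2) with hs'
  have hs0 : 0 ≤ s' := by positivity
  have hs1 : ‖d‖ ^ 2 - s' = s' * (t / 2) := by
    rw [hs']; field_simp; ring
  rw [hs1]
  have hW1 : Conc1.w s' u * (1 + s' * u) = 1 := by
    unfold Conc1.w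
    exact inv_mul_cancel₀ (by positivity)
  unfold ph ph1
  generalize ex (nsq x / 2) s' u = E at *
  generalize Conc1.w s' u = W at *
  linear_combination (W ^ 2 * E * t) * hW1

end ConcM
end CholB
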