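import Pool.Agent.Lib.MP_f1e3b4_an.Gam
import Pool.Agent.Lib.MP_6947cd_al.Step

/-!
Problem MP_6947cd_al (Chollet).  Definitions for Theorem S (lower bound for `log per A`).
Gaussian conventions of `Lib/MP_f1e3b4_an`: `cg` complex Gaussian with `E|z|^2 = 2`,
`G n` its `n`-fold product, `GM N n` the law of `N` independent rows of length `n`,
`nsq` the squared norm of a vector.  `GM n 2` : the index in `Fin n` is the coordinate, the index
in `Fin 2` is the colour.
-/

set_option autoImplicit false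

open MeasureTheory ProbabilityTheory Set Matrix
open scoped ENNReal ComplexConjugate ComplexOrder

namespace CholB

open MPf1e3 (cg G GM nsq)

/-- a matrix acting on configurations (on the coordinate index, the same for both colours) -/
def act {n : ℕ} (V : Matrix (Fin n) (Fin n) ℂ) (g : Fin n → Fin 2 → ℂ) : Fin n → Fin 2 → ℂ :=
  fun i c => ∑ u, V i u * g u c

/-- the factor of a row -/
noncomputable def li (θ : ℝ) (z : Fin 2 → ℂ) : ℝ := (1 - θ) + θ / 4 * nsq z

/-- `∫ x e^{-x} log (a + b x)` -/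
noncomputable def L0 (a b : ℝ) : ℝ :=
  ∫ x in Ioi (0 : ℝ), x * Real.exp (-x) * Real.log (a + b * x)

/-- `∫ (x^2/2) e^{-x} log (a + b x)` -/
noncomputable def L1 (a b : ℝ) : ℝ :=
  ∫ x in Ioi (0 : ℝ), x ^ 2 / 2 * Real.exp (-x) * Real.log (a + b * x)

/-- row value: `E [log (a + b v X) + (K - v) b X / (a + b v X)]`, `X` of law `Gamma(2)` -/
noncomputable def V1 (a b K v : ℝ) : ℝ :=
  ∫ x in Ioi (0 : ℝ), x * Real.exp (-x) *
    (Real.log (a + b * v * x) + (K - v) * (b * x / (a + b * v * x)))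

/-- relative entropy of the affine biased law -/
noncomputable def KL (t : ℝ) : ℝ :=
  2 * Real.log (1 + t / 2) +
    (∫ x in Ioi (0 : ℝ), x * Real.exp (-x) *
      ((1 - t + t * x / 2) * Real.log (1 - t + t * x / 2))) - t

/-- the effective variance after the bias of the special coordinate:
`v = K (1 - phi (1 - 1/c))`, `K = 1 + x`, `phi = (theta/2)/x`, `c = 1 + t/2` -/
noncomputable def vrow (θ t x : ℝ) : ℝ :=
  (1 + x) * (1 - (θ / 2) / x * (1 - 1 / (1 + t / 2)))

/-- the value of a row in Theorem S -/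
noncomputable def Wrow (θ t x : ℝ) : ℝ :=
  V1 (1 - θ) (θ / 2) (1 + x) (vrow θ t x) - KL t + 2 * ((θ / 2) / x) * Real.log (1 + x) - θ

/-- density (with respect to `G 2`) of the biased law with parameter `t`, scaled so that
the mean of `nsq` is `4` -/
noncomputable def fb (t : ℝ) (y : Fin 2 → ℂ) : ℝ :=
  (1 + t / 2) ^ 2 * Real.exp (-(t / 2) * nsq y / 2) * ((1 - t) + t * (1 + t / 2) * nsq y / 4)

/-- the biased law -/
noncomputable def bm (t : ℝ) : Measure (Fin 2 → ℂ) :=
  (G 2).withDensity fun y => ENNReal.ofReal (fb t y)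

/-- independent biased coordinates -/
noncomputable def bmu {n : ℕ} (τ : Fin n → ℝ) : Measure (Fin n → Fin 2 → ℂ) :=
  Measure.pi fun u => bm (τ u)

/-- `U diag (f lam) U^*` -/
noncomputable def fc {n : ℕ} (U : Matrix (Fin n) (Fin n) ℂ) (lam : Fin n → ℝ) (f : ℝ → ℝ) :
    Matrix (Fin n) (Fin n) ℂ :=
  U * Matrix.diagonal (fun k => ((f (lam k) : ℝ) : ℂ)) * Uᴴ

end CholB
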