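import Pool.Agent.Lib.MP_6947cd_al.B.CV

/-!
Problem MP_6947cd_al (Chollet), Theorem S, module GSUM: sums of independent complex Gaussians.
-/

set_option autoImplicit false

open MeasureTheory ProbabilityTheory Set Matrix
open scoped ENNReal ComplexConjugate ComplexOrder

namespace CholB

open MPf1e3 (cg G GM nsq)

namespace GSumM

open MPf1e3.G1 MPf1e3.G2 CVM

/-- a linear form of a Gaussian row -/
theorem map_lin (n : ℕ) (D : Fin n → ℂ) :
    (G n).map (fun a => ∑ u, D u * a u)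
      = cg.map (fun z => (Real.sqrt (∑ u, ‖D u‖ ^ 2) : ℂ) * z) := by
  have hm1 : Measurable (fun a : Fin n → ℂ => ∑ u, D u * a u) := by fun_prop
  have hm2 : Measurable (fun z : ℂ => (Real.sqrt (∑ u, ‖D u‖ ^ 2) : ℂ) * z) := by fun_prop
  have : IsProbabilityMeasure ((G n).map (fun a => ∑ u, D u * a u)) :=
    Measure.isProbabilityMeasure_map hm1.aemeasurable
  have : IsProbabilityMeasure (cg.map (fun z => (Real.sqrt (∑ u, ‖D u‖ ^ 2) : ℂ) * z)) :=
    Measure.isProbabilityMeasure_map hm2.aemeasurable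
  refine Measure.ext_of_charFun (funext fun t => ?_)
  have e1 : charFun ((G n).map (fun a => ∑ u, D u * a u)) t
      = ∏ u, charFun cg (conj (D u) * t) := by
    rw [charFun_apply, integral_map hm1.aemeasurable (by fun_prop)]
    unfold G
    simp_rw [charFun_apply]
    rw [← integral_fintype_prod_eq_prod (μ := fun _ : Fin n => cg)
      (f := fun u (z : ℂ) => Complex.exp (((inner ℝ z (conj (D u) * t) : ℝ) : ℂ) * Complex.I))]
    refine integral_congr_ae (Filter.Eventually.of_forall fun a => ?_)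
    simp only
    rw [← Complex.exp_sum, ← Finset.sum_mul]
    congr 2
    rw [sum_inner]
    push_cast
    refine Finset.sum_congr rfl fun u _ => ?_
    congr 1
    rw [Complex.inner, Complex.inner]
    congr 1
    simp only [map_mul]
    ring
  have e2 : charFun (cg.map (fun z => (Real.sqrt (∑ u, ‖D u‖ ^ 2) : ℂ) * z)) t
      = charFun cg ((Real.sqrt (∑ u, ‖D u‖ ^ 2) : ℂ) * t) := by
    rw [charFun_apply, integral_map hm2.aemeasurable (by fun_prop), charFun_apply]
    refine integral_congr_ae (Filter.Eventually.of_forall fun a => ?_)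
    simp only
    congr 3
    rw [Complex.inner, Complex.inner]
    congr 1
    simp only [map_mul, Complex.conj_ofReal]
    ring
  rw [e1, e2]
  simp_rw [charFun_cg]
  rw [← Complex.exp_sum]
  congr 1
  have hs : (0:ℝ) ≤ ∑ u, ‖D u‖ ^ 2 := Finset.sum_nonneg fun _ _ => by positivity
  have e3 : ‖(Real.sqrt (∑ u, ‖D u‖ ^ 2) : ℂ) * t‖ ^ 2 = ∑ u, ‖conj (D u) * t‖ ^ 2 := by
    rw [norm_mul, mul_pow, Complex.norm_real, Real.norm_eq_abs, sq_abs, Real.sq_sqrt hs,
      Finset.sum_mul]
    refine Finset.sum_congr rfl fun u _ => ?_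
    rw [norm_mul, mul_pow, RCLike.norm_conj]
  rw [e3]
  push_cast
  rw [← Finset.sum_neg_distrib, Finset.sum_div]

/-- two colours -/
theorem map_sum (n : ℕ) (D : Fin n → ℂ) :
    (GM n 2).map (fun g c => ∑ u, D u * g u c)
      = (G 2).map (fun y c => (Real.sqrt (∑ u, ‖D u‖ ^ 2) : ℂ) * y c) := by
  have hs1 : Measurable (fun (g : Fin n → Fin 2 → ℂ) c i => g i c) := by fun_prop
  have hl : Measurable (fun a : Fin n → ℂ => ∑ u, D u * a u) := by fun_prop
  have hl2 : Measurable (fun z : ℂ => (Real.sqrt (∑ u, ‖D u‖ ^ 2) : ℂ) * z) := by fun_prop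
  have hs2 : Measurable (fun (g : Fin 2 → Fin n → ℂ) c => ∑ u, D u * g c u) := by fun_prop
  have e0 : (fun (g : Fin n → Fin 2 → ℂ) c => ∑ u, D u * g u c)
      = (fun (g : Fin 2 → Fin n → ℂ) c => ∑ u, D u * g c u) ∘
        (fun (g : Fin n → Fin 2 → ℂ) c i => g i c) := rfl
  rw [e0, ← Measure.map_map hs2 hs1, swap_map]
  unfold GM
  have i1 : IsProbabilityMeasure ((G n).map (fun a => ∑ u, D u * a u)) :=
    Measure.isProbabilityMeasure_map hl.aemeasurable
  have i2 : IsProbabilityMeasure (cg.map (fun z => (Real.sqrt (∑ u, ‖D u‖ ^ 2) : ℂ) * z)) :=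
    Measure.isProbabilityMeasure_map hl2.aemeasurable
  have h1 := Measure.pi_map_pi (μ := fun _ : Fin 2 => G n) (f := fun _ a => ∑ u, D u * a u)
      (fun _ => hl.aemeasurable)
  have h2 := Measure.pi_map_pi (μ := fun _ : Fin 2 => cg)
      (f := fun _ z => (Real.sqrt (∑ u, ‖D u‖ ^ 2) : ℂ) * z) (fun _ => hl2.aemeasurable)
  have h3 : (G 2).map (fun y c => (Real.sqrt (∑ u, ‖D u‖ ^ 2) : ℂ) * y c)
      = Measure.pi fun _ : Fin 2 => cg.map (fun z => (Real.sqrt (∑ u, ‖D u‖ ^ 2) : ℂ) * z) := h2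
  rw [h3, h1]
  simp_rw [map_lin n D]

end GSumM

theorem specGSum : SpecGSum := by
  intro n D F hF
  have hm1 : Measurable (fun (g : Fin n → Fin 2 → ℂ) c => ∑ u, D u * g u c) := by fun_prop
  have hm2 : Measurable (fun (y : Fin 2 → ℂ) c => (Real.sqrt (∑ u, ‖D u‖ ^ 2) : ℂ) * y c) := by
    fun_prop
  rw [← lintegral_map (f := F) hF hm1, ← lintegral_map (f := F) hF hm2, GSumM.map_sum]

end CholB
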