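import Pool.Agent.Lib.MP_6947cd_al.B.BM
import Pool.Agent.Lib.MP_f1e3b4_an.MeasAux

/-!
Module JEN of Theorem S (problem MP_6947cd_al): Gibbs/Jensen with the trial law `g = R h`.
-/

set_option autoImplicit false

open MeasureTheory ProbabilityTheory Set Matrix Filter Topology
open scoped ENNReal ComplexConjugate ComplexOrder

namespace CholB

open MPf1e3 (cg G GM nsq)

namespace JenM

open BMM

theorem act_act {n : ℕ} (V R : Matrix (Fin n) (Fin n) ℂ) (h : Fin n → Fin 2 → ℂ) :
    act V (act R h) = act (V * R) h := by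
  funext i c
  simp only [act, Matrix.mul_apply, Finset.mul_sum, Finset.sum_mul]
  rw [Finset.sum_comm]
  refine Finset.sum_congr rfl fun u _ => Finset.sum_congr rfl fun v _ => by ring

theorem meas_act {n : ℕ} (V : Matrix (Fin n) (Fin n) ℂ) (i : Fin n) :
    Measurable fun h : Fin n → Fin 2 → ℂ => act V h i := by
  unfold act
  fun_prop

theorem meas_act' {n : ℕ} (V : Matrix (Fin n) (Fin n) ℂ) :
    Measurable fun h : Fin n → Fin 2 → ℂ => act V h :=
  measurable_pi_lambda _ fun i => meas_act V i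

theorem meas_li (θ : ℝ) : Measurable (li θ) := by
  unfold li
  have := meas_nsq (n := 2)
  fun_prop

theorem li_pos {θ : ℝ} (h0 : 0 ≤ θ) (h1 : θ < 1) (z : Fin 2 → ℂ) : 0 < li θ z := by
  unfold li
  have := nsq_nonneg z
  have : 0 < 1 - θ := by linarith
  positivity

section bmu

variable {n : ℕ} {τ : Fin n → ℝ}

theorem prob_bmu (hτ : ∀ i, 0 ≤ τ i ∧ τ i ≤ 1) : IsProbabilityMeasure (bmu τ) := by
  have : ∀ i, IsProbabilityMeasure (bm (τ i)) := fun i => prob (τ i) (hτ i).1 (hτ i).2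
  unfold bmu
  infer_instance

theorem mp_eval (hτ : ∀ i, 0 ≤ τ i ∧ τ i ≤ 1) (u : Fin n) :
    MeasurePreserving (fun h : Fin n → Fin 2 → ℂ => h u) (bmu τ) (bm (τ u)) := by
  have : ∀ i, IsProbabilityMeasure (bm (τ i)) := fun i => prob (τ i) (hτ i).1 (hτ i).2
  exact measurePreserving_eval (fun i => bm (τ i)) u

theorem bmu_eq (hτ : ∀ i, 0 ≤ τ i ∧ τ i ≤ 1) :
    bmu τ = (GM n 2).withDensity fun h => ∏ u, ENNReal.ofReal (fb (τ u) (h u)) := by
  have : ∀ i, IsProbabilityMeasure (bm (τ i)) := fun i => prob (τ i) (hτ i).1 (hτ i).2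
  have := MPf1e3.specProb.G 2
  unfold bmu GM
  apply Measure.pi_eq
  intro s hs
  have mf : ∀ i, Measurable fun y => ENNReal.ofReal (fb (τ i) y) := fun i =>
    (meas_fb (τ i)).ennreal_ofReal
  rw [withDensity_apply _ (MeasurableSet.univ_pi hs), ← lintegral_indicator
    (MeasurableSet.univ_pi hs)]
  have e : (Set.pi univ s).indicator (fun A : Fin n → Fin 2 → ℂ =>
      ∏ i, ENNReal.ofReal (fb (τ i) (A i))) =
      fun A => ∏ i, (s i).indicator (fun y => ENNReal.ofReal (fb (τ i) y)) (A i) := by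
    funext A
    by_cases h : A ∈ Set.pi univ s
    · rw [indicator_of_mem h]
      exact Finset.prod_congr rfl fun i _ => (indicator_of_mem (h i (mem_univ i))
        (fun y => ENNReal.ofReal (fb (τ i) y))).symm
    · rw [indicator_of_notMem h]
      have : ∃ i, A i ∉ s i := by
        by_contra h'
        push Not at h'
        exact h fun i _ => h' i
      obtain ⟨i, hi⟩ := this
      exact (Finset.prod_eq_zero (Finset.mem_univ i) (indicator_of_notMem hi
        (fun y => ENNReal.ofReal (fb (τ i) y)))).symm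
  rw [e, MPf1e3.MA.lintegral_pi_prod _ _ fun i => (mf i).indicator (hs i)]
  refine Finset.prod_congr rfl fun i _ => ?_
  rw [lintegral_indicator (hs i)]
  unfold bm
  rw [withDensity_apply _ (hs i)]

theorem integral_eval (hτ : ∀ i, 0 ≤ τ i ∧ τ i ≤ 1) (u : Fin n) {E : Type}
    [NormedAddCommGroup E] [NormedSpace ℝ E]
    (f : (Fin 2 → ℂ) → E) (hf : AEStronglyMeasurable f (bm (τ u))) :
    ∫ h, f (h u) ∂(bmu τ) = ∫ y, f y ∂(bm (τ u)) := by
  have h := mp_eval hτ u
  rw [← h.map_eq] at hf ⊢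
  rw [integral_map h.measurable.aemeasurable hf]

theorem integrable_eval (hτ : ∀ i, 0 ≤ τ i ∧ τ i ≤ 1) (u : Fin n) {E : Type}
    [NormedAddCommGroup E]
    (f : (Fin 2 → ℂ) → E) (hf : Integrable f (bm (τ u))) :
    Integrable (fun h : Fin n → Fin 2 → ℂ => f (h u)) (bmu τ) :=
  (mp_eval hτ u).integrable_comp_of_integrable hf

/-- the sign change of one coordinate -/
theorem mp_flip (hτ : ∀ i, 0 ≤ τ i ∧ τ i ≤ 1) (u : Fin n) :
    MeasurePreserving (fun h : Fin n → Fin 2 → ℂ => fun v => if v = u then -(h v) else h v)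
      (bmu τ) (bmu τ) := by
  have : ∀ i, IsProbabilityMeasure (bm (τ i)) := fun i => prob (τ i) (hτ i).1 (hτ i).2
  have h := measurePreserving_pi (fun i => bm (τ i)) (fun i => bm (τ i))
    (f := fun v (y : Fin 2 → ℂ) => if v = u then -y else y) (fun v => by
      by_cases hv : v = u
      · simp only [hv, if_true]
        exact bm_neg (τ u)
      · simp only [hv, if_false]
        exact MeasurePreserving.id _)
  exact h

theorem coord_le (y : Fin 2 → ℂ) (c : Fin 2) : ‖y c‖ ^ 2 ≤ nsq y := by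
  unfold nsq
  exact Finset.single_le_sum (f := fun j => ‖y j‖ ^ 2) (fun _ _ => by positivity)
    (Finset.mem_univ c)

theorem pair_int (hτ : ∀ i, 0 ≤ τ i ∧ τ i ≤ 1) (u v : Fin n) (c : Fin 2) :
    Integrable (fun h : Fin n → Fin 2 → ℂ => h u c * conj (h v c)) (bmu τ) := by
  have h1 := integrable_eval hτ u _ (int_nsq (τ u) (hτ u).1 (hτ u).2)
  have h2 := integrable_eval hτ v _ (int_nsq (τ v) (hτ v).1 (hτ v).2)
  refine (h1.add h2).mono' ?_ ?_
  · refine Measurable.aestronglyMeasurable ?_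
    fun_prop
  · refine Eventually.of_forall fun h => ?_
    have e1 := coord_le (h u) c
    have e2 := coord_le (h v) c
    rw [norm_mul, RCLike.norm_conj]
    simp only [Pi.add_apply]
    nlinarith [sq_nonneg (‖h u c‖ - ‖h v c‖), nsq_nonneg (h u), nsq_nonneg (h v)]

theorem pair_zero (hτ : ∀ i, 0 ≤ τ i ∧ τ i ≤ 1) (u v : Fin n) (huv : v ≠ u) (c : Fin 2) :
    ∫ h, h u c * conj (h v c) ∂(bmu τ) = 0 := by
  have h := mp_flip hτ u
  have hm : Measurable fun h : Fin n → Fin 2 → ℂ => h u c * conj (h v c) := by fun_prop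
  have e : ∫ h, h u c * conj (h v c) ∂(bmu τ) = - ∫ h, h u c * conj (h v c) ∂(bmu τ) := by
    conv_lhs => rw [← h.map_eq]
    rw [integral_map h.measurable.aemeasurable hm.aestronglyMeasurable, ← integral_neg]
    refine integral_congr_ae (Eventually.of_forall fun a => ?_)
    simp only [if_true, if_neg huv, Pi.neg_apply]
    ring
  have h2 : (2 : ℂ) * ∫ h, h u c * conj (h v c) ∂(bmu τ) = 0 := by
    linear_combination e
  simpa using h2

theorem nsq_act_eq (D : Matrix (Fin n) (Fin n) ℂ) (h : Fin n → Fin 2 → ℂ) (i : Fin n) :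
    ((nsq (act D h i) : ℝ) : ℂ)
      = ∑ c, ∑ u, ∑ v, (D i u * conj (D i v)) * (h u c * conj (h v c)) := by
  unfold nsq act
  push_cast
  refine Finset.sum_congr rfl fun c _ => ?_
  rw [← Complex.mul_conj']
  rw [map_sum, Finset.sum_mul_sum]
  refine Finset.sum_congr rfl fun u _ => Finset.sum_congr rfl fun v _ => ?_
  rw [map_mul]
  ring

theorem act_int (hτ : ∀ i, 0 ≤ τ i ∧ τ i ≤ 1) (D : Matrix (Fin n) (Fin n) ℂ) (i : Fin n) :
    Integrable (fun h : Fin n → Fin 2 → ℂ => nsq (act D h i)) (bmu τ) := by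
  have h1 : Integrable (fun h : Fin n → Fin 2 → ℂ => ((nsq (act D h i) : ℝ) : ℂ)) (bmu τ) := by
    simp_rw [nsq_act_eq]
    exact integrable_finsetSum _ fun c _ => integrable_finsetSum _ fun u _ =>
      integrable_finsetSum _ fun v _ => (pair_int hτ u v c).const_mul _
  simpa using h1.re

theorem act_val (hτ : ∀ i, 0 ≤ τ i ∧ τ i ≤ 1) (D : Matrix (Fin n) (Fin n) ℂ) (i : Fin n) :
    ∫ h, nsq (act D h i) ∂(bmu τ) = 4 * ∑ u, ‖D i u‖ ^ 2 := by
  have h1 : ∫ h, ((nsq (act D h i) : ℝ) : ℂ) ∂(bmu τ) = ((4 * ∑ u, ‖D i u‖ ^ 2 : ℝ) : ℂ) := by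
    simp_rw [nsq_act_eq]
    rw [integral_finsetSum _ fun c _ => integrable_finsetSum _ fun u _ =>
      integrable_finsetSum _ fun v _ => (pair_int hτ u v c).const_mul _]
    have e1 : ∀ c : Fin 2, ∫ h, ∑ u, ∑ v, (D i u * conj (D i v)) * (h u c * conj (h v c)) ∂(bmu τ)
        = ∑ u, (D i u * conj (D i u)) * ∫ h, h u c * conj (h u c) ∂(bmu τ) := by
      intro c
      rw [integral_finsetSum _ fun u _ =>
        integrable_finsetSum _ fun v _ => (pair_int hτ u v c).const_mul _]
      refine Finset.sum_congr rfl fun u _ => ?_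
      rw [integral_finsetSum _ fun v _ => (pair_int hτ u v c).const_mul _]
      rw [Finset.sum_eq_single u]
      · rw [integral_const_mul]
      · intro v _ hv
        rw [integral_const_mul, pair_zero hτ u v hv c, mul_zero]
      · intro hu
        exact absurd (Finset.mem_univ u) hu
    simp_rw [e1]
    rw [Finset.sum_comm]
    push_cast
    rw [Finset.mul_sum]
    refine Finset.sum_congr rfl fun u _ => ?_
    rw [← Finset.mul_sum, ← Complex.mul_conj']
    have e2 : ∑ c, ∫ h, h u c * conj (h u c) ∂(bmu τ) = (4 : ℂ) := by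
      rw [← integral_finsetSum _ fun c _ => pair_int hτ u u c]
      have e3 : ∀ h : Fin n → Fin 2 → ℂ, ∑ c, h u c * conj (h u c) = ((nsq (h u) : ℝ) : ℂ) := by
        intro h
        unfold nsq
        push_cast
        exact Finset.sum_congr rfl fun c _ => by rw [Complex.mul_conj']
      simp_rw [e3]
      rw [integral_complex_ofReal, integral_eval hτ u (fun y => nsq y)
        (meas_nsq.aestronglyMeasurable), val_nsq (τ u) (hτ u).1 (hτ u).2]
      norm_num
    rw [e2]
    ring
  rw [integral_complex_ofReal] at h1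
  exact_mod_cast h1

end bmu

theorem frob (n : ℕ) (U : Matrix (Fin n) (Fin n) ℂ) (lam : Fin n → ℝ) (hU : U * Uᴴ = 1)
    (hlam : ∀ k, 0 ≤ lam k) :
    ∑ i, ∑ u, ‖fc U lam (fun l => Real.sqrt (1 + l)) i u‖ ^ 2 = ∑ k, (1 + lam k) := by
  set R := fc U lam (fun l => Real.sqrt (1 + l)) with hR
  have hU2 : Uᴴ * U = 1 := by
    rw [mul_eq_one_comm]
    exact hU
  have h1 : ((∑ i, ∑ u, ‖R i u‖ ^ 2 : ℝ) : ℂ) = Matrix.trace (R * Rᴴ) := by
    rw [Matrix.trace]
    push_cast
    refine Finset.sum_congr rfl fun i _ => ?_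
    rw [Matrix.diag_apply, Matrix.mul_apply]
    refine Finset.sum_congr rfl fun u _ => ?_
    rw [Matrix.conjTranspose_apply, ← Complex.mul_conj']
    rfl
  have h2 : R * Rᴴ = U * Matrix.diagonal (fun k => ((1 + lam k : ℝ) : ℂ)) * Uᴴ := by
    rw [hR]
    unfold fc
    rw [Matrix.conjTranspose_mul, Matrix.conjTranspose_mul, Matrix.conjTranspose_conjTranspose,
      Matrix.diagonal_conjTranspose]
    have e1 : (star fun k => ((Real.sqrt (1 + lam k) : ℝ) : ℂ))
        = fun k => ((Real.sqrt (1 + lam k) : ℝ) : ℂ) := by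
      funext k
      simp
    rw [e1]
    calc U * Matrix.diagonal (fun k => ((Real.sqrt (1 + lam k) : ℝ) : ℂ)) * Uᴴ *
          (U * (Matrix.diagonal (fun k => ((Real.sqrt (1 + lam k) : ℝ) : ℂ)) * Uᴴ))
        = U * Matrix.diagonal (fun k => ((Real.sqrt (1 + lam k) : ℝ) : ℂ)) * (Uᴴ * U) *
          Matrix.diagonal (fun k => ((Real.sqrt (1 + lam k) : ℝ) : ℂ)) * Uᴴ := by
          simp only [Matrix.mul_assoc]
      _ = U * (Matrix.diagonal (fun k => ((Real.sqrt (1 + lam k) : ℝ) : ℂ)) *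
          Matrix.diagonal (fun k => ((Real.sqrt (1 + lam k) : ℝ) : ℂ))) * Uᴴ := by
          rw [hU2, Matrix.mul_one]
          simp only [Matrix.mul_assoc]
      _ = _ := by
          rw [Matrix.diagonal_mul_diagonal]
          congr 3
          funext k
          rw [← Complex.ofReal_mul, Real.mul_self_sqrt (by linarith [hlam k])]
  have h3 : ((∑ i, ∑ u, ‖R i u‖ ^ 2 : ℝ) : ℂ) = ((∑ k, (1 + lam k) : ℝ) : ℂ) := by
    rw [h1, h2, Matrix.trace_mul_comm, ← Matrix.mul_assoc, hU2, Matrix.one_mul,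
      Matrix.trace_diagonal]
    push_cast
    rfl
  exact_mod_cast h3

theorem nsq_act_one {n : ℕ} (h : Fin n → Fin 2 → ℂ) (i : Fin n) :
    nsq (h i) = nsq (act (1 : Matrix (Fin n) (Fin n) ℂ) h i) := by
  unfold nsq act
  refine Finset.sum_congr rfl fun c _ => ?_
  rw [Finset.sum_eq_single i]
  · simp
  · intro b _ hb
    rw [Matrix.one_apply_ne hb.symm, zero_mul]
  · intro hi
    exact absurd (Finset.mem_univ i) hi

theorem log_li_int {n : ℕ} {τ : Fin n → ℝ} (hτ : ∀ i, 0 ≤ τ i ∧ τ i ≤ 1)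
    (D : Matrix (Fin n) (Fin n) ℂ) (i : Fin n) (θ : ℝ) (h0 : 0 ≤ θ) (h1 : θ < 1) :
    Integrable (fun h : Fin n → Fin 2 → ℂ => Real.log (li θ (act D h i))) (bmu τ) := by
  have hp := prob_bmu hτ
  have hb : Integrable (fun h : Fin n → Fin 2 → ℂ =>
      |Real.log (1 - θ)| + nsq (act D h i)) (bmu τ) :=
    (integrable_const _).add (act_int hτ D i)
  refine hb.mono' ?_ ?_
  · exact (Real.measurable_log.comp ((meas_li θ).comp (meas_act D i))).aestronglyMeasurable
  · refine Eventually.of_forall fun h => ?_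
    have hn := nsq_nonneg (act D h i)
    have h1t : 0 < 1 - θ := by linarith
    rw [Real.norm_eq_abs, abs_le]
    constructor
    · have h3 : Real.log (1 - θ) ≤ Real.log (li θ (act D h i)) := by
        refine Real.log_le_log h1t ?_
        unfold li
        have : 0 ≤ θ / 4 * nsq (act D h i) := by positivity
        linarith
      have h4 := neg_abs_le (Real.log (1 - θ))
      linarith
    · have h3 : Real.log (li θ (act D h i)) ≤ li θ (act D h i) - 1 :=
        Real.log_le_sub_one_of_pos (li_pos h0 h1 _)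
      have h4 := abs_nonneg (Real.log (1 - θ))
      have h5 : li θ (act D h i) - 1 ≤ nsq (act D h i) := by
        unfold li
        nlinarith
      linarith

/-- Jensen for the exponential, lower integrals -/
theorem jensen {Ω : Type} [MeasurableSpace Ω] (μ : Measure Ω) [IsProbabilityMeasure μ]
    (X : Ω → ℝ) (hX : Integrable X μ) :
    ENNReal.ofReal (Real.exp (∫ x, X x ∂μ)) ≤ ∫⁻ x, ENNReal.ofReal (Real.exp (X x)) ∂μ := by
  by_cases hI : Integrable (fun x => Real.exp (X x)) μ
  · rw [← ofReal_integral_eq_lintegral_ofReal hI (Eventually.of_forall fun x => (Real.exp_pos _).le)]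
    refine ENNReal.ofReal_le_ofReal ?_
    exact convexOn_exp.map_integral_le Real.continuous_exp.continuousOn isClosed_univ
      (Eventually.of_forall fun _ => mem_univ _) hX hI
  · have hm : AEStronglyMeasurable (fun x => Real.exp (X x)) μ :=
      Real.continuous_exp.comp_aestronglyMeasurable hX.aestronglyMeasurable
    have : ∫⁻ x, ENNReal.ofReal (Real.exp (X x)) ∂μ = ∞ := by
      by_contra hne
      refine hI ⟨hm, ?_⟩
      rw [hasFiniteIntegral_iff_ofReal (Eventually.of_forall fun x => (Real.exp_pos _).le)]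
      exact lt_top_iff_ne_top.2 hne
    rw [this]
    exact le_top

end JenM

open BMM JenM in
theorem specJen (hC : SpecCol) (hCV : SpecCV) : SpecJen := by
  intro n V U θ τ lam hθ hτ hU hlam hV1 _
  have hτ' : ∀ i, 0 ≤ τ i ∧ τ i ≤ 1 := fun i => ⟨(hτ i).1, (hτ i).2.le⟩
  have hp := prob_bmu hτ'
  set R := fc U lam fun l => Real.sqrt (1 + l) with hR
  have hF : Measurable fun g : Fin n → Fin 2 → ℂ =>
      ENNReal.ofReal (∏ i, li (θ i) (act V g i)) := by
    refine Measurable.ennreal_ofReal ?_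
    exact Finset.measurable_fun_prod _ fun i _ => (meas_li (θ i)).comp (meas_act V i)
  have h1 := hC n V θ (fun i => ⟨(hθ i).1, (hθ i).2.le⟩) hV1
  rw [hCV n U lam hU hlam _ hF] at h1
  -- the exponent
  let Q : (Fin n → Fin 2 → ℂ) → ℝ := fun h => ∑ i, nsq (act R h i) - ∑ i, nsq (h i)
  let X : (Fin n → Fin 2 → ℂ) → ℝ := fun h =>
    ∑ i, Real.log (li (θ i) (act (V * R) h i)) - Q h / 2 - ∑ u, Real.log (fb (τ u) (h u))
  have h3 : ∫⁻ h, ENNReal.ofReal (∏ i, li (θ i) (act V (act R h) i)) *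
      ENNReal.ofReal (Real.exp (-(∑ i, nsq (act R h i) - ∑ i, nsq (h i)) / 2)) ∂(GM n 2)
      = ∫⁻ h, ENNReal.ofReal (Real.exp (X h)) ∂(bmu τ) := by
    rw [bmu_eq hτ']
    have mX : Measurable X := by
      refine ((Finset.measurable_fun_sum _ fun i _ => ?_).sub ?_).sub
        (Finset.measurable_fun_sum _ fun i _ => ?_)
      · exact Real.measurable_log.comp ((meas_li (θ i)).comp (meas_act (V * R) i))
      · refine Measurable.div_const ?_ _
        refine (Finset.measurable_fun_sum _ fun i _ => ?_).sub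
          (Finset.measurable_fun_sum _ fun i _ => ?_)
        · exact meas_nsq.comp (meas_act R i)
        · exact meas_nsq.comp (measurable_pi_apply i)
      · exact Real.measurable_log.comp ((meas_fb (τ i)).comp (measurable_pi_apply i))
    have mw : Measurable fun h : Fin n → Fin 2 → ℂ => ∏ u, ENNReal.ofReal (fb (τ u) (h u)) :=
      Finset.measurable_fun_prod _ fun i _ =>
        ((meas_fb (τ i)).comp (measurable_pi_apply i)).ennreal_ofReal
    have mE : Measurable fun h => ENNReal.ofReal (Real.exp (X h)) := by fun_prop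
    rw [lintegral_withDensity_eq_lintegral_mul _ mw mE]
    refine lintegral_congr fun h => ?_
    simp only [Pi.mul_apply]
    have hfb : ∀ u, 0 < fb (τ u) (h u) := fun u => fb_pos (h u) (hτ u).1 (hτ u).2
    have hli : ∀ i, 0 < li (θ i) (act (V * R) h i) := fun i => li_pos (hθ i).1 (hθ i).2 _
    rw [← ENNReal.ofReal_prod_of_nonneg fun u _ => (hfb u).le,
      ← ENNReal.ofReal_mul (Finset.prod_nonneg fun u _ => (hfb u).le), act_act,
      ← ENNReal.ofReal_mul (Finset.prod_nonneg fun i _ => (hli i).le)]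
    congr 1
    have e1 : Real.exp (X h) = (∏ i, li (θ i) (act (V * R) h i)) * Real.exp (-(Q h) / 2) *
        (∏ u, fb (τ u) (h u))⁻¹ := by
      show Real.exp (∑ i, Real.log (li (θ i) (act (V * R) h i)) - Q h / 2 -
        ∑ u, Real.log (fb (τ u) (h u))) = _
      rw [Real.exp_sub, Real.exp_sub, Real.exp_sum, Real.exp_sum]
      rw [Finset.prod_congr rfl fun i _ => Real.exp_log (hli i),
        Finset.prod_congr rfl fun u _ => Real.exp_log (hfb u)]
      rw [neg_div, Real.exp_neg, div_eq_mul_inv, div_eq_mul_inv]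
    rw [e1]
    have hpp : (∏ u, fb (τ u) (h u)) ≠ 0 := (Finset.prod_pos fun u _ => hfb u).ne'
    rw [mul_comm (∏ u, fb (τ u) (h u)), mul_assoc, inv_mul_cancel₀ hpp, mul_one]
  have h1' : ENNReal.ofReal ((∏ k, (1 + lam k)) ^ 2) *
      ∫⁻ h, ENNReal.ofReal (∏ i, li (θ i) (act V (act R h) i)) *
      ENNReal.ofReal (Real.exp (-(∑ i, nsq (act R h i) - ∑ i, nsq (h i)) / 2)) ∂(GM n 2)
      ≤ ENNReal.ofReal (V * Vᴴ).permanent.re := h1
  rw [h3] at h1'
  -- integrability
  have iL : ∀ i, Integrable (fun h => Real.log (li (θ i) (act (V * R) h i))) (bmu τ) := fun i =>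
    log_li_int hτ' (V * R) i (θ i) (hθ i).1 (hθ i).2
  have iR : ∀ i, Integrable (fun h => nsq (act R h i)) (bmu τ) := fun i => act_int hτ' R i
  have iN : ∀ i, Integrable (fun h : Fin n → Fin 2 → ℂ => nsq (h i)) (bmu τ) := fun i =>
    integrable_eval hτ' i _ (int_nsq (τ i) (hτ' i).1 (hτ' i).2)
  have iF : ∀ i, Integrable (fun h : Fin n → Fin 2 → ℂ => Real.log (fb (τ i) (h i))) (bmu τ) :=
    fun i => integrable_eval hτ' i _ (specBM.int_log (τ i) (hτ i).1 (hτ i).2)
  have iSL : Integrable (fun h => ∑ i, Real.log (li (θ i) (act (V * R) h i))) (bmu τ) :=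
    integrable_finsetSum _ fun i _ => iL i
  have iSR : Integrable (fun h => ∑ i, nsq (act R h i)) (bmu τ) :=
    integrable_finsetSum _ fun i _ => iR i
  have iSN : Integrable (fun h : Fin n → Fin 2 → ℂ => ∑ i, nsq (h i)) (bmu τ) :=
    integrable_finsetSum _ fun i _ => iN i
  have iSF : Integrable (fun h : Fin n → Fin 2 → ℂ => ∑ i, Real.log (fb (τ i) (h i))) (bmu τ) :=
    integrable_finsetSum _ fun i _ => iF i
  have iQ : Integrable Q (bmu τ) := iSR.sub iSN
  have iQ2 : Integrable (fun h => Q h / 2) (bmu τ) := iQ.div_const 2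
  have iX1 : Integrable (fun h => ∑ i, Real.log (li (θ i) (act (V * R) h i)) - Q h / 2) (bmu τ) :=
    iSL.sub iQ2
  have iX : Integrable X (bmu τ) := iX1.sub iSF
  have vQ : ∫ h, Q h ∂(bmu τ) = 4 * ∑ k, lam k := by
    show ∫ h, (∑ i, nsq (act R h i) - ∑ i, nsq (h i)) ∂(bmu τ) = _
    rw [integral_sub iSR iSN, integral_finsetSum _ fun i _ => iR i,
      integral_finsetSum _ fun i _ => iN i]
    have e1 : ∀ i, ∫ h, nsq (act R h i) ∂(bmu τ) = 4 * ∑ u, ‖R i u‖ ^ 2 := fun i =>
      act_val hτ' R i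
    have e2 : ∀ i, ∫ h : Fin n → Fin 2 → ℂ, nsq (h i) ∂(bmu τ) = 4 := fun i => by
      rw [integral_eval hτ' i (fun y => nsq y) meas_nsq.aestronglyMeasurable,
        val_nsq (τ i) (hτ' i).1 (hτ' i).2]
    simp_rw [e1, e2]
    rw [← Finset.mul_sum, frob n U lam hU hlam, Finset.sum_add_distrib]
    simp
    ring
  have vX : ∫ h, X h ∂(bmu τ) = (∑ i, ∫ h, Real.log (li (θ i) (act (V * R) h i)) ∂(bmu τ))
      - 2 * ∑ k, lam k - ∑ i, KL (τ i) := by
    show ∫ h, (∑ i, Real.log (li (θ i) (act (V * R) h i)) - Q h / 2 -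
        ∑ u, Real.log (fb (τ u) (h u))) ∂(bmu τ) = _
    rw [integral_sub iX1 iSF, integral_sub iSL iQ2, integral_finsetSum _ fun i _ => iL i,
      integral_finsetSum _ fun i _ => iF i, integral_div, vQ]
    have e3 : ∀ i, ∫ h : Fin n → Fin 2 → ℂ, Real.log (fb (τ i) (h i)) ∂(bmu τ) = KL (τ i) :=
      fun i => by
        rw [integral_eval hτ' i (fun y => Real.log (fb (τ i) y))
          (Real.measurable_log.comp (meas_fb (τ i))).aestronglyMeasurable,
          specBM.val_log (τ i) (hτ i).1 (hτ i).2]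
    simp_rw [e3]
    ring
  have h4 := jensen (bmu τ) X iX
  have h5 : ENNReal.ofReal ((∏ k, (1 + lam k)) ^ 2) *
      ENNReal.ofReal (Real.exp (∫ h, X h ∂(bmu τ))) ≤ ENNReal.ofReal (V * Vᴴ).permanent.re :=
    (mul_le_mul_right h4 _).trans h1'
  have hlp : ∀ k, 0 < 1 + lam k := fun k => by linarith [hlam k]
  have hP : 0 < ∏ k, (1 + lam k) := Finset.prod_pos fun k _ => hlp k
  rw [← ENNReal.ofReal_mul (by positivity), ENNReal.ofReal_le_ofReal_iff'] at h5
  have hpos : 0 < (∏ k, (1 + lam k)) ^ 2 * Real.exp (∫ h, X h ∂(bmu τ)) := by positivity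
  rcases h5 with h5 | h5
  · have h6 := Real.log_le_log hpos h5
    rw [Real.log_mul (by positivity) (Real.exp_pos _).ne', Real.log_exp, Real.log_pow,
      Real.log_prod fun k _ => (hlp k).ne', vX] at h6
    push_cast at h6
    linarith
  · linarith

end CholB
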