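import Pool.Agent.Lib.MP_6947cd_al.Lieb

set_option autoImplicit false
open scoped Matrix ComplexOrder
open Matrix Finset

namespace CholB
open Pool.Agent.Lib.MP_6947cd_al

/-- The permanent does not change when rows and columns are reindexed by the same bijection. -/
theorem permanent_reindex {R : Type*} [CommRing R] {m n : Type*} [Fintype m] [DecidableEq m]
    [Fintype n] [DecidableEq n]
    (e : m ≃ n) (A : Matrix n n R) : (A.submatrix e e).permanent = A.permanent := by
  unfold Matrix.permanent
  refine Fintype.sum_equiv e.permCongr _ _ fun σ => ?_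
  refine Fintype.prod_equiv e _ _ fun i => ?_
  simp [Equiv.permCongr_apply]

/-- Lieb's inequality for a matrix indexed by a disjoint union. -/
theorem lieb_sum {al be : Type} [Fintype al] [DecidableEq al] [Fintype be] [DecidableEq be]
    (A : Matrix (al ⊕ be) (al ⊕ be) ℂ) (hA : A.PosSemidef) :
    A.toBlocks₁₁.permanent.re * A.toBlocks₂₂.permanent.re ≤ A.permanent.re := by
  have h := Lieb.lieb (fun x : al ⊕ be => x.isLeft = true) A hA
  let e1 : al ≃ {x : al ⊕ be // x.isLeft = true} :=
    { toFun := fun a => ⟨Sum.inl a, rfl⟩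
      invFun := fun x => x.1.getLeft x.2
      left_inv := fun a => rfl
      right_inv := by
        rintro ⟨x | x, hx⟩
        · rfl
        · simp at hx }
  let e2 : be ≃ {x : al ⊕ be // ¬ x.isLeft = true} :=
    { toFun := fun a => ⟨Sum.inr a, by simp⟩
      invFun := fun x => x.1.getRight (by
        rcases x with ⟨x | x, hx⟩
        · simp at hx
        · rfl)
      left_inv := fun a => rfl
      right_inv := by
        rintro ⟨x | x, hx⟩
        · simp at hx
        · rfl }
  rw [← permanent_reindex e1 (Matrix.of fun (i j : {a : al ⊕ be // a.isLeft = true}) => A i j),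
    ← permanent_reindex e2 (Matrix.of fun (i j : {a : al ⊕ be // ¬ a.isLeft = true}) => A i j)] at h
  exact h

/-- A correlation matrix has permanent at least one. -/
theorem one_le_permanent {κ : Type} [Fintype κ] [DecidableEq κ] (A : Matrix κ κ ℂ)
    (hA : A.PosSemidef) (hd : ∀ i, A i i = 1) : 1 ≤ A.permanent.re := by
  suffices H : ∀ (n : ℕ) (κ : Type) [Fintype κ] [DecidableEq κ] (A : Matrix κ κ ℂ),
      Fintype.card κ = n → A.PosSemidef → (∀ i, A i i = 1) → 1 ≤ A.permanent.re from
    H _ κ A rfl hA hd
  intro n
  induction n with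
  | zero =>
    intro κ _ _ A hc _ _
    rw [Matrix.permanent_eq_one_of_card_eq_zero hc]
    simp
  | succ n ih =>
    intro κ _ _ A hc hA hd
    have hne : Nonempty κ := Fintype.card_pos_iff.1 (by omega)
    obtain ⟨i⟩ := hne
    have h := Lieb.lieb (fun x : κ => x = i) A hA
    have key : ∀ x y z : ℝ, x * y ≤ z → x = 1 → 1 ≤ y → 1 ≤ z := by
      intro x y z h hx hy
      rw [hx, one_mul] at h
      linarith
    refine key _ _ _ h ?_ ?_
    · have hs : Subsingleton {x : κ // x = i} :=
        ⟨fun a b => Subtype.ext (a.2.trans b.2.symm)⟩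
      have e : (Matrix.of fun (a b : {x : κ // x = i}) => A a b).permanent = 1 := by
        rw [Matrix.permanent_eq_elem_of_subsingleton _ (⟨i, rfl⟩ : {x : κ // x = i})]
        simp [hd i]
      have e' := congrArg Complex.re e
      rw [Complex.one_re] at e'
      convert e'
    · refine ih {x : κ // ¬ x = i} _ ?_ ?_ ?_
      · rw [Fintype.card_subtype_compl, Fintype.card_subtype_eq]
        omega
      · exact hA.submatrix (fun x : {x : κ // ¬ x = i} => (x : κ))
      · intro a
        exact hd a

/-- Lieb's inequality for two disjoint sets of rows of a correlation matrix. -/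
theorem lieb2 {n : ℕ} (A : Matrix (Fin n) (Fin n) ℂ) (hA : A.PosSemidef) (hd : ∀ i, A i i = 1)
    (K L : Finset (Fin n)) (hKL : Disjoint K L) :
    (A.submatrix (fun i : K => (i : Fin n)) (fun i : K => (i : Fin n))).permanent.re
      * (A.submatrix (fun i : L => (i : Fin n)) (fun i : L => (i : Fin n))).permanent.re
      ≤ A.permanent.re := by
  classical
  set U : Finset (Fin n) := K ∪ L with hU
  have hAU : (A.submatrix (fun i : U => (i : Fin n)) (fun i : U => (i : Fin n))).PosSemidef :=
    hA.submatrix _
  have h1 := Lieb.lieb (fun x : Fin n => x ∈ U) A hA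
  have h1' : 1 ≤ (Matrix.of fun (a b : {x : Fin n // ¬ x ∈ U}) => A a b).permanent.re :=
    one_le_permanent _ (hA.submatrix (fun x : {x : Fin n // ¬ x ∈ U} => (x : Fin n)))
      fun a => hd a
  have h2 := Lieb.lieb (fun x : U => (x : Fin n) ∈ K)
    (A.submatrix (fun i : U => (i : Fin n)) (fun i : U => (i : Fin n))) hAU
  let e1 : K ≃ {x : U // (x : Fin n) ∈ K} :=
    { toFun := fun a => ⟨⟨a.1, Finset.mem_union_left _ a.2⟩, a.2⟩
      invFun := fun x => ⟨x.1.1, x.2⟩
      left_inv := fun a => rfl
      right_inv := fun x => rfl }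
  let e2 : L ≃ {x : U // ¬ (x : Fin n) ∈ K} :=
    { toFun := fun a => ⟨⟨a.1, Finset.mem_union_right _ a.2⟩,
        fun h => (Finset.disjoint_left.1 hKL h) a.2⟩
      invFun := fun x => ⟨x.1.1, (Finset.mem_union.1 x.1.2).resolve_left x.2⟩
      left_inv := fun a => rfl
      right_inv := fun x => rfl }
  rw [← permanent_reindex e1, ← permanent_reindex e2] at h2
  have h0 : 0 ≤ (A.submatrix (fun i : U => (i : Fin n)) (fun i : U => (i : Fin n))).permanent.re := by
    have := one_le_permanent _ hAU fun i => hd i
    linarith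
  refine le_trans h2 ?_
  refine le_trans ?_ h1
  refine le_trans (le_mul_of_one_le_right h0 h1') (le_of_eq ?_)
  congr!

end CholB
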