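import Pool.Agent.Lib.MP_6947cd_al.B.VOne

/-!
Problem MP_6947cd_al, module LIM of Theorem S: continuity of the row value along a scaling.
-/

set_option autoImplicit false

open MeasureTheory Set Filter Topology

namespace CholB
namespace LimM

open VOneM

/-- continuity of `V1` in its parameters -/
theorem V1_tendsto {ι : Type*} {l : Filter ι} [l.IsCountablyGenerated] {a b K v : ι → ℝ}
    {a0 b0 K0 v0 : ℝ} (ha : Tendsto a l (𝓝 a0)) (hb : Tendsto b l (𝓝 b0)) (hK : Tendsto K l (𝓝 K0))
    (hv : Tendsto v l (𝓝 v0)) (ha' : ∀ᶠ s in l, 0 ≤ a s) (ha0 : 0 ≤ a0) (hb' : ∀ᶠ s in l, 0 ≤ b s)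
    (hb0 : 0 < b0) (hv0 : 0 < v0) :
    Tendsto (fun s => V1 (a s) (b s) (K s) (v s)) l (𝓝 (V1 a0 b0 K0 v0)) := by
  unfold V1
  have hc0 : 0 < a0 + b0 * v0 := by
    have := mul_pos hb0 hv0
    linarith
  have hcs : Tendsto (fun s => a s + b s * v s) l (𝓝 (a0 + b0 * v0)) := ha.add (hb.mul hv)
  have e1 : ∀ᶠ s in l, a s ≤ a0 + 1 := (ha.eventually (gt_mem_nhds (by linarith : a0 < a0 + 1))).mono
    fun s hs => hs.le
  have e2 : ∀ᶠ s in l, b s * v s ≤ b0 * v0 + 1 :=
    ((hb.mul hv).eventually (gt_mem_nhds (by linarith : b0 * v0 < b0 * v0 + 1))).mono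
      fun s hs => hs.le
  have e3 : ∀ᶠ s in l, (a0 + b0 * v0) / 2 ≤ a s + b s * v s :=
    (hcs.eventually (lt_mem_nhds (by linarith : (a0 + b0 * v0) / 2 < a0 + b0 * v0))).mono
      fun s hs => hs.le
  have e4 : ∀ᶠ s in l, v0 / 2 ≤ v s :=
    (hv.eventually (lt_mem_nhds (by linarith : v0 / 2 < v0))).mono fun s hs => hs.le
  have e5 : ∀ᶠ s in l, |K s - v s| ≤ |K0 - v0| + 1 :=
    ((hK.sub hv).abs.eventually (gt_mem_nhds (by linarith : |K0 - v0| < |K0 - v0| + 1))).mono
      fun s hs => hs.le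
  set A : ℝ := a0 + 1 with hA
  set C : ℝ := b0 * v0 + 1 with hC
  set D : ℝ := 1 / ((a0 + b0 * v0) / 2) with hD
  set E : ℝ := (|K0 - v0| + 1) * (1 / (v0 / 2)) with hE
  refine tendsto_integral_filter_of_dominated_convergence
    (fun x : ℝ => A * (x ^ 1 * Real.exp (-x)) + C * (x ^ 2 * Real.exp (-x)) +
      D * (x ^ 1 * Real.exp (-x)) + D * (x ^ 0 * Real.exp (-x)) + E * (x ^ 1 * Real.exp (-x)))
    ?_ ?_ ?_ ?_
  · refine Eventually.of_forall fun s => ?_
    exact (by fun_prop : Measurable fun x : ℝ => x * Real.exp (-x) *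
      (Real.log (a s + b s * v s * x) + (K s - v s) * (b s * x / (a s + b s * v s * x)))
      ).aestronglyMeasurable
  · filter_upwards [ha', hb', e1, e2, e3, e4, e5] with s h1 h2 h3 h4 h5 h6 h7
    refine (ae_restrict_iff' measurableSet_Ioi).2 (Eventually.of_forall fun x hx => ?_)
    have hx' : (0 : ℝ) < x := hx
    have hvs : 0 < v s := by linarith
    have hcs0 : 0 ≤ b s * v s := mul_nonneg h2 hvs.le
    have hac : 0 < a s + b s * v s := by linarith
    have hlin := lin_pos h1 hcs0 hac hx'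
    have hl := abs_log_lin h1 hcs0 hac hx'
    have hD' : 1 / (a s + b s * v s) ≤ D := by
      rw [hD]
      exact one_div_le_one_div_of_le (by linarith) h5
    have hfr := frac_bd h1 hcs0 hac hx'
    have hfr1 : |b s * x / (a s + b s * v s * x)| ≤ 1 / (v0 / 2) := by
      rw [frac_eq hvs, abs_of_nonneg (mul_nonneg (by positivity) hfr.1)]
      calc (1 / v s) * (b s * v s * x / (a s + b s * v s * x)) ≤ (1 / v s) * 1 :=
            mul_le_mul_of_nonneg_left hfr.2 (by positivity)
        _ = 1 / v s := mul_one _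
        _ ≤ 1 / (v0 / 2) := one_div_le_one_div_of_le (by linarith) h6
    have hE' : |(K s - v s) * (b s * x / (a s + b s * v s * x))| ≤ E := by
      rw [abs_mul, hE]
      exact mul_le_mul h7 hfr1 (abs_nonneg _) (by positivity)
    have hw : 0 < x * Real.exp (-x) := by positivity
    have hL : |Real.log (a s + b s * v s * x)| ≤ A + C * x + D * (1 + 1 / x) := by
      refine hl.trans ?_
      have t1 : b s * v s * x ≤ C * x := mul_le_mul_of_nonneg_right h4 hx'.le
      have t2 : (1 + 1 / x) / (a s + b s * v s) ≤ D * (1 + 1 / x) := by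
        rw [div_eq_mul_one_div, mul_comm]
        exact mul_le_mul_of_nonneg_right hD' (by positivity)
      linarith
    rw [Real.norm_eq_abs, abs_mul, abs_of_pos hw]
    calc x * Real.exp (-x) * |Real.log (a s + b s * v s * x) +
          (K s - v s) * (b s * x / (a s + b s * v s * x))|
        ≤ x * Real.exp (-x) * ((A + C * x + D * (1 + 1 / x)) + E) :=
          mul_le_mul_of_nonneg_left ((abs_add_le _ _).trans (add_le_add hL hE')) hw.le
      _ = _ := by
          field_simp
          ring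
  · exact (((((int_pow 1).const_mul A).add ((int_pow 2).const_mul C)).add
      ((int_pow 1).const_mul D)).add ((int_pow 0).const_mul D)).add ((int_pow 1).const_mul E)
  · refine (ae_restrict_iff' measurableSet_Ioi).2 (Eventually.of_forall fun x hx => ?_)
    have hx' : (0 : ℝ) < x := hx
    have hlin : 0 < a0 + b0 * v0 * x := by
      have := mul_pos (mul_pos hb0 hv0) hx'
      linarith
    have t1 : Tendsto (fun s => a s + b s * v s * x) l (𝓝 (a0 + b0 * v0 * x)) :=
      ha.add ((hb.mul hv).mul_const x)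
    have t2 := t1.log hlin.ne'
    have t3 : Tendsto (fun s => b s * x / (a s + b s * v s * x)) l
        (𝓝 (b0 * x / (a0 + b0 * v0 * x))) := (hb.mul_const x).div t1 hlin.ne'
    exact (t2.add ((hK.sub hv).mul t3)).const_mul _

theorem abs_mul_log_le {y : ℝ} (hy : 0 ≤ y) : |y * Real.log y| ≤ y ^ 2 + 1 := by
  rcases eq_or_lt_of_le hy with h | h
  · rw [← h]; simp
  · have h1 := Real.log_le_sub_one_of_pos h
    have h2 := Real.log_le_sub_one_of_pos (x := y⁻¹) (by positivity)
    rw [Real.log_inv] at h2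
    rw [abs_le]
    constructor
    · have h3 : y * (1 - y⁻¹) ≤ y * Real.log y := mul_le_mul_of_nonneg_left (by linarith) hy
      have h4 : y * (1 - y⁻¹) = y - 1 := by field_simp
      have h5 : 0 ≤ y ^ 2 := by positivity
      rw [h4] at h3
      linarith
    · have h3 : y * Real.log y ≤ y * (y - 1) := mul_le_mul_of_nonneg_left h1 hy
      nlinarith

/-- continuity of `KL` on `[0,1]` -/
theorem KL_tendsto {ι : Type*} {l : Filter ι} [l.IsCountablyGenerated] {t : ι → ℝ}
    {t0 : ℝ} (ht : Tendsto t l (𝓝 t0)) (ht' : ∀ᶠ s in l, 0 ≤ t s ∧ t s ≤ 1) (h0 : 0 ≤ t0) :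
    Tendsto (fun s => KL (t s)) l (𝓝 (KL t0)) := by
  unfold KL
  have hlog : Tendsto (fun s => 2 * Real.log (1 + t s / 2)) l (𝓝 (2 * Real.log (1 + t0 / 2))) :=
    ((((ht.div_const 2).const_add 1).log (by positivity)).const_mul 2)
  refine (hlog.add ?_).sub ht
  refine tendsto_integral_filter_of_dominated_convergence
    (fun x : ℝ => 2 * (x ^ 1 * Real.exp (-x)) + (x ^ 2 * Real.exp (-x)) +
      (1 / 4) * (x ^ 3 * Real.exp (-x))) ?_ ?_ ?_ ?_
  · refine Eventually.of_forall fun s => ?_
    exact (by fun_prop : Measurable fun x : ℝ => x * Real.exp (-x) *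
      ((1 - t s + t s * x / 2) * Real.log (1 - t s + t s * x / 2))).aestronglyMeasurable
  · filter_upwards [ht'] with s hs
    refine (ae_restrict_iff' measurableSet_Ioi).2 (Eventually.of_forall fun x hx => ?_)
    have hx' : (0 : ℝ) < x := hx
    have hw : 0 < x * Real.exp (-x) := by positivity
    have hy0 : 0 ≤ 1 - t s + t s * x / 2 := by
      have := mul_nonneg hs.1 hx'.le
      linarith [hs.2]
    have hy1 : 1 - t s + t s * x / 2 ≤ 1 + x / 2 := by
      have : t s * x ≤ 1 * x := mul_le_mul_of_nonneg_right hs.2 hx'.le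
      linarith [hs.1]
    have h := abs_mul_log_le hy0
    have h2 : (1 - t s + t s * x / 2) ^ 2 ≤ (1 + x / 2) ^ 2 := by
      apply pow_le_pow_left₀ hy0 hy1
    rw [Real.norm_eq_abs, abs_mul, abs_of_pos hw]
    calc x * Real.exp (-x) * |(1 - t s + t s * x / 2) * Real.log (1 - t s + t s * x / 2)|
        ≤ x * Real.exp (-x) * ((1 + x / 2) ^ 2 + 1) :=
          mul_le_mul_of_nonneg_left (by linarith) hw.le
      _ = _ := by ring
  · exact ((((int_pow 1).const_mul 2).add (int_pow 2)).add ((int_pow 3).const_mul (1 / 4)))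
  · refine (ae_restrict_iff' measurableSet_Ioi).2 (Eventually.of_forall fun x hx => ?_)
    have t1 : Tendsto (fun s => 1 - t s + t s * x / 2) l (𝓝 (1 - t0 + t0 * x / 2)) :=
      (ht.const_sub 1).add ((ht.mul_const x).div_const 2)
    have t2 := (Real.continuous_mul_log.tendsto (1 - t0 + t0 * x / 2)).comp t1
    exact t2.const_mul _

end LimM

open LimM in
theorem specLim : SpecLim := by
  intro θ t x hθ hθ1 ht ht1 hx
  have hx0 : 0 < x := by linarith
  have hs : Tendsto (fun s : ℝ => s) (𝓝[<] 1) (𝓝 1) := nhdsWithin_le_nhds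
  have hpos : ∀ᶠ s : ℝ in 𝓝[<] 1, 0 < s := hs.eventually (lt_mem_nhds zero_lt_one)
  have hlt : ∀ᶠ s : ℝ in 𝓝[<] 1, s < 1 := eventually_nhdsWithin_of_forall fun s hs => hs
  have mu : ∀ c : ℝ, Tendsto (fun s : ℝ => s * c) (𝓝[<] 1) (𝓝 c) := fun c => by
    simpa using hs.mul_const c
  have hθs := mu θ
  have hts := mu t
  have hxs := mu x
  have hphi : Tendsto (fun s : ℝ => (s * θ / 2) / (s * x)) (𝓝[<] 1) (𝓝 ((θ / 2) / x)) :=
    (hθs.div_const 2).div hxs hx0.ne'
  have hv : Tendsto (fun s : ℝ => vrow (s * θ) (s * t) (s * x)) (𝓝[<] 1) (𝓝 (vrow θ t x)) := by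
    unfold vrow
    refine (hxs.const_add 1).mul ((hphi.mul (Tendsto.const_sub 1 ?_)).const_sub 1)
    have h1 : (1 + t / 2) ≠ 0 := by positivity
    exact tendsto_const_nhds.div ((hts.div_const 2).const_add 1) h1
  have hv0 : 0 < vrow θ t x := by
    unfold vrow
    have h1 : θ / 2 / x ≤ 1 := by rw [div_le_one hx0]; exact hx
    have h1' : 0 < θ / 2 / x := by positivity
    have h2 : 0 ≤ 1 - 1 / (1 + t / 2) := by
      have : 1 / (1 + t / 2) ≤ 1 := by
        rw [div_le_one (by positivity)]; linarith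
      linarith
    have h3 : 0 < 1 / (1 + t / 2) := by positivity
    refine mul_pos (by positivity) ?_
    nlinarith
  have hV := V1_tendsto (K := fun s : ℝ => 1 + s * x) (hθs.const_sub 1) (hθs.div_const 2)
    (hxs.const_add 1) hv
    (by
      filter_upwards [hpos, hlt] with s h1 h2
      have : s * θ ≤ 1 * 1 := mul_le_mul h2.le hθ1 hθ.le zero_le_one
      linarith)
    (by linarith)
    (by
      filter_upwards [hpos] with s h1
      positivity)
    (by positivity) hv0
  have hKL := KL_tendsto hts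
    (by
      filter_upwards [hpos, hlt] with s h1 h2
      refine ⟨by positivity, ?_⟩
      calc s * t ≤ 1 * 1 := mul_le_mul h2.le ht1 ht zero_le_one
        _ = 1 := one_mul 1) ht
  unfold Wrow
  refine ((hV.sub hKL).add ?_).sub hθs
  refine (hphi.const_mul 2).mul ?_
  exact (hxs.const_add 1).log (by positivity)

end CholB
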