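import Pool.Agent.Lib.MP_6947cd_al.B.GSum

/-!
Problem MP_6947cd_al (Chollet), Theorem S, module ROW: the value of a row.
-/

set_option autoImplicit false

open MeasureTheory ProbabilityTheory Set Matrix
open scoped ENNReal ComplexConjugate ComplexOrder

namespace CholB

open MPf1e3 (cg G GM nsq)

namespace RowM

open MPf1e3.G1 MPf1e3.G2 CVM

/-- the law of the coordinates is a good law -/
structure Good (ν : Measure (Fin 2 → ℂ)) : Prop where
  prob : IsProbabilityMeasure ν
  int : Integrable (fun y : Fin 2 → ℂ => nsq y) ν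

theorem bm_zero : bm 0 = G 2 := by
  unfold bm fb
  simp

/-- the function of a row -/
noncomputable def ff {n : ℕ} (a b : ℝ) (D : Fin n → ℂ) (h : Fin n → Fin 2 → ℂ) : ℝ :=
  Real.log (a + b * (nsq (fun c => ∑ u, D u * h u c) / 2))

theorem nsq_sum_le {n : ℕ} (D : Fin n → ℂ) (h : Fin n → Fin 2 → ℂ) :
    nsq (fun c => ∑ u, D u * h u c) ≤ (∑ u, ‖D u‖ ^ 2) * ∑ u, nsq (h u) := by
  unfold nsq
  rw [Finset.sum_comm, Finset.mul_sum]
  refine Finset.sum_le_sum fun c _ => ?_
  have h1 : ‖∑ u, D u * h u c‖ ≤ ∑ u, ‖D u‖ * ‖h u c‖ := by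
    refine (norm_sum_le _ _).trans (le_of_eq ?_)
    exact Finset.sum_congr rfl fun u _ => norm_mul _ _
  have h2 := Finset.sum_mul_sq_le_sq_mul_sq Finset.univ (fun u => ‖D u‖) (fun u => ‖h u c‖)
  exact (pow_le_pow_left₀ (norm_nonneg _) h1 2).trans h2

theorem meas_ff {n : ℕ} (a b : ℝ) (D : Fin n → ℂ) : Measurable (ff a b D) := by
  unfold ff
  have h1 : Measurable (fun h : Fin n → Fin 2 → ℂ => nsq (fun c => ∑ u, D u * h u c)) := by
    refine (@MPf1e3.GamM.meas_nsq 2).comp ?_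
    fun_prop
  fun_prop

theorem abs_ff_le {n : ℕ} (a b : ℝ) (ha : 0 < a) (hb : 0 ≤ b) (D : Fin n → ℂ)
    (h : Fin n → Fin 2 → ℂ) :
    ‖ff a b D h‖ ≤ |Real.log a| + b / (2 * a) * ((∑ u, ‖D u‖ ^ 2) * ∑ u, nsq (h u)) := by
  obtain ⟨q, hq⟩ : ∃ q, q = nsq (fun c => ∑ u, D u * h u c) := ⟨_, rfl⟩
  have hq0 : 0 ≤ q := by rw [hq]; exact nsq_nonneg _
  have hqle : q ≤ (∑ u, ‖D u‖ ^ 2) * ∑ u, nsq (h u) := by rw [hq]; exact nsq_sum_le D h
  have hy : 0 ≤ b * (q / 2) := by positivity
  have e1 : ff a b D h = Real.log a + Real.log (1 + b * (q / 2) / a) := by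
    unfold ff
    rw [← hq, ← Real.log_mul ha.ne' (by positivity)]
    congr 1
    field_simp
  have h0 : 0 ≤ Real.log (1 + b * (q / 2) / a) := Real.log_nonneg (by
    have : 0 ≤ b * (q / 2) / a := by positivity
    linarith)
  have h1 : Real.log (1 + b * (q / 2) / a) ≤ b * (q / 2) / a := by
    have := Real.log_le_sub_one_of_pos (x := 1 + b * (q / 2) / a) (by positivity)
    linarith
  have h2 : b * (q / 2) / a = b / (2 * a) * q := by
    field_simp
  have h3 : b / (2 * a) * q ≤ b / (2 * a) * ((∑ u, ‖D u‖ ^ 2) * ∑ u, nsq (h u)) :=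
    mul_le_mul_of_nonneg_left hqle (by positivity)
  rw [e1, Real.norm_eq_abs]
  refine (abs_add_le _ _).trans ?_
  rw [abs_of_nonneg h0]
  linarith

theorem int_ff {n : ℕ} (a b : ℝ) (ha : 0 < a) (hb : 0 ≤ b) (D : Fin n → ℂ)
    (ν : Fin n → Measure (Fin 2 → ℂ)) (hν : ∀ u, Good (ν u)) :
    Integrable (ff a b D) (Measure.pi ν) := by
  have : ∀ u, IsProbabilityMeasure (ν u) := fun u => (hν u).prob
  have hI : Integrable (fun h : Fin n → Fin 2 → ℂ =>
      |Real.log a| + b / (2 * a) * ((∑ u, ‖D u‖ ^ 2) * ∑ u, nsq (h u))) (Measure.pi ν) := by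
    refine (integrable_const _).add ((Integrable.const_mul ?_ _).const_mul _)
    exact integrable_finsetSum _ fun u _ => integrable_comp_eval (hν u).int
  exact hI.mono' (meas_ff a b D).aestronglyMeasurable
    (Filter.Eventually.of_forall fun h => abs_ff_le a b ha hb D h)

/-- Fubini at one coordinate -/
theorem fub {m : ℕ} (ν : Fin (m + 1) → Measure (Fin 2 → ℂ)) [∀ u, IsProbabilityMeasure (ν u)]
    (i : Fin (m + 1)) (f : (Fin (m + 1) → Fin 2 → ℂ) → ℝ) (hf : Integrable f (Measure.pi ν)) :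
    Integrable (fun p : (Fin 2 → ℂ) × (Fin m → Fin 2 → ℂ) =>
        f (Fin.insertNth i p.1 p.2 : Fin (m + 1) → Fin 2 → ℂ))
        ((ν i).prod (Measure.pi fun j => ν (i.succAbove j))) ∧
    ∫ h, f h ∂(Measure.pi ν) = ∫ p, f (Fin.insertNth i p.1 p.2 : Fin (m + 1) → Fin 2 → ℂ)
        ∂((ν i).prod (Measure.pi fun j => ν (i.succAbove j))) := by
  have hp := (measurePreserving_piFinSuccAbove ν i).symm
  refine ⟨?_, ?_⟩
  · exact (hp.integrable_comp_emb (MeasurableEquiv.measurableEmbedding _)).mpr hf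
  · exact (hp.integral_comp (MeasurableEquiv.measurableEmbedding _) f).symm

theorem ff_insert {m : ℕ} (a b : ℝ) (D : Fin (m + 1) → ℂ) (i : Fin (m + 1)) (y : Fin 2 → ℂ)
    (x : Fin m → Fin 2 → ℂ) :
    ff a b D (Fin.insertNth i y x : Fin (m + 1) → Fin 2 → ℂ)
      = Real.log (a + b * (nsq (fun c => (∑ j, D (i.succAbove j) * x j c) + D i * y c) / 2)) := by
  unfold ff
  congr 4
  refine congrArg nsq (funext fun c => ?_)
  rw [Fin.sum_univ_succAbove _ i, Fin.insertNth_apply_same, add_comm]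
  congr 1
  refine Finset.sum_congr rfl fun j _ => ?_
  rw [Fin.insertNth_apply_succAbove]

/-- one replacement -/
theorem step {m : ℕ} (a b : ℝ) (ha : 0 < a) (hb : 0 ≤ b) (D : Fin (m + 1) → ℂ)
    (ν ν' : Fin (m + 1) → Measure (Fin 2 → ℂ)) (hν : ∀ u, Good (ν u)) (hν' : ∀ u, Good (ν' u))
    (i : Fin (m + 1)) (he : ∀ u, u ≠ i → ν' u = ν u)
    (hc : ∀ x : Fin 2 → ℂ,
      ∫ y, Real.log (a + b * (nsq (fun c => x c + D i * y c) / 2)) ∂(ν i)
        ≤ ∫ y, Real.log (a + b * (nsq (fun c => x c + D i * y c) / 2)) ∂(ν' i)) :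
    ∫ h, ff a b D h ∂(Measure.pi ν) ≤ ∫ h, ff a b D h ∂(Measure.pi ν') := by
  have i1 : ∀ u, IsProbabilityMeasure (ν u) := fun u => (hν u).prob
  have i2 : ∀ u, IsProbabilityMeasure (ν' u) := fun u => (hν' u).prob
  obtain ⟨f1, f2⟩ := fub ν i (ff a b D) (int_ff a b ha hb D ν hν)
  obtain ⟨g1, g2⟩ := fub ν' i (ff a b D) (int_ff a b ha hb D ν' hν')
  have hs : (fun j => ν' (i.succAbove j)) = fun j => ν (i.succAbove j) :=
    funext fun j => he _ (Fin.succAbove_ne i j)
  have hs' : (Measure.pi fun j => ν' (i.succAbove j)) = Measure.pi fun j => ν (i.succAbove j) := by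
    rw [hs]
  rw [hs'] at g1 g2
  rw [f2, g2, integral_prod_symm _ f1, integral_prod_symm _ g1]
  refine integral_mono f1.integral_prod_right g1.integral_prod_right fun x => ?_
  simp only [ff_insert]
  exact hc fun c => ∑ j, D (i.succAbove j) * x j c

end RowM

open RowM in
theorem specRow (hB : SpecBM) (hC : SpecConc) (hS : SpecSpe) : SpecRow := by
  classical
  intro n D i τ a b ha hb hτ hD
  obtain ⟨m, rfl⟩ : ∃ m, n = m + 1 := ⟨n - 1, by have := i.pos; omega⟩
  have hbm : ∀ t, 0 ≤ t → t ≤ 1 → Good (bm t) := fun t h0 h1 => ⟨hB.prob t h0 h1, hB.int_nsq t h0 h1⟩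
  have hG : Good (G 2) := by
    have := hbm 0 le_rfl zero_le_one
    rwa [bm_zero] at this
  have hgood : ∀ S : Finset (Fin (m + 1)), ∀ u, Good (if u ∈ S then bm (τ u) else G 2) := by
    intro S u
    split_ifs
    · exact hbm _ (hτ u).1 (hτ u).2
    · exact hG
  have key : ∀ S : Finset (Fin (m + 1)),
      ∫ h, ff a b D h ∂(Measure.pi fun u => if u ∈ ({i} : Finset (Fin (m + 1))) then bm (τ u) else G 2)
        ≤ ∫ h, ff a b D h ∂(Measure.pi fun u => if u ∈ insert i S then bm (τ u) else G 2) := by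
    intro S
    induction S using Finset.induction_on with
    | empty => exact le_rfl
    | insert v S hv ih =>
      refine ih.trans ?_
      by_cases hvi : v = i
      · have : insert i (insert v S) = insert i S := by
          rw [hvi, Finset.insert_idem]
        rw [this]
      · have hvn : v ∉ insert i S := by
          rw [Finset.mem_insert, not_or]
          exact ⟨hvi, hv⟩
        refine step a b ha hb D _ _ (hgood _) (hgood _) v ?_ ?_
        · intro u hu
          have : u ∈ insert i (insert v S) ↔ u ∈ insert i S := by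
            simp only [Finset.mem_insert, hu, false_or]
          simp only [this]
        · intro x
          have h1 : v ∈ insert i (insert v S) := by simp
          simp only [hvn, h1, if_true, if_false]
          exact hC a b (τ v) x (D v) ha hb (hτ v).1 (hτ v).2
  have hfin := key Finset.univ
  have huniv : (Measure.pi fun u => if u ∈ insert i (Finset.univ : Finset (Fin (m + 1))) then bm (τ u)
      else G 2) = bmu τ := by
    unfold bmu
    simp
  rw [huniv] at hfin
  refine le_trans ?_ hfin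
  refine le_of_eq ?_
  have i1 : ∀ u, IsProbabilityMeasure ((fun u => if u ∈ ({i} : Finset (Fin (m + 1))) then bm (τ u)
      else G 2) u) := fun u => (hgood _ u).prob
  obtain ⟨f1, f2⟩ := fub (fun u => if u ∈ ({i} : Finset (Fin (m + 1))) then bm (τ u) else G 2) i
    (ff a b D) (int_ff a b ha hb D _ (hgood _))
  rw [f2, integral_prod _ f1]
  have hi : (if i ∈ ({i} : Finset (Fin (m + 1))) then bm (τ i) else G 2) = bm (τ i) := by simp
  have hj : (Measure.pi fun j => (if i.succAbove j ∈ ({i} : Finset (Fin (m + 1)))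
      then bm (τ (i.succAbove j)) else G 2)) = GM m 2 := by
    unfold GM
    congr 1
    funext j
    rw [if_neg]
    rw [Finset.mem_singleton]
    exact Fin.succAbove_ne i j
  simp only [hi, hj, ff_insert]
  have hsplit : ∑ u, ‖D u‖ ^ 2 = ‖D i‖ ^ 2 + ∑ j, ‖D (i.succAbove j)‖ ^ 2 :=
    Fin.sum_univ_succAbove _ i
  have hs0 : 0 ≤ ∑ j, ‖D (i.succAbove j)‖ ^ 2 := Finset.sum_nonneg fun _ _ => by positivity
  have e2 := hS a b (∑ j, ‖D (i.succAbove j)‖ ^ 2) (τ i) (D i) ha hb hs0
    (by rw [hsplit] at hD; linarith) (hτ i).1 (hτ i).2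
  have e3 : ∑ u, ‖D u‖ ^ 2 = (∑ j, ‖D (i.succAbove j)‖ ^ 2) + ‖D i‖ ^ 2 := by
    rw [hsplit, add_comm]
  have e4 : ∑ u, ‖D u‖ ^ 2 - ‖D i‖ ^ 2 * (1 - 1 / (1 + τ i / 2))
      = (∑ j, ‖D (i.succAbove j)‖ ^ 2) + ‖D i‖ ^ 2 / (1 + τ i / 2) := by
    rw [e3]
    ring
  rw [e4, e3, ← e2]
  refine integral_congr_ae (Filter.Eventually.of_forall fun y => ?_)
  simp only
  have hm1 : Measurable (fun (g : Fin m → Fin 2 → ℂ) c => ∑ j, D (i.succAbove j) * g j c) := by
    fun_prop
  have hm2 : Measurable (fun (z : Fin 2 → ℂ) c =>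
      (Real.sqrt (∑ j, ‖D (i.succAbove j)‖ ^ 2) : ℂ) * z c) := by fun_prop
  have hm3 : Measurable (fun z : Fin 2 → ℂ =>
      Real.log (a + b * (nsq (fun c => z c + D i * y c) / 2))) := by
    have h1 : Measurable (fun z : Fin 2 → ℂ => nsq (fun c => z c + D i * y c)) := by
      refine (@MPf1e3.GamM.meas_nsq 2).comp ?_
      fun_prop
    fun_prop
  have k1 := integral_map (μ := GM m 2) hm1.aemeasurable
    (f := fun z : Fin 2 → ℂ => Real.log (a + b * (nsq (fun c => z c + D i * y c) / 2)))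
    hm3.aestronglyMeasurable
  have k2 := integral_map (μ := G 2) hm2.aemeasurable
    (f := fun z : Fin 2 → ℂ => Real.log (a + b * (nsq (fun c => z c + D i * y c) / 2)))
    hm3.aestronglyMeasurable
  rw [← k1, ← k2, GSumM.map_sum]

end CholB
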