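import Pool.Agent.Lib.MP_6947cd_al.B.SpecS
import Pool.Agent.Lib.MP_f1e3b4_an.Prob

/-!
Module WICK of Theorem S (problem MP_6947cd_al): complex Gaussian moments are permanents.
-/

set_option autoImplicit false

open MeasureTheory ProbabilityTheory Set Matrix
open scoped ENNReal ComplexConjugate ComplexOrder Nat

namespace CholB

open MPf1e3 (cg G GM nsq)

namespace WickM

/-! ### one-dimensional moments -/

theorem lint_pow (p : ℕ) :
    ∫⁻ z, ENNReal.ofReal ((‖z‖ ^ 2) ^ p) ∂cg = ENNReal.ofReal (2 ^ p * p !) := by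
  rw [MPf1e3.GamM.base MPf1e3.specProb (fun y => ENNReal.ofReal (y ^ p)) (by fun_prop)]
  have h1 : ∀ y ∈ Ioi (0 : ℝ), ENNReal.ofReal (y ^ p) * MPf1e3.GamM.dens 0 y
      = ENNReal.ofReal (y ^ (((p : ℝ) + 1) - 1) * Real.exp (-(2⁻¹ * y)) * 2⁻¹) := by
    intro y hy
    have hy0 : (0 : ℝ) < y := hy
    unfold MPf1e3.GamM.dens
    rw [← ENNReal.ofReal_mul (by positivity)]
    congr 1
    rw [add_sub_cancel_right, Real.rpow_natCast]
    simp only [pow_zero, one_mul, zero_add, pow_one, Nat.factorial_zero, Nat.cast_one, mul_one]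
    rw [show -(y / 2) = -(2⁻¹ * y) by ring]
    ring
  rw [setLIntegral_congr_fun measurableSet_Ioi h1]
  have hval := Real.integral_rpow_mul_exp_neg_mul_Ioi (a := (p : ℝ) + 1) (r := 2⁻¹)
    (by positivity) (by norm_num)
  have hne : ∫ y in Ioi (0 : ℝ), y ^ (((p : ℝ) + 1) - 1) * Real.exp (-(2⁻¹ * y)) ≠ 0 := by
    rw [hval]
    have := Real.Gamma_pos_of_pos (s := (p : ℝ) + 1) (by positivity)
    positivity
  have hint : IntegrableOn (fun y : ℝ => y ^ (((p : ℝ) + 1) - 1) * Real.exp (-(2⁻¹ * y)))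
      (Ioi 0) := by
    by_contra h
    exact hne (integral_undef h)
  rw [← ofReal_integral_eq_lintegral_ofReal (hint.mul_const _)]
  · congr 1
    rw [integral_mul_const, hval, Real.Gamma_nat_eq_factorial]
    rw [Real.rpow_add (by norm_num), Real.rpow_one, Real.rpow_natCast]
    norm_num
    ring
  · refine (ae_restrict_iff' measurableSet_Ioi).2 (Filter.Eventually.of_forall fun y hy => ?_)
    have hy0 : (0 : ℝ) < y := hy
    show (0 : ℝ) ≤ _
    positivity

theorem int_pow (p : ℕ) : Integrable (fun z : ℂ => (‖z‖ ^ 2) ^ p) cg := by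
  refine ⟨by fun_prop, ?_⟩
  rw [hasFiniteIntegral_iff_norm]
  have h : ∀ z : ℂ, ‖(‖z‖ ^ 2) ^ p‖ = (‖z‖ ^ 2) ^ p := fun z => by
    rw [Real.norm_of_nonneg (by positivity)]
  simp_rw [h]
  rw [lint_pow]
  exact ENNReal.ofReal_lt_top

theorem val_pow (p : ℕ) : ∫ z : ℂ, (‖z‖ ^ 2) ^ p ∂cg = 2 ^ p * p ! := by
  rw [integral_eq_lintegral_of_nonneg_ae (Filter.Eventually.of_forall fun z => by
    show (0 : ℝ) ≤ _
    positivity) (by fun_prop), lint_pow, ENNReal.toReal_ofReal (by positivity)]

instance : IsProbabilityMeasure cg := MPf1e3.specProb.cg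

theorem int_mon (p q : ℕ) : Integrable (fun z : ℂ => z ^ p * conj z ^ q) cg := by
  have h1 : Integrable (fun z : ℂ => (‖z‖ ^ 2) ^ p + (‖z‖ ^ 2) ^ q) cg :=
    (int_pow p).add (int_pow q)
  refine h1.mono' (by fun_prop) (Filter.Eventually.of_forall fun z => ?_)
  rw [norm_mul, norm_pow, norm_pow, RCLike.norm_conj]
  have h2 : (‖z‖ ^ 2) ^ p = (‖z‖ ^ p) ^ 2 := by ring
  have h3 : (‖z‖ ^ 2) ^ q = (‖z‖ ^ q) ^ 2 := by ring
  rw [h2, h3]
  nlinarith [sq_nonneg (‖z‖ ^ p - ‖z‖ ^ q), sq_nonneg (‖z‖ ^ p), sq_nonneg (‖z‖ ^ q)]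

theorem rot (t : ℝ) : MeasurePreserving (fun z : ℂ => Complex.exp (t * Complex.I) * z) cg cg := by
  have hm : Measurable (fun z : ℂ => Complex.exp (t * Complex.I) * z) := by fun_prop
  have hn : ‖Complex.exp (t * Complex.I)‖ = 1 := Complex.norm_exp_ofReal_mul_I t
  have h1 : MeasurePreserving (fun z : ℂ => Complex.exp (t * Complex.I) * z)
      (volume : Measure ℂ) volume := by
    have h0 := (rotation (Circle.exp t)).measurePreserving
    have e : (fun z : ℂ => Complex.exp (t * Complex.I) * z) = ⇑(rotation (Circle.exp t)) := by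
      funext z
      rw [rotation_apply, Circle.coe_exp]
    rw [e]
    exact h0
  have h2 := MPf1e3.ProbM.map_withDensity h1 MPf1e3.ProbM.meas_rho
  have h3 : MPf1e3.ProbM.rho ∘ (fun z : ℂ => Complex.exp (t * Complex.I) * z)
      = MPf1e3.ProbM.rho := by
    funext z
    unfold MPf1e3.ProbM.rho
    simp only [Function.comp, norm_mul, hn, one_mul]
  rw [h3, ← MPf1e3.ProbM.cg_eq] at h2
  exact ⟨hm, h2⟩

theorem val_mon (p q : ℕ) :
    ∫ z : ℂ, z ^ p * conj z ^ q ∂cg = if p = q then (2 : ℂ) ^ p * (p ! : ℂ) else 0 := by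
  split_ifs with h
  · subst h
    have h1 : ∀ z : ℂ, z ^ p * conj z ^ p = (((‖z‖ ^ 2) ^ p : ℝ) : ℂ) := by
      intro z
      rw [← mul_pow, Complex.mul_conj']
      push_cast
      rfl
    simp_rw [h1]
    rw [integral_complex_ofReal, val_pow]
    push_cast
    rfl
  · have hpq : (p : ℝ) - q ≠ 0 := sub_ne_zero.2 (by exact_mod_cast h)
    set t : ℝ := Real.pi / (p - q)
    have h1 := (rot t).integral_comp' (f := (MeasurableEquiv.mulLeft₀
      (Complex.exp (t * Complex.I)) (Complex.exp_ne_zero _))) (fun z : ℂ => z ^ p * conj z ^ q)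
    have h2 : ∀ z : ℂ, (Complex.exp (t * Complex.I) * z) ^ p
        * conj (Complex.exp (t * Complex.I) * z) ^ q = -(z ^ p * conj z ^ q) := by
      intro z
      rw [map_mul, mul_pow, mul_pow, ← Complex.exp_conj, ← Complex.exp_nat_mul,
        ← Complex.exp_nat_mul]
      have h3 : Complex.exp (p * (t * Complex.I)) * Complex.exp (q * conj ((t : ℂ) * Complex.I))
          = -1 := by
        rw [← Complex.exp_add, map_mul, Complex.conj_ofReal, Complex.conj_I]
        have h4 : (p : ℂ) * (t * Complex.I) + q * (t * -Complex.I)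
            = Real.pi * Complex.I := by
          have h5 : ((p : ℂ) - q) * t = Real.pi := by
            have h6 : ((p : ℝ) - q) * t = Real.pi := by
              simp only [t]; field_simp
            exact_mod_cast h6
          rw [← h5]; ring
        rw [h4, Complex.exp_pi_mul_I]
      calc _ = (Complex.exp (p * (t * Complex.I)) * Complex.exp (q * conj ((t : ℂ) * Complex.I)))
            * (z ^ p * conj z ^ q) := by ring
        _ = _ := by rw [h3]; ring
    have h3 : ∫ z : ℂ, -(z ^ p * conj z ^ q) ∂cg = ∫ z : ℂ, z ^ p * conj z ^ q ∂cg := by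
      rw [← h1]
      refine integral_congr_ae (Filter.Eventually.of_forall fun z => ?_)
      exact (h2 z).symm
    rw [integral_neg] at h3
    exact self_eq_neg.1 h3.symm

/-! ### monomials in several variables -/

section comb

variable {κ : Type} [Fintype κ] [DecidableEq κ] {n : ℕ}

/-- multiplicity -/
def mult (f : κ → Fin n) (u : Fin n) : ℕ := (Finset.univ.filter fun k => f k = u).card

omit [DecidableEq κ] in
theorem mon_eq (f : κ → Fin n) (a : Fin n → ℂ) : ∏ k, a (f k) = ∏ u, a u ^ mult f u := by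
  rw [← Finset.prod_fiberwise Finset.univ f fun k => a (f k)]
  refine Finset.prod_congr rfl fun u _ => ?_
  unfold mult
  rw [← Finset.prod_const]
  refine Finset.prod_congr rfl fun k hk => ?_
  rw [(Finset.mem_filter.1 hk).2]

omit [DecidableEq κ] in
theorem sum_mult (f : κ → Fin n) : ∑ u, mult f u = Fintype.card κ := by
  unfold mult
  rw [← Finset.card_univ]
  exact (Finset.card_eq_sum_card_fiberwise fun x _ => Finset.mem_coe.2 (Finset.mem_univ _)).symm

omit [DecidableEq κ] in
theorem mult_eq_card (f : κ → Fin n) (u : Fin n) : mult f u = Fintype.card {k // f k = u} := by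
  unfold mult
  rw [Fintype.card_subtype]

omit [DecidableEq κ] in
/-- functions with the same multiplicities differ by a permutation -/
theorem exists_perm (f f' : κ → Fin n) (h : ∀ u, mult f u = mult f' u) :
    ∃ σ : Equiv.Perm κ, f' = f ∘ σ := by
  have e : ∀ u, {k // f' k = u} ≃ {k // f k = u} := fun u =>
    Fintype.equivOfCardEq (by rw [← mult_eq_card, ← mult_eq_card, h])
  refine ⟨((Equiv.sigmaFiberEquiv f').symm.trans (Equiv.sigmaCongrRight e)).trans
    (Equiv.sigmaFiberEquiv f), ?_⟩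
  funext k
  have h1 := (e (f' k) ⟨k, rfl⟩).2
  exact h1.symm

omit [DecidableEq κ] in
theorem mult_comp (f : κ → Fin n) (σ : Equiv.Perm κ) (u : Fin n) : mult (f ∘ σ) u = mult f u := by
  rw [mult_eq_card, mult_eq_card]
  exact Fintype.card_congr (σ.subtypeEquiv fun a => by simp)

/-- the number of permutations carrying `f` to `f'` -/
theorem card_perm (f f' : κ → Fin n) :
    ((Finset.univ.filter fun σ : Equiv.Perm κ => f' = f ∘ σ).card : ℂ)
      = ∏ u, if mult f u = mult f' u then ((mult f u)! : ℂ) else 0 := by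
  classical
  by_cases h : ∀ u, mult f u = mult f' u
  · obtain ⟨σ, rfl⟩ := exists_perm f f' h
    have h1 : (Finset.univ.filter fun τ : Equiv.Perm κ => f ∘ σ = f ∘ τ).card
        = Fintype.card {g : Equiv.Perm κ // f ∘ g = f} := by
      rw [Fintype.card_subtype]
      refine Finset.card_bij' (fun τ _ => τ * σ⁻¹) (fun g _ => g * σ) ?_ ?_ ?_ ?_
      · intro τ hτ
        rw [Finset.mem_filter] at hτ ⊢
        refine ⟨Finset.mem_univ _, ?_⟩
        funext k
        have := congrFun hτ.2 (σ⁻¹ k)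
        simpa using this.symm
      · intro g hg
        rw [Finset.mem_filter] at hg ⊢
        refine ⟨Finset.mem_univ _, ?_⟩
        funext k
        have := congrFun hg.2 (σ k)
        simpa using this.symm
      · intro τ _; simp
      · intro g _; simp
    rw [h1, DomMulAct.stabilizer_card, Nat.cast_prod]
    refine Finset.prod_congr rfl fun u _ => ?_
    rw [if_pos (mult_comp f σ u).symm, mult_eq_card]
  · have h0 : (Finset.univ.filter fun σ : Equiv.Perm κ => f' = f ∘ σ) = ∅ := by
      rw [Finset.filter_eq_empty_iff]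
      intro σ _ hs
      exact h fun u => by rw [hs, mult_comp]
    rw [h0, Finset.card_empty, Nat.cast_zero]
    push Not at h
    obtain ⟨u, hu⟩ := h
    exact (Finset.prod_eq_zero (Finset.mem_univ u) (if_neg hu)).symm

omit [DecidableEq κ] in
theorem int_mm (f f' : κ → Fin n) :
    Integrable (fun a : Fin n → ℂ => (∏ k, a (f k)) * conj (∏ k, a (f' k))) (G n) := by
  have h1 : ∀ a : Fin n → ℂ, (∏ k, a (f k)) * conj (∏ k, a (f' k))
      = ∏ u, (a u ^ mult f u * conj (a u) ^ mult f' u) := by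
    intro a
    rw [mon_eq, mon_eq, map_prod, Finset.prod_mul_distrib]
    simp only [map_pow]
  simp_rw [h1]
  exact Integrable.fintype_prod fun u => int_mon _ _

/-- Wick's formula -/
theorem val_mm (f f' : κ → Fin n) :
    ∫ a, (∏ k, a (f k)) * conj (∏ k, a (f' k)) ∂(G n)
      = (2 : ℂ) ^ Fintype.card κ * (Finset.univ.filter fun σ : Equiv.Perm κ => f' = f ∘ σ).card := by
  have h1 : ∀ a : Fin n → ℂ, (∏ k, a (f k)) * conj (∏ k, a (f' k))
      = ∏ u, (a u ^ mult f u * conj (a u) ^ mult f' u) := by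
    intro a
    rw [mon_eq, mon_eq, map_prod, Finset.prod_mul_distrib]
    simp only [map_pow]
  simp_rw [h1]
  unfold G
  rw [integral_fintype_prod_eq_prod (fun u (z : ℂ) => z ^ mult f u * conj z ^ mult f' u)]
  simp_rw [val_mon]
  rw [card_perm, ← sum_mult f, ← Finset.prod_pow_eq_pow_sum, ← Finset.prod_mul_distrib]
  refine Finset.prod_congr rfl fun u _ => ?_
  split_ifs <;> simp

/-- the moment of a product of linear forms -/
theorem val_lin (V : κ → Fin n → ℂ) :
    ∫ a, (∏ k, ∑ u, V k u * a u) * conj (∏ k, ∑ u, V k u * a u) ∂(G n)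
      = (2 : ℂ) ^ Fintype.card κ *
        (Matrix.of fun k l : κ => ∑ u, V k u * conj (V l u)).permanent := by
  classical
  have h1 : ∀ a : Fin n → ℂ, ∏ k, ∑ u, V k u * a u
      = ∑ f : κ → Fin n, (∏ k, V k (f k)) * ∏ k, a (f k) := by
    intro a
    rw [Finset.prod_univ_sum]
    simp [Finset.prod_mul_distrib]
  have h2 : ∀ a : Fin n → ℂ, (∏ k, ∑ u, V k u * a u) * conj (∏ k, ∑ u, V k u * a u)
      = ∑ f : κ → Fin n, ∑ f' : κ → Fin n, ((∏ k, V k (f k)) * conj (∏ k, V k (f' k))) *
        ((∏ k, a (f k)) * conj (∏ k, a (f' k))) := by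
    intro a
    rw [h1, map_sum, Finset.sum_mul_sum]
    refine Finset.sum_congr rfl fun f _ => Finset.sum_congr rfl fun f' _ => ?_
    rw [map_mul]
    ring
  simp_rw [h2]
  rw [integral_finsetSum _ fun f _ => integrable_finsetSum _ fun f' _ =>
    (int_mm f f').const_mul _]
  have h3 : ∀ f : κ → Fin n, ∫ a, ∑ f' : κ → Fin n,
      ((∏ k, V k (f k)) * conj (∏ k, V k (f' k))) *
        ((∏ k, a (f k)) * conj (∏ k, a (f' k))) ∂(G n)
      = (2 : ℂ) ^ Fintype.card κ * ∑ σ : Equiv.Perm κ,
        ((∏ k, V k (f k)) * conj (∏ k, V k (f (σ k)))) := by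
    intro f
    rw [integral_finsetSum _ fun f' _ => (int_mm f f').const_mul _]
    simp_rw [integral_const_mul, val_mm]
    rw [Finset.mul_sum]
    have h4 : ∀ f' : κ → Fin n, ((∏ k, V k (f k)) * conj (∏ k, V k (f' k))) *
        ((2 : ℂ) ^ Fintype.card κ * (Finset.univ.filter fun σ : Equiv.Perm κ => f' = f ∘ σ).card)
        = ∑ σ : Equiv.Perm κ, if f' = f ∘ σ then (2 : ℂ) ^ Fintype.card κ *
          ((∏ k, V k (f k)) * conj (∏ k, V k (f' k))) else 0 := by
      intro f'
      rw [← Finset.sum_filter, Finset.sum_const, nsmul_eq_mul]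
      ring
    simp_rw [h4]
    rw [Finset.sum_comm]
    refine Finset.sum_congr rfl fun σ _ => ?_
    rw [Finset.sum_ite_eq' Finset.univ (f ∘ σ)]
    simp
  simp_rw [h3]
  rw [← Finset.mul_sum]
  congr 1
  rw [Finset.sum_comm]
  unfold Matrix.permanent
  refine Finset.sum_congr rfl fun σ _ => ?_
  have h5 : ∏ i, (Matrix.of fun k l : κ => ∑ u, V k u * conj (V l u)) (σ i) i
      = ∑ f : κ → Fin n, ∏ i, (V (σ i) (f i) * conj (V i (f i))) := by
    simp only [Matrix.of_apply]
    rw [Finset.prod_univ_sum]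
    simp
  rw [h5]
  refine Fintype.sum_equiv (Equiv.arrowCongr σ.symm (Equiv.refl (Fin n))) _ _ fun f => ?_
  rw [Finset.prod_mul_distrib, map_prod]
  congr 1
  rw [← Equiv.prod_comp σ]
  simp [Equiv.arrowCongr]

end comb

end WickM

/-- Module WICK -/
theorem specWick : SpecWick := by
  intro n V K
  have h1 : ∀ a : Fin n → ℂ, (∏ i ∈ K, (‖∑ u, V i u * a u‖ ^ 2 / 2))
      = (((∏ k : K, ∑ u, V k u * a u) * conj (∏ k : K, ∑ u, V k u * a u)) / 2 ^ K.card).re := by
    intro a
    rw [Complex.mul_conj', norm_prod, ← Finset.prod_coe_sort K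
      (fun i => (‖∑ u, V i u * a u‖ ^ 2 / 2)), Finset.prod_div_distrib, Finset.prod_const,
      Finset.prod_pow, Finset.card_univ, Fintype.card_coe]
    have h2 : (((∏ b : K, ‖∑ u, V b u * a u‖ : ℝ) : ℂ) ^ 2 / 2 ^ K.card)
        = (((∏ b : K, ‖∑ u, V b u * a u‖) ^ 2 / 2 ^ K.card : ℝ) : ℂ) := by
      push_cast
      rfl
    rw [h2, Complex.ofReal_re]
  have hint : Integrable (fun a : Fin n → ℂ =>
      ((∏ k : K, ∑ u, V k u * a u) * conj (∏ k : K, ∑ u, V k u * a u)) / 2 ^ K.card) (G n) := by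
    have h2 : ∀ a : Fin n → ℂ, ∏ k : K, ∑ u, V k u * a u
        = ∑ f : K → Fin n, (∏ k : K, V k (f k)) * ∏ k, a (f k) := by
      intro a
      rw [Finset.prod_univ_sum]
      simp [Finset.prod_mul_distrib]
    have h3 : ∀ a : Fin n → ℂ, (∏ k : K, ∑ u, V k u * a u) * conj (∏ k : K, ∑ u, V k u * a u)
        = ∑ f : K → Fin n, ∑ f' : K → Fin n,
          ((∏ k : K, V k (f k)) * conj (∏ k : K, V k (f' k))) *
          ((∏ k, a (f k)) * conj (∏ k, a (f' k))) := by
      intro a
      rw [h2, map_sum, Finset.sum_mul_sum]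
      refine Finset.sum_congr rfl fun f _ => Finset.sum_congr rfl fun f' _ => ?_
      rw [map_mul]
      ring
    simp_rw [h3]
    exact (integrable_finsetSum _ fun f _ => integrable_finsetSum _ fun f' _ =>
      (WickM.int_mm f f').const_mul _).div_const _
  simp_rw [h1]
  rw [← ofReal_integral_eq_lintegral_ofReal]
  · congr 1
    have h4 := integral_re hint
    simp only [RCLike.re_eq_complex_re] at h4
    rw [h4, integral_div, WickM.val_lin fun (k : K) u => V k u]
    rw [Fintype.card_coe]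
    rw [mul_div_cancel_left₀ _ (pow_ne_zero _ two_ne_zero)]
    congr 2
  · exact hint.re
  · refine Filter.Eventually.of_forall fun a => ?_
    have h5 : (0 : ℝ) ≤ ∏ i ∈ K, (‖∑ u, V i u * a u‖ ^ 2 / 2) := by positivity
    rw [h1 a] at h5
    exact h5

end CholB
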