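import Pool.Agent.Lib.MP_6947cd_al.B.Lieb
import Pool.Agent.Lib.MP_6947cd_al.B.Wick
import Pool.Agent.Lib.MP_6947cd_al.B.Col
import Pool.Agent.Lib.MP_6947cd_al.B.CV
import Pool.Agent.Lib.MP_6947cd_al.B.Jen
import Pool.Agent.Lib.MP_6947cd_al.B.Row
import Pool.Agent.Lib.MP_6947cd_al.B.VOne
import Pool.Agent.Lib.MP_6947cd_al.B.Alg
import Pool.Agent.Lib.MP_6947cd_al.B.Lim
import Pool.Agent.Lib.MP_6947cd_al.B.Conc

/-!
THEOREM S (problem MP_6947cd_al): assembly.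
-/

set_option autoImplicit false

open MeasureTheory ProbabilityTheory Set Matrix Filter Topology
open scoped ENNReal ComplexConjugate ComplexOrder

namespace CholB

open MPf1e3 (cg G GM nsq)

theorem specLieb : SpecLieb := fun _ A hA hd =>
  ⟨one_le_permanent A hA hd, fun K L hKL => lieb2 A hA hd K L hKL⟩

theorem specCol' : SpecCol := specCol specLieb specWick

theorem specJen' : SpecJen := specJen specCol' specCV

theorem specRow' : SpecRow := specRow specBM specConc specSpe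

namespace SBM

/-- the row value in the form of `Wrow` -/
lemma row_value {n : ℕ} (D : Fin n → ℂ) (i : Fin n) (τ : Fin n → ℝ) (θ x : ℝ)
    (hθ0 : 0 < θ) (hθ1 : θ < 1) (hτ : ∀ u, 0 ≤ τ u ∧ τ u ≤ 1) (hx : θ / 2 ≤ x)
    (hK : ∑ u, ‖D u‖ ^ 2 = 1 + x) (hD : (1 + x) * ((θ / 2) / x) ≤ ‖D i‖ ^ 2) :
    V1 (1 - θ) (θ / 2) (1 + x) (vrow θ (τ i) x)
      ≤ ∫ h, Real.log (li θ (fun c => ∑ u, D u * h u c)) ∂(bmu τ) := by
  have hx0 : 0 < x := by linarith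
  have hKpos : 0 < ∑ u, ‖D u‖ ^ 2 := by rw [hK]; linarith
  have h1 := specRow' n D i τ (1 - θ) (θ / 2) (by linarith) (by linarith) hτ hKpos
  have e : ∀ h : Fin n → Fin 2 → ℂ, li θ (fun c => ∑ u, D u * h u c)
      = (1 - θ) + θ / 2 * (nsq (fun c => ∑ u, D u * h u c) / 2) := by
    intro h
    unfold li
    ring
  simp_rw [e]
  refine le_trans ?_ h1
  rw [hK]
  have hc : 0 < 1 + τ i / 2 := by linarith [(hτ i).1]
  have hc1 : 0 ≤ 1 - 1 / (1 + τ i / 2) := by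
    rw [sub_nonneg, div_le_one hc]
    linarith [(hτ i).1]
  have hc2 : 1 - 1 / (1 + τ i / 2) < 1 := by
    have : 0 < 1 / (1 + τ i / 2) := by positivity
    linarith
  have hDi : ‖D i‖ ^ 2 ≤ 1 + x := by
    rw [← hK]
    exact Finset.single_le_sum (f := fun u => ‖D u‖ ^ 2) (fun _ _ => by positivity)
      (Finset.mem_univ i)
  refine specVOne.anti (1 - θ) (θ / 2) (1 + x) _ _ (by linarith) (by linarith) (by linarith) ?_ ?_ ?_
  · nlinarith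
  · unfold vrow
    have : (1 + x) * (1 - θ / 2 / x * (1 - 1 / (1 + τ i / 2)))
        = (1 + x) - ((1 + x) * (θ / 2 / x)) * (1 - 1 / (1 + τ i / 2)) := by ring
    rw [this]
    have := mul_le_mul_of_nonneg_right hD hc1
    linarith
  · unfold vrow
    have h2 : 0 ≤ (1 + x) * (θ / 2 / x * (1 - 1 / (1 + τ i / 2))) := by positivity
    linarith

/-- Theorem S for `θ, τ < 1` -/
theorem sb_lt (n : ℕ) (A : Matrix (Fin n) (Fin n) ℂ) (θ τ : Fin n → ℝ) (hA : A.PosSemidef)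
    (hd : ∀ i, A i i = 1) (hθ : ∀ i, 0 < θ i ∧ θ i < 1) (hτ : ∀ i, 0 ≤ τ i ∧ τ i < 1) :
    ∑ i, Wrow (θ i) (τ i) (∑ j, ‖A i j‖ ^ 2 * (θ j / 2)) ≤ Real.log A.permanent.re := by
  obtain ⟨U, V, lam, hU, hl, hV, htr, hK, hDi, hlog⟩ := specAlg n A θ hA hd
    (fun i => ⟨(hθ i).1, (hθ i).2.le⟩)
  have hj := specJen' n V U θ τ lam (fun i => ⟨(hθ i).1.le, (hθ i).2⟩) hτ hU hl
    (fun i => by rw [hV]; exact hd i) (by rw [hV]; exact hA)
  rw [hV] at hj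
  refine le_trans ?_ hj
  set D := V * fc U lam fun l => Real.sqrt (1 + l) with hD
  have hx : ∀ i, θ i / 2 ≤ ∑ j, ‖A i j‖ ^ 2 * (θ j / 2) := by
    intro i
    have h1 : ‖A i i‖ ^ 2 * (θ i / 2) ≤ ∑ j, ‖A i j‖ ^ 2 * (θ j / 2) :=
      Finset.single_le_sum (f := fun j => ‖A i j‖ ^ 2 * (θ j / 2)) (fun j _ => by
        have := (hθ j).1
        positivity) (Finset.mem_univ i)
    rw [hd i] at h1
    simpa using h1
  have hrow : ∀ i, V1 (1 - θ i) (θ i / 2) (1 + ∑ j, ‖A i j‖ ^ 2 * (θ j / 2))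
      (vrow (θ i) (τ i) (∑ j, ‖A i j‖ ^ 2 * (θ j / 2)))
      ≤ ∫ h, Real.log (li (θ i) (act D h i)) ∂(bmu τ) := fun i =>
    row_value (fun u => D i u) i τ (θ i) _ (hθ i).1 (hθ i).2
      (fun u => ⟨(hτ u).1, (hτ u).2.le⟩) (hx i) (hK i) (hDi i)
  have hsum := Finset.sum_le_sum fun i (_ : i ∈ Finset.univ) => hrow i
  have e : ∑ i, Wrow (θ i) (τ i) (∑ j, ‖A i j‖ ^ 2 * (θ j / 2))
      = (∑ i, V1 (1 - θ i) (θ i / 2) (1 + ∑ j, ‖A i j‖ ^ 2 * (θ j / 2))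
      (vrow (θ i) (τ i) (∑ j, ‖A i j‖ ^ 2 * (θ j / 2)))) - ∑ i, KL (τ i)
      - 2 * ∑ i, θ i / 2 + 2 * ∑ i, (θ i / 2) / (∑ j, ‖A i j‖ ^ 2 * (θ j / 2)) *
        Real.log (1 + ∑ j, ‖A i j‖ ^ 2 * (θ j / 2)) := by
    rw [Finset.mul_sum, Finset.mul_sum, ← Finset.sum_sub_distrib, ← Finset.sum_sub_distrib,
      ← Finset.sum_add_distrib]
    refine Finset.sum_congr rfl fun i _ => ?_
    unfold Wrow
    ring
  rw [e, htr]
  linarith

end SBM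

/-- THEOREM S -/
theorem specSB : SpecSB := by
  intro n A θ τ hA hd hθ hτ
  have hlim : Tendsto (fun s : ℝ => ∑ i, Wrow (s * θ i) (s * τ i)
      (s * ∑ j, ‖A i j‖ ^ 2 * (θ j / 2))) (𝓝[<] 1)
      (𝓝 (∑ i, Wrow (θ i) (τ i) (∑ j, ‖A i j‖ ^ 2 * (θ j / 2)))) := by
    refine tendsto_finsetSum _ fun i _ => ?_
    refine specLim (θ i) (τ i) _ (hθ i).1 (hθ i).2 (hτ i).1 (hτ i).2 ?_
    have h1 : ‖A i i‖ ^ 2 * (θ i / 2) ≤ ∑ j, ‖A i j‖ ^ 2 * (θ j / 2) :=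
      Finset.single_le_sum (f := fun j => ‖A i j‖ ^ 2 * (θ j / 2)) (fun j _ => by
        have := (hθ j).1
        positivity) (Finset.mem_univ i)
    rw [hd i] at h1
    simpa using h1
  refine le_of_tendsto hlim ?_
  have hmem : Ioo (0 : ℝ) 1 ∈ 𝓝[<] (1 : ℝ) := Ioo_mem_nhdsLT (by norm_num)
  filter_upwards [hmem] with s hs
  have h := SBM.sb_lt n A (fun i => s * θ i) (fun i => s * τ i) hA hd
    (fun i => ⟨mul_pos hs.1 (hθ i).1, by nlinarith [(hθ i).1, (hθ i).2, hs.1, hs.2]⟩)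
    (fun i => ⟨mul_nonneg hs.1.le (hτ i).1, by nlinarith [(hτ i).1, (hτ i).2, hs.1, hs.2]⟩)
  have e : ∀ i, ∑ j, ‖A i j‖ ^ 2 * (s * θ j / 2) = s * ∑ j, ‖A i j‖ ^ 2 * (θ j / 2) := by
    intro i
    rw [Finset.mul_sum]
    refine Finset.sum_congr rfl fun j _ => ?_
    ring
  simp only [e] at h
  exact h

end CholB
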