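import Pool.Agent.Lib.MP_6947cd_al.B.Defs

/-!
Specifications of the modules of Theorem S (problem MP_6947cd_al).
-/

set_option autoImplicit false

open MeasureTheory ProbabilityTheory Set Matrix Filter Topology
open scoped ENNReal ComplexConjugate ComplexOrder

namespace CholB

open MPf1e3 (cg G GM nsq)

/-- Module LIEB -/
def SpecLieb : Prop := ∀ (n : ℕ) (A : Matrix (Fin n) (Fin n) ℂ), A.PosSemidef → (∀ i, A i i = 1) →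
  1 ≤ A.permanent.re ∧ ∀ K L : Finset (Fin n), Disjoint K L →
  (A.submatrix (fun i : K => (i : Fin n)) (fun i : K => (i : Fin n))).permanent.re *
    (A.submatrix (fun i : L => (i : Fin n)) (fun i : L => (i : Fin n))).permanent.re
      ≤ A.permanent.re

/-- Module WICK : complex Gaussian moments are permanents (`E|z|^2 = 2`) -/
def SpecWick : Prop := ∀ (n : ℕ) (V : Matrix (Fin n) (Fin n) ℂ) (K : Finset (Fin n)),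
  ∫⁻ a, ENNReal.ofReal (∏ i ∈ K, (‖∑ u, V i u * a u‖ ^ 2 / 2)) ∂(G n)
    = ENNReal.ofReal ((V * Vᴴ).submatrix (fun i : K => (i : Fin n))
        (fun i : K => (i : Fin n))).permanent.re

/-- Module COL (uses LIEB, WICK) : the two-colour lower bound -/
def SpecCol : Prop := ∀ (n : ℕ) (V : Matrix (Fin n) (Fin n) ℂ) (θ : Fin n → ℝ),
  (∀ i, 0 ≤ θ i ∧ θ i ≤ 1) → (∀ i, (V * Vᴴ) i i = 1) →
  ∫⁻ g, ENNReal.ofReal (∏ i, li (θ i) (act V g i)) ∂(GM n 2)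
    ≤ ENNReal.ofReal (V * Vᴴ).permanent.re

/-- Module CV : change of variables `g = R h`, `R = U diag (sqrt (1 + lam)) U^*` -/
def SpecCV : Prop := ∀ (n : ℕ) (U : Matrix (Fin n) (Fin n) ℂ) (lam : Fin n → ℝ), U * Uᴴ = 1 →
  (∀ k, 0 ≤ lam k) → ∀ F : (Fin n → Fin 2 → ℂ) → ℝ≥0∞, Measurable F →
  ∫⁻ g, F g ∂(GM n 2) = ENNReal.ofReal ((∏ k, (1 + lam k)) ^ 2) *
    ∫⁻ h, F (act (fc U lam fun l => Real.sqrt (1 + l)) h) *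
      ENNReal.ofReal (Real.exp (-(∑ i, nsq (act (fc U lam fun l => Real.sqrt (1 + l)) h i)
        - ∑ i, nsq (h i)) / 2)) ∂(GM n 2)

/-- Module BM : the biased law -/
structure SpecBM : Prop where
  pos : ∀ t y, 0 ≤ t → t < 1 → 0 < fb t y
  nonneg : ∀ t y, 0 ≤ t → t ≤ 1 → 0 ≤ fb t y
  prob : ∀ t, 0 ≤ t → t ≤ 1 → IsProbabilityMeasure (bm t)
  int_nsq : ∀ t, 0 ≤ t → t ≤ 1 → Integrable (fun y : Fin 2 → ℂ => nsq y) (bm t)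
  val_nsq : ∀ t, 0 ≤ t → t ≤ 1 → ∫ y, nsq y ∂(bm t) = 4
  mean : ∀ t, 0 ≤ t → t ≤ 1 → ∀ c, ∫ y, y c ∂(bm t) = 0
  int_log : ∀ t, 0 ≤ t → t < 1 → Integrable (fun y : Fin 2 → ℂ => Real.log (fb t y)) (bm t)
  val_log : ∀ t, 0 ≤ t → t < 1 → ∫ y, Real.log (fb t y) ∂(bm t) = KL t

/-- Module JEN (uses COL, CV, BM) : Gibbs/Jensen with the trial law `g = R h` -/
def SpecJen : Prop := ∀ (n : ℕ) (V U : Matrix (Fin n) (Fin n) ℂ) (θ τ lam : Fin n → ℝ),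
  (∀ i, 0 ≤ θ i ∧ θ i < 1) → (∀ i, 0 ≤ τ i ∧ τ i < 1) → U * Uᴴ = 1 → (∀ k, 0 ≤ lam k) →
  (∀ i, (V * Vᴴ) i i = 1) → (V * Vᴴ).PosSemidef →
  (∑ i, ∫ h, Real.log (li (θ i) (act (V * fc U lam fun l => Real.sqrt (1 + l)) h i)) ∂(bmu τ))
    - ∑ i, KL (τ i) - 2 * ∑ k, lam k + 2 * ∑ k, Real.log (1 + lam k)
      ≤ Real.log (V * Vᴴ).permanent.re

/-- Module CONC : the biased law is better than the Gaussian one in the other coordinates -/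
def SpecConc : Prop := ∀ (a b t : ℝ) (x : Fin 2 → ℂ) (d : ℂ), 0 < a → 0 ≤ b → 0 ≤ t → t ≤ 1 →
  ∫ y, Real.log (a + b * (nsq (fun c => x c + d * y c) / 2)) ∂(G 2)
    ≤ ∫ y, Real.log (a + b * (nsq (fun c => x c + d * y c) / 2)) ∂(bm t)

/-- Module GSUM : sums of independent Gaussians -/
def SpecGSum : Prop := ∀ (n : ℕ) (D : Fin n → ℂ) (F : (Fin 2 → ℂ) → ℝ≥0∞), Measurable F →
  ∫⁻ g, F (fun c => ∑ u, D u * g u c) ∂(GM n 2)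
    = ∫⁻ y, F (fun c => (Real.sqrt (∑ u, ‖D u‖ ^ 2) : ℂ) * y c) ∂(G 2)

/-- Module SPE : one special coordinate -/
def SpecSpe : Prop := ∀ (a b s t : ℝ) (d : ℂ), 0 < a → 0 ≤ b → 0 ≤ s → 0 < s + ‖d‖ ^ 2 →
  0 ≤ t → t ≤ 1 →
  ∫ h, (∫ y, Real.log (a + b * (nsq (fun c => (Real.sqrt s : ℂ) * y c + d * h c) / 2)) ∂(G 2))
    ∂(bm t) = V1 a b (s + ‖d‖ ^ 2) (s + ‖d‖ ^ 2 / (1 + t / 2))

/-- Module ROW (uses BM, CONC, GSUM, SPE) : the value of a row -/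
def SpecRow : Prop := ∀ (n : ℕ) (D : Fin n → ℂ) (i : Fin n) (τ : Fin n → ℝ) (a b : ℝ),
  0 < a → 0 ≤ b → (∀ u, 0 ≤ τ u ∧ τ u ≤ 1) → 0 < ∑ u, ‖D u‖ ^ 2 →
  V1 a b (∑ u, ‖D u‖ ^ 2) (∑ u, ‖D u‖ ^ 2 - ‖D i‖ ^ 2 * (1 - 1 / (1 + τ i / 2)))
    ≤ ∫ h, Real.log (a + b * (nsq (fun c => ∑ u, D u * h u c) / 2)) ∂(bmu τ)

/-- Module VONE : properties of `V1` -/
structure SpecVOne : Prop where
  /-- `V1` decreases in `v` -/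
  anti : ∀ a b K v v' : ℝ, 0 ≤ a → 0 ≤ b → 0 < a + b → 0 < v → v ≤ v' → v' ≤ K →
    V1 a b K v' ≤ V1 a b K v
  /-- integration by parts -/
  formula : ∀ a b K v : ℝ, 0 ≤ a → 0 ≤ b → 0 < a + b → 0 < v → v ≤ K →
    V1 a b K v = (1 - 2 * (K - v) / v) * L0 a (b * v) + 2 * (K - v) / v * L1 a (b * v)
  /-- closed form for `a = 0` -/
  zero : ∀ b K v : ℝ, 0 < b → 0 < v → v ≤ K →
    V1 0 b K v = Real.log (b * v) + (1 - Real.eulerMascheroniConstant) + (K - v) / v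

/-- Module ALG : the spectral facts -/
def SpecAlg : Prop := ∀ (n : ℕ) (A : Matrix (Fin n) (Fin n) ℂ) (θ : Fin n → ℝ), A.PosSemidef →
  (∀ i, A i i = 1) → (∀ i, 0 < θ i ∧ θ i ≤ 1) →
  ∃ (U V : Matrix (Fin n) (Fin n) ℂ) (lam : Fin n → ℝ), U * Uᴴ = 1 ∧ (∀ k, 0 ≤ lam k) ∧
    V * Vᴴ = A ∧ ∑ k, lam k = ∑ i, θ i / 2 ∧
    (∀ i, ∑ u, ‖(V * fc U lam fun l => Real.sqrt (1 + l)) i u‖ ^ 2
      = 1 + ∑ j, ‖A i j‖ ^ 2 * (θ j / 2)) ∧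
    (∀ i, (1 + ∑ j, ‖A i j‖ ^ 2 * (θ j / 2)) * ((θ i / 2) / ∑ j, ‖A i j‖ ^ 2 * (θ j / 2))
      ≤ ‖(V * fc U lam fun l => Real.sqrt (1 + l)) i i‖ ^ 2) ∧
    ∑ i, (θ i / 2) / (∑ j, ‖A i j‖ ^ 2 * (θ j / 2)) * Real.log (1 + ∑ j, ‖A i j‖ ^ 2 * (θ j / 2))
      ≤ ∑ k, Real.log (1 + lam k)

/-- Module LIM : continuity along the scaling `(θ, t, x) ↦ (s θ, s t, s x)`, `s → 1` -/
def SpecLim : Prop := ∀ θ t x : ℝ, 0 < θ → θ ≤ 1 → 0 ≤ t → t ≤ 1 → θ / 2 ≤ x →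
  Tendsto (fun s : ℝ => Wrow (s * θ) (s * t) (s * x)) (𝓝[<] 1) (𝓝 (Wrow θ t x))

/-- THEOREM S -/
def SpecSB : Prop := ∀ (n : ℕ) (A : Matrix (Fin n) (Fin n) ℂ) (θ τ : Fin n → ℝ), A.PosSemidef →
  (∀ i, A i i = 1) → (∀ i, 0 < θ i ∧ θ i ≤ 1) → (∀ i, 0 ≤ τ i ∧ τ i ≤ 1) →
  ∑ i, Wrow (θ i) (τ i) (∑ j, ‖A i j‖ ^ 2 * (θ j / 2)) ≤ Real.log A.permanent.re

end CholB
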